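import Pool.Agent.JC.Cell

/-!
# [JC] counting the `D`: residue classes and multiples
-/

set_option autoImplicit false

namespace JC

open CM27 CU JZ

theorem norm_le_iff (x : Eis) (X : ℕ) : x.norm ≤ X ↔ ‖emb x‖ ≤ √X := by
  rw [← Real.sqrt_sq (norm_nonneg (emb x)), Real.sqrt_le_sqrt_iff (Nat.cast_nonneg X), norm_emb_sq]
  exact_mod_cast Iff.rfl

theorem norm_fin (X : ℕ) : {x : Eis | x.norm ≤ X}.Finite := by
  refine (disc_fin 0 (√X)).subset fun x hx => ?_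
  show ‖emb x - 0‖ ≤ √X
  rw [sub_zero]
  exact (norm_le_iff x X).1 hx

theorem two_pi_bounds : 3.6275 ≤ 2 * Real.pi / √3 ∧ 2 * Real.pi / √3 ≤ 3.6277 := by
  have h3 := sqrt3_pos
  have h3l : 1.73205 ≤ √3 := Real.le_sqrt_of_sq_le (by norm_num)
  have h3u : √3 ≤ 1.73206 := by
    rw [Real.sqrt_le_left (by norm_num)]
    norm_num
  have hpi := Real.pi_gt_d6
  have hpi' := Real.pi_lt_d6
  constructor
  · rw [le_div_iff₀ h3]
    nlinarith
  · rw [div_le_iff₀ h3]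
    nlinarith

theorem count_all : ∃ X₀ : ℕ, ∀ X : ℕ, X₀ ≤ X → {D : Eis | D ≠ 0 ∧ D.norm ≤ X}.Finite ∧
    1000 * {D : Eis | D ≠ 0 ∧ D.norm ≤ X}.ncard ≤ 3628 * X := by
  refine ⟨10 ^ 12, fun X hX => ?_⟩
  have hsub : {D : Eis | D ≠ 0 ∧ D.norm ≤ X} ⊆ {D : Eis | ‖emb D - 0‖ ≤ √X} := fun D hD => by
    show ‖emb D - 0‖ ≤ √X
    rw [sub_zero]
    exact (norm_le_iff D X).1 hD.2
  obtain ⟨hf, hc⟩ := disc_count 0 (√X) (Real.sqrt_nonneg _)
  refine ⟨hf.subset hsub, ?_⟩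
  have h1 := (abs_le.1 hc).2
  have h2 : ({D : Eis | D ≠ 0 ∧ D.norm ≤ X}.ncard : ℝ) ≤ {D : Eis | ‖emb D - 0‖ ≤ √X}.ncard := by
    exact_mod_cast Set.ncard_le_ncard hsub hf
  have hX' : (10 : ℝ) ^ 12 ≤ X := by exact_mod_cast hX
  have h3 : √X ^ 2 = X := Real.sq_sqrt (by linarith)
  have h4 : (10 : ℝ) ^ 6 ≤ √X := by
    apply Real.le_sqrt_of_sq_le
    norm_num at hX' ⊢
    exact hX'
  rw [h3] at h1
  have h5 := two_pi_bounds.2
  have h6 : 10 ^ 6 * √X ≤ X := by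
    calc 10 ^ 6 * √X ≤ √X * √X := mul_le_mul_of_nonneg_right h4 (Real.sqrt_nonneg _)
      _ = X := by rw [← sq, h3]
  have h7 : (1000 : ℝ) * ({D : Eis | D ≠ 0 ∧ D.norm ≤ X}.ncard : ℝ) ≤ 3628 * X := by
    have h8 : 2 * Real.pi / √3 * X ≤ 3.6277 * X := mul_le_mul_of_nonneg_right h5 (by linarith)
    linarith
  exact_mod_cast h7

theorem norm_one_le {m : Eis} (hm : m ≠ 0) : (1 : ℝ) ≤ (m.norm : ℝ) := by
  have h2 := norm_nonneg' m
  have h3 : m.norm ≠ 0 := fun h => hm (a2_norm_zero h)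
  have h4 : 1 ≤ m.norm := by omega
  exact_mod_cast h4

/-- all the multiples of `m`, uniformly -/
theorem count_mul : ∃ C : ℝ, 0 < C ∧ ∀ (m : Eis) (X : ℕ), m ≠ 0 →
    ({x : Eis | x ≠ 0 ∧ m ∣ x ∧ x.norm ≤ X}.ncard : ℝ) ≤ C * X / m.norm := by
  refine ⟨30, by norm_num, fun m X hm => ?_⟩
  have hdom := eis_isDomain
  have hm1 := norm_one_le hm
  have hm0 : 0 < ‖emb m‖ := by
    rw [norm_pos_iff]
    exact fun h => hm (emb_injective (by rw [h, map_zero]))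
  have hmn : ‖emb m‖ ^ 2 = (m.norm : ℝ) := norm_emb_sq m
  by_cases hX : (m.norm : ℝ) ≤ X
  · set R : ℝ := √X / ‖emb m‖ with hR
    have hR0 : 0 ≤ R := by positivity
    have hR2 : R ^ 2 = X / m.norm := by
      rw [hR, div_pow, hmn, Real.sq_sqrt (Nat.cast_nonneg _)]
    have hle : {x : Eis | x ≠ 0 ∧ m ∣ x ∧ x.norm ≤ X}.ncard ≤ {y : Eis | ‖emb y - 0‖ ≤ R}.ncard := by
      have : {x : Eis | x ≠ 0 ∧ m ∣ x ∧ x.norm ≤ X} ⊆ (fun y => m * y) '' {y : Eis | ‖emb y - 0‖ ≤ R} := by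
        rintro x ⟨-, ⟨y, rfl⟩, hx⟩
        refine ⟨y, ?_, rfl⟩
        show ‖emb y - 0‖ ≤ R
        rw [sub_zero, hR, le_div_iff₀ hm0, ← norm_mul, ← map_mul, mul_comm y m]
        exact (norm_le_iff _ X).1 hx
      refine (Set.ncard_le_ncard this ((disc_fin 0 R).image _)).trans ?_
      exact Set.ncard_image_le (disc_fin 0 R)
    have h1 := (abs_le.1 (disc_count 0 R hR0).2).2
    have h2 := two_pi_bounds.2
    have h3 : 2 * Real.pi / √3 * R ^ 2 ≤ 3.6277 * R ^ 2 :=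
      mul_le_mul_of_nonneg_right h2 (by positivity)
    have h4 : 1 ≤ R ^ 2 := by
      rw [hR2, one_le_div (by linarith)]
      exact hX
    have h5 : ({x : Eis | x ≠ 0 ∧ m ∣ x ∧ x.norm ≤ X}.ncard : ℝ) ≤
        ({y : Eis | ‖emb y - 0‖ ≤ R}.ncard : ℝ) := by exact_mod_cast hle
    have h6 : ({x : Eis | x ≠ 0 ∧ m ∣ x ∧ x.norm ≤ X}.ncard : ℝ) ≤ 30 * R ^ 2 := by
      nlinarith [sq_nonneg (R - 1)]
    rw [hR2] at h6
    rw [mul_div_assoc]
    exact h6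
  · have : {x : Eis | x ≠ 0 ∧ m ∣ x ∧ x.norm ≤ X} = ∅ := by
      ext x
      simp only [Set.mem_empty_iff_false, iff_false]
      rintro ⟨hx0, ⟨y, rfl⟩, hx⟩
      apply hX
      have hy : y ≠ 0 := by
        rintro rfl
        exact hx0 (mul_zero m)
      have hy1 := norm_one_le hy
      have hx' : ((m * y).norm : ℝ) ≤ X := by exact_mod_cast hx
      have : ((m * y).norm : ℝ) = (m.norm : ℝ) * (y.norm : ℝ) := by
        rw [map_mul]
        push_cast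
        rfl
      rw [this] at hx'
      nlinarith
    rw [this, Set.ncard_empty, Nat.cast_zero]
    positivity

end JC
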