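import Pool.Agent.JC.C2

/-!
# [JC] the class as a set of residues modulo `36`
-/

set_option autoImplicit false

namespace JC

open CM27 CU JZ

theorem three_dvd_iff (x : Eis) : (3 : Eis) ∣ x ↔ (3 : ℤ) ∣ x.re ∧ (3 : ℤ) ∣ x.im := by
  have e1 : (3 : Eis).re = 3 := rfl
  have e2 : (3 : Eis).im = 0 := rfl
  constructor
  · rintro ⟨k, rfl⟩
    rw [QuadraticAlgebra.re_mul, QuadraticAlgebra.im_mul, e1, e2]
    constructor <;> omega
  · rintro ⟨⟨u, hu⟩, ⟨v, hv⟩⟩
    refine ⟨⟨u, v⟩, ?_⟩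
    apply QuadraticAlgebra.ext
    · rw [QuadraticAlgebra.re_mul, e1, e2, hu]
      ring
    · rw [QuadraticAlgebra.im_mul, e1, e2, hv]
      ring

theorem la3_dvd_iff (x : Eis) : (la : Eis) ^ 3 ∣ x ↔
    (3 : ℤ) ∣ x.re ∧ (3 : ℤ) ∣ x.im ∧ (9 : ℤ) ∣ x.re + x.im := by
  have e0 : (la : Eis) ^ 3 = ⟨-3, -6⟩ := by decide
  rw [e0]
  constructor
  · rintro ⟨k, rfl⟩
    rw [QuadraticAlgebra.re_mul, QuadraticAlgebra.im_mul]
    refine ⟨?_, ?_, ?_⟩ <;> dsimp only <;> omega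
  · rintro ⟨⟨u, hu⟩, ⟨v, hv⟩, ⟨k, hk⟩⟩
    obtain ⟨p, hp⟩ : ∃ p, u - 2 * v = 3 * p := ⟨k - v, by omega⟩
    refine ⟨⟨p, v + 2 * p⟩, ?_⟩
    apply QuadraticAlgebra.ext
    · rw [QuadraticAlgebra.re_mul, hu]
      dsimp only
      linarith
    · rw [QuadraticAlgebra.im_mul, hv]
      dsimp only
      linarith

theorem condLa_iff (D : Eis) : CondLa D ↔ (3 : ℤ) ∣ D.im ∧
    (((3 : ℤ) ∣ D.re - 1 ∧ ¬ (9 : ℤ) ∣ D.re + D.im + 2) ∨
      ((3 : ℤ) ∣ D.re + 1 ∧ ¬ (9 : ℤ) ∣ D.re + D.im + 4)) := by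
  have e0 : (la : Eis) ^ 2 = ⟨0, -3⟩ := by decide
  have e1 : (1 : Eis).re = 1 := rfl
  have e2 : (1 : Eis).im = 0 := rfl
  have e3 : (-1 : Eis).re = -1 := rfl
  have e4 : (-1 : Eis).im = 0 := rfl
  unfold CondLa
  constructor
  · rintro ⟨η, rfl | rfl, h1, h2⟩
    · rw [three_dvd_iff] at h1
      rw [la3_dvd_iff, e0] at h2
      simp only [QuadraticAlgebra.re_sub, QuadraticAlgebra.im_sub, e1, e2] at h1 h2
      refine ⟨by omega, Or.inl ⟨by omega, fun h3 => h2 ?_⟩⟩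
      refine ⟨by omega, by omega, by omega⟩
    · rw [three_dvd_iff] at h1
      rw [la3_dvd_iff, e0] at h2
      simp only [QuadraticAlgebra.re_sub, QuadraticAlgebra.im_sub, e3, e4] at h1 h2
      refine ⟨by omega, Or.inr ⟨by omega, fun h3 => h2 ?_⟩⟩
      refine ⟨by omega, by omega, by omega⟩
  · rintro ⟨h1, ⟨h2, h3⟩ | ⟨h2, h3⟩⟩
    · refine ⟨1, Or.inl rfl, ?_, ?_⟩
      · rw [three_dvd_iff]
        simp only [QuadraticAlgebra.re_sub, QuadraticAlgebra.im_sub, e1, e2]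
        omega
      · rw [la3_dvd_iff, e0]
        simp only [QuadraticAlgebra.re_sub, QuadraticAlgebra.im_sub, e1, e2]
        omega
    · refine ⟨-1, Or.inr rfl, ?_, ?_⟩
      · rw [three_dvd_iff]
        simp only [QuadraticAlgebra.re_sub, QuadraticAlgebra.im_sub, e3, e4]
        omega
      · rw [la3_dvd_iff, e0]
        simp only [QuadraticAlgebra.re_sub, QuadraticAlgebra.im_sub, e3, e4]
        omega

theorem condTwo_iff (D : Eis) : CondTwo D ↔ ¬ ((D.re % 4 = 0 ∧ D.im % 4 = 0) ∨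
    (D.re % 4 = 1 ∧ D.im % 4 = 0) ∨ (D.re % 4 = 0 ∧ D.im % 4 = 1) ∨
    (D.re % 4 = 3 ∧ D.im % 4 = 3)) := by
  have e1 : (4 : Eis).re = 4 := rfl
  have e2 : (4 : Eis).im = 0 := rfl
  unfold CondTwo
  rw [← not_exists, not_iff_not]
  constructor
  · rintro ⟨m, k, hk⟩
    have h1 := congrArg QuadraticAlgebra.re hk
    have h2 := congrArg QuadraticAlgebra.im hk
    rw [sq, QuadraticAlgebra.re_sub, QuadraticAlgebra.re_mul, QuadraticAlgebra.re_mul, e1, e2] at h1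
    rw [sq, QuadraticAlgebra.im_sub, QuadraticAlgebra.im_mul, QuadraticAlgebra.im_mul, e1, e2] at h2
    obtain ⟨p, hp | hp⟩ := Int.even_or_odd' m.re <;> obtain ⟨q, hq | hq⟩ := Int.even_or_odd' m.im <;>
      rw [hp, hq] at h1 h2 <;> ring_nf at h1 h2 <;> omega
  · intro h
    have key : ∀ a b : ℤ, ∀ m : Eis, (m ^ 2).re = a → (m ^ 2).im = b → D.re % 4 = a % 4 →
        D.im % 4 = b % 4 → ∃ m : Eis, (4 : Eis) ∣ D - m ^ 2 := by
      intro a b m ha hb h1 h2
      refine ⟨m, ⟨(D.re - a) / 4, (D.im - b) / 4⟩, ?_⟩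
      apply QuadraticAlgebra.ext
      · rw [QuadraticAlgebra.re_sub, QuadraticAlgebra.re_mul, e1, e2, ha]
        dsimp only
        omega
      · rw [QuadraticAlgebra.im_sub, QuadraticAlgebra.im_mul, e1, e2, hb]
        dsimp only
        omega
    rcases h with h | h | h | h
    · exact key 0 0 0 (by decide) (by decide) (by omega) (by omega)
    · exact key 1 0 1 (by decide) (by decide) (by omega) (by omega)
    · exact key 0 1 ⟨1, 1⟩ (by decide) (by decide) (by omega) (by omega)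
    · exact key (-1) (-1) om (by decide) (by decide) (by omega) (by omega)

/-- the class in terms of the residues -/
def okN (u v : ℕ) : Bool :=
  (v % 3 == 0) && ((u % 3 == 1 && (u + v + 2) % 9 != 0) || (u % 3 == 2 && (u + v + 4) % 9 != 0)) &&
    !((u % 4 == 0 && v % 4 == 0) || (u % 4 == 1 && v % 4 == 0) || (u % 4 == 0 && v % 4 == 1) ||
      (u % 4 == 3 && v % 4 == 3))

/-- the set of the residues -/
def F36 : Finset (ZMod 36 × ZMod 36) := Finset.univ.filter fun c => okN c.1.val c.2.val = true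

theorem F36_card : F36.card = 144 := by decide +kernel

theorem mem_F36 (D : Eis) : (CondLa D ∧ CondTwo D) ↔ res 36 D ∈ F36 := by
  rw [condLa_iff, condTwo_iff, F36, Finset.mem_filter]
  have h1 : (((res 36 D).1.val : ℕ) : ℤ) = D.re % 36 := by
    show (((D.re : ZMod 36).val : ℕ) : ℤ) = _
    rw [ZMod.val_intCast]
    rfl
  have h2 : (((res 36 D).2.val : ℕ) : ℤ) = D.im % 36 := by
    show (((D.im : ZMod 36).val : ℕ) : ℤ) = _
    rw [ZMod.val_intCast]
    rfl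
  set u := (res 36 D).1.val
  set v := (res 36 D).2.val
  simp only [okN, Bool.and_eq_true, Bool.or_eq_true, beq_iff_eq, bne_iff_ne, ne_eq,
    Bool.not_eq_true', Bool.or_eq_false_iff, Bool.and_eq_false_iff, beq_eq_false_iff_ne,
    Finset.mem_univ, true_and]
  omega

end JC
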