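import Pool.Agent.JC.K3

/-!
# [JC] the cusp
-/

set_option autoImplicit false

namespace JC

open CM27 CU JZ

theorem count_bcd {s : ℝ} {a : Eis} (hs : 1 ≤ s) (ha : a ≠ 0) (has : ‖emb a‖ ≤ s) :
    {g : Eis × Eis × Eis | emb4 (a, g) ∈ Reg s}.Finite ∧
    ({g : Eis × Eis × Eis | emb4 (a, g) ∈ Reg s}.ncard : ℝ) ≤
      3060000 * (√s) ^ 15 * (1 / (√‖emb a‖) ^ 3) := by
  have hna : 1 ≤ ‖emb a‖ := by
    have h2 := norm_nonneg' a
    have h3 : a.norm ≠ 0 := fun h => ha (a2_norm_zero h)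
    have h4 : 1 ≤ a.norm := by omega
    have h5 : (1 : ℝ) ^ 2 ≤ ‖emb a‖ ^ 2 := by
      rw [norm_emb_sq, one_pow]
      exact_mod_cast h4
    exact le_of_sq_le_sq h5 (norm_nonneg _)
  set r := √s with hr
  set α := √‖emb a‖ with hα
  have hr2 : r ^ 2 = s := Real.sq_sqrt (by linarith)
  have hα2 : ‖emb a‖ = α ^ 2 := (Real.sq_sqrt (norm_nonneg _)).symm
  have hα1 : 1 ≤ α := by
    rw [hα, Real.one_le_sqrt]
    exact hna
  have hαr : α ≤ r := Real.sqrt_le_sqrt has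
  have hα0 : 0 < α := by linarith
  set F : Finset Eis := (disc_fin 0 (4 * ‖emb a‖)).toFinset with hF
  have hmem : ∀ x, x ∈ F ↔ ‖emb x‖ ≤ 4 * ‖emb a‖ := fun x => by
    rw [hF, Set.Finite.mem_toFinset]
    show ‖emb x - 0‖ ≤ _ ↔ _
    rw [sub_zero]
  obtain ⟨h1, h2⟩ := fib_card F (fun b => {g : Eis × Eis |
    ((emb a, emb b, emb g.1, emb g.2) : V4) ∈ Reg (r ^ 2)}) (fun _ => 12000 * (r ^ 15 / α ^ 7))
    {g : Eis × Eis × Eis | emb4 (a, g) ∈ Reg s} (fun g hg => by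
      have hg' : ((emb a, emb g.1, emb g.2.1, emb g.2.2) : V4) ∈ Reg s := hg
      refine ⟨(hmem _).2 (reg_bounds (by linarith) hg').2.1, ?_⟩
      rw [← hr2] at hg'
      exact hg') (fun b _ => count_cd hα1 hαr hα2)
  refine ⟨h1, h2.trans ?_⟩
  rw [Finset.sum_const, nsmul_eq_mul]
  have h3 : (F.card : ℝ) ≤ 255 * α ^ 4 := by
    have h4 : F.card ≤ {x : Eis | ‖emb x - 0‖ ≤ 4 * ‖emb a‖}.ncard := by
      rw [← Set.ncard_coe_finset]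
      refine Set.ncard_le_ncard (fun x hx => ?_) (disc_fin 0 _)
      show ‖emb x - 0‖ ≤ _
      rw [sub_zero]
      exact (hmem x).1 hx
    calc (F.card : ℝ) ≤ ({x : Eis | ‖emb x - 0‖ ≤ 4 * ‖emb a‖}.ncard : ℝ) := by exact_mod_cast h4
      _ ≤ 15 * (1 + (4 * ‖emb a‖) ^ 2) := disc_le 0 _ (by positivity)
      _ ≤ 255 * α ^ 4 := by
        rw [hα2]
        have : 1 ≤ α ^ 4 := one_le_pow₀ hα1
        nlinarith
  calc (F.card : ℝ) * (12000 * (r ^ 15 / α ^ 7)) ≤ 255 * α ^ 4 * (12000 * (r ^ 15 / α ^ 7)) := by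
        gcongr
    _ = _ := by
      field_simp
      ring

theorem cusp : ∃ C : ℝ, 0 < C ∧ ∀ s ε : ℝ, 1 ≤ s → 0 < ε → ε ≤ 1 →
    {g : O4 | emb4 g ∈ Reg s ∧ ‖emb g.1‖ ≤ ε * s}.Finite ∧
    ({g : O4 | emb4 g ∈ Reg s ∧ ‖emb g.1‖ ≤ ε * s}.ncard : ℝ) ≤ C * √ε * s ^ 8 := by
  classical
  obtain ⟨C, hC, hsum⟩ := sum_a
  refine ⟨3060000 * C, by positivity, fun s ε hs hε hε1 => ?_⟩
  have hs0 : 0 < s := by linarith
  set F : Finset Eis := ((disc_fin 0 (ε * s)).toFinset).filter (fun a => a ≠ 0) with hF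
  have hmem : ∀ x, x ∈ F ↔ ‖emb x‖ ≤ ε * s ∧ x ≠ 0 := fun x => by
    rw [hF, Finset.mem_filter, Set.Finite.mem_toFinset]
    show ‖emb x - 0‖ ≤ _ ∧ _ ↔ _
    rw [sub_zero]
  obtain ⟨h1, h2⟩ := fib_card F (fun a => {g : Eis × Eis × Eis | emb4 (a, g) ∈ Reg s})
    (fun a => 3060000 * (√s) ^ 15 * (1 / (√‖emb a‖) ^ 3))
    {g : O4 | emb4 g ∈ Reg s ∧ ‖emb g.1‖ ≤ ε * s} (fun g hg => by
      refine ⟨(hmem _).2 ⟨hg.2, fun h => ?_⟩, hg.1⟩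
      have h0 : emb g.1 ≠ 0 := hg.1.1
      rw [h, map_zero] at h0
      exact h0 rfl) (fun a ha => by
      obtain ⟨h3, h4⟩ := (hmem a).1 ha
      exact count_bcd hs h4 (h3.trans (by nlinarith)))
  refine ⟨h1, h2.trans ?_⟩
  rw [← Finset.mul_sum]
  have h3 := hsum (ε * s) (by positivity) F fun a ha => ⟨((hmem a).1 ha).2, ((hmem a).1 ha).1⟩
  calc 3060000 * (√s) ^ 15 * ∑ a ∈ F, 1 / (√‖emb a‖) ^ 3 ≤
        3060000 * (√s) ^ 15 * (C * √(ε * s)) := by gcongr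
    _ = 3060000 * C * √ε * (√s ^ 2) ^ 8 := by
      rw [Real.sqrt_mul hε.le]
      ring
    _ = _ := by rw [Real.sq_sqrt hs0.le]

end JC
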