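import Pool.Agent.JC.Cell

/-!
# [JC] lattice points in the dilations of a compact set
-/

set_option autoImplicit false

namespace JC

open CM27 CU MeasureTheory
open scoped Pointwise

theorem haar2 : (volume : Measure (ℂ × ℂ)).IsAddHaarMeasure :=
  inferInstanceAs ((volume : Measure ℂ).prod (volume : Measure ℂ)).IsAddHaarMeasure

theorem haar3 : (volume : Measure (ℂ × ℂ × ℂ)).IsAddHaarMeasure := by
  have := haar2
  exact inferInstanceAs ((volume : Measure ℂ).prod (volume : Measure (ℂ × ℂ))).IsAddHaarMeasure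

theorem haar4 : (volume : Measure V4).IsAddHaarMeasure := by
  have := haar3
  rw [Measure.volume_eq_prod]
  refine @Measure.prod.instIsAddHaarMeasure ℂ _ _ _ (ℂ × ℂ × ℂ) _ _ _ _ _ _ _ _ _ _ _

/-- the cell of a form -/
def cell4 (g : O4) : Set V4 :=
  rect 36 (emb g.1) ×ˢ (rect 36 (emb g.2.1) ×ˢ (rect 36 (emb g.2.2.1) ×ˢ rect 36 (emb g.2.2.2)))

theorem cell4_meas (g : O4) : MeasurableSet (cell4 g) :=
  (rect_meas _ _).prod ((rect_meas _ _).prod ((rect_meas _ _).prod (rect_meas _ _)))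

theorem cell4_vol (g : O4) : volume (cell4 g) = ENNReal.ofReal (36 ^ 8 * (9 / 16)) := by
  have h33 : √3 ^ 2 = 3 := Real.sq_sqrt (by norm_num)
  unfold cell4
  rw [Measure.volume_eq_prod, Measure.prod_prod, Measure.volume_eq_prod, Measure.prod_prod,
    Measure.volume_eq_prod, Measure.prod_prod, rect_vol 36 (by norm_num), rect_vol 36 (by norm_num),
    rect_vol 36 (by norm_num), rect_vol 36 (by norm_num), ← ENNReal.ofReal_mul (by positivity),
    ← ENNReal.ofReal_mul (by positivity), ← ENNReal.ofReal_mul (by positivity)]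
  congr 1
  have : (36 : ℝ) ^ 2 * (√3 / 2) * (36 ^ 2 * (√3 / 2) * (36 ^ 2 * (√3 / 2) * (36 ^ 2 * (√3 / 2)))) =
      36 ^ 8 * ((√3 ^ 2) ^ 2 / 16) := by ring
  rw [this, h33]
  norm_num

theorem res_diff {x y : Eis} (h9 : res 9 x = res 9 y) (h4 : res 4 x = res 4 y) :
    ∃ k : Eis, x = y + 36 * k := by
  simp only [res, Prod.mk.injEq] at h9 h4
  have a1 : (9 : ℤ) ∣ y.re - x.re := (ZMod.intCast_eq_intCast_iff_dvd_sub _ _ 9).1 h9.1
  have a2 : (9 : ℤ) ∣ y.im - x.im := (ZMod.intCast_eq_intCast_iff_dvd_sub _ _ 9).1 h9.2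
  have b1 : (4 : ℤ) ∣ y.re - x.re := (ZMod.intCast_eq_intCast_iff_dvd_sub _ _ 4).1 h4.1
  have b2 : (4 : ℤ) ∣ y.im - x.im := (ZMod.intCast_eq_intCast_iff_dvd_sub _ _ 4).1 h4.2
  refine ⟨⟨(x.re - y.re) / 36, (x.im - y.im) / 36⟩, ?_⟩
  apply QuadraticAlgebra.ext
  · rw [QuadraticAlgebra.re_add, QuadraticAlgebra.re_mul]
    have e1 : (36 : Eis).re = 36 := rfl
    have e2 : (36 : Eis).im = 0 := rfl
    rw [e1, e2]
    dsimp only
    omega
  · rw [QuadraticAlgebra.im_add, QuadraticAlgebra.im_mul]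
    have e1 : (36 : Eis).re = 36 := rfl
    have e2 : (36 : Eis).im = 0 := rfl
    rw [e1, e2]
    dsimp only
    omega

theorem rect_disj' {x y : Eis} (h : ∃ k : Eis, x = y + 36 * k) {z : ℂ}
    (hx : z ∈ rect 36 (emb x)) (hy : z ∈ rect 36 (emb y)) : x = y := by
  obtain ⟨k, rfl⟩ := h
  have hx' : z ∈ rect 36 (emb y + (36 : ℝ) * emb k) := by
    have : emb (y + 36 * k) = emb y + (36 : ℝ) * emb k := by
      rw [map_add, map_mul, map_ofNat]
      norm_num
    rwa [this] at hx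
  have hy' : z ∈ rect 36 (emb y + (36 : ℝ) * emb 0) := by
    rwa [map_zero, mul_zero, add_zero]
  rw [rect_disj (by norm_num) (emb y) hx' hy', mul_zero, add_zero]

theorem lat (C : Set V4) (hC : IsCompact C) (x : Z4 9) (y : Z4 4) (η : ℝ) (hη : 0 < η) :
    ∃ s₀ : ℝ, ∀ s : ℝ, s₀ ≤ s →
      {g : O4 | res4 9 g = x ∧ res4 4 g = y ∧ emb4 g ∈ s • C}.Finite ∧
      ({g : O4 | res4 9 g = x ∧ res4 4 g = y ∧ emb4 g ∈ s • C}.ncard : ℝ) ≤
        (volume.real C / (36 ^ 8 * (9 / 16)) + η) * s ^ 8 := by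
  classical
  have hhaar := haar4
  have hfr : Module.finrank ℝ V4 = 8 := by
    simp [V4, Complex.finrank_real_complex]
  -- choice of the thickening
  have hCtop : volume C ≠ ⊤ := hC.measure_lt_top.ne
  have ht := tendsto_measure_cthickening_of_isCompact (μ := (volume : Measure V4)) hC
  set η' : ℝ := η * (36 ^ 8 * (9 / 16)) with hη'
  have hη'0 : 0 < η' := by positivity
  have hlt : volume C < volume C + ENNReal.ofReal η' :=
    ENNReal.lt_add_right hCtop (by simpa using hη'0)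
  obtain ⟨δ, hδ, hδ2⟩ : ∃ δ : ℝ, 0 < δ ∧
      volume (Metric.cthickening δ C) < volume C + ENNReal.ofReal η' := by
    have h1 := ht.eventually (gt_mem_nhds hlt)
    obtain ⟨δ, hδ, h2⟩ := Metric.eventually_nhds_iff.1 h1
    exact ⟨δ / 2, by positivity, h2 (by
      rw [Real.dist_eq, sub_zero, abs_of_pos (by positivity)]
      linarith)⟩
  refine ⟨48 / δ + 1, fun s hs => ?_⟩
  have hs0 : 0 < s := by
    have : 0 < 48 / δ := by positivity
    linarith
  have hsδ : 48 ≤ δ * s := by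
    have h1 : 48 / δ ≤ s := by linarith
    rw [div_le_iff₀ hδ] at h1
    linarith
  -- finiteness
  have hfin : {g : O4 | res4 9 g = x ∧ res4 4 g = y ∧ emb4 g ∈ s • C}.Finite := by
    obtain ⟨R, hR⟩ := hC.isBounded.exists_norm_le
    refine ((disc_fin 0 (s * R)).prod ((disc_fin 0 (s * R)).prod ((disc_fin 0 (s * R)).prod
      (disc_fin 0 (s * R))))).subset ?_
    rintro ⟨a, b, c, d⟩ ⟨-, -, v, hv, hve⟩
    have h1 : ‖emb4 (a, b, c, d)‖ ≤ s * R := by
      rw [← hve]
      show ‖s • v‖ ≤ _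
      rw [norm_smul, Real.norm_of_nonneg hs0.le]
      exact mul_le_mul_of_nonneg_left (hR v hv) hs0.le
    have e : emb4 (a, b, c, d) = (emb a, emb b, emb c, emb d) := rfl
    rw [e, Prod.norm_def, Prod.norm_def, Prod.norm_def] at h1
    simp only [max_le_iff] at h1
    have hz : ∀ t : Eis, ‖emb t‖ ≤ s * R → t ∈ {x : Eis | ‖emb x - 0‖ ≤ s * R} := fun t ht => by
      show ‖emb t - 0‖ ≤ _
      rwa [sub_zero]
    exact ⟨hz _ h1.1, hz _ h1.2.1, hz _ h1.2.2.1, hz _ h1.2.2.2⟩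
  refine ⟨hfin, ?_⟩
  set F := hfin.toFinset with hF
  have hmem : ∀ g, g ∈ F ↔ res4 9 g = x ∧ res4 4 g = y ∧ emb4 g ∈ s • C := fun g => by
    rw [hF, Set.Finite.mem_toFinset]
    exact Iff.rfl
  rw [Set.ncard_eq_toFinset_card _ hfin, ← hF]
  have hvol : volume (⋃ g ∈ F, cell4 g) = F.card * ENNReal.ofReal (36 ^ 8 * (9 / 16)) := by
    rw [measure_biUnion_finset (fun g hg g' hg' hne => ?_) (fun g _ => cell4_meas g)]
    · rw [Finset.sum_congr rfl fun g _ => cell4_vol g, Finset.sum_const, nsmul_eq_mul]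
    · refine Set.disjoint_left.2 fun z hz1 hz2 => hne ?_
      obtain ⟨p9, p4, -⟩ := (hmem g).1 hg
      obtain ⟨q9, q4, -⟩ := (hmem g').1 hg'
      have e9 : res4 9 g = res4 9 g' := p9.trans q9.symm
      have e4 : res4 4 g = res4 4 g' := p4.trans q4.symm
      simp only [res4, Prod.mk.injEq] at e9 e4
      obtain ⟨z1, z2, z3, z4⟩ := hz1
      obtain ⟨y1, y2, y3, y4⟩ := hz2
      refine Prod.ext (rect_disj' (res_diff e9.1 e4.1) z1 y1) (Prod.ext
        (rect_disj' (res_diff e9.2.1 e4.2.1) z2 y2) (Prod.ext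
        (rect_disj' (res_diff e9.2.2.1 e4.2.2.1) z3 y3)
        (rect_disj' (res_diff e9.2.2.2 e4.2.2.2) z4 y4)))
  have hsub : (⋃ g ∈ F, cell4 g) ⊆ s • Metric.cthickening δ C := by
    intro z hz
    simp only [Set.mem_iUnion, exists_prop] at hz
    obtain ⟨g, hg, hz⟩ := hz
    obtain ⟨-, -, v, hv, hve⟩ := (hmem g).1 hg
    refine ⟨s⁻¹ • z, Metric.mem_cthickening_of_dist_le _ v _ _ hv ?_, ?_⟩
    · have hve' : s • v = emb4 g := hve
      have h1 : dist (s⁻¹ • z) v = s⁻¹ * ‖z - emb4 g‖ := by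
        rw [dist_eq_norm, ← hve', ← Real.norm_of_nonneg (inv_nonneg.2 hs0.le), ← norm_smul,
          Real.norm_of_nonneg (inv_nonneg.2 hs0.le), smul_sub, smul_smul, inv_mul_cancel₀ hs0.ne',
          one_smul]
      have h7 : √7 ≤ 8 / 3 := by
        rw [Real.sqrt_le_left (by norm_num)]
        norm_num
      have h2 : ‖z - emb4 g‖ ≤ 48 := by
        obtain ⟨z1, z2, z3, z4⟩ := hz
        have k1 := rect_norm (by norm_num) z1
        have k2 := rect_norm (by norm_num) z2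
        have k3 := rect_norm (by norm_num) z3
        have k4 := rect_norm (by norm_num) z4
        have e : z - emb4 g = (z.1 - emb g.1, z.2.1 - emb g.2.1, z.2.2.1 - emb g.2.2.1,
          z.2.2.2 - emb g.2.2.2) := rfl
        rw [e, Prod.norm_def, Prod.norm_def, Prod.norm_def]
        simp only [max_le_iff]
        refine ⟨?_, ?_, ?_, ?_⟩ <;> linarith
      rw [h1, inv_mul_le_iff₀ hs0]
      linarith
    · show s • s⁻¹ • z = z
      rw [smul_smul, mul_inv_cancel₀ hs0.ne', one_smul]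
  have h1 : (F.card : ENNReal) * ENNReal.ofReal (36 ^ 8 * (9 / 16)) ≤
      ENNReal.ofReal (s ^ 8) * (volume C + ENNReal.ofReal η') := by
    calc (F.card : ENNReal) * ENNReal.ofReal (36 ^ 8 * (9 / 16)) = volume (⋃ g ∈ F, cell4 g) := hvol.symm
      _ ≤ volume (s • Metric.cthickening δ C) := measure_mono hsub
      _ = ENNReal.ofReal (s ^ 8) * volume (Metric.cthickening δ C) := by
        rw [Measure.addHaar_smul, hfr, abs_of_nonneg (by positivity)]
      _ ≤ _ := by gcongr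
  have h2 : (F.card : ℝ) * (36 ^ 8 * (9 / 16)) ≤ s ^ 8 * (volume.real C + η') := by
    have h3 := ENNReal.toReal_mono (ENNReal.mul_ne_top ENNReal.ofReal_ne_top
      (ENNReal.add_ne_top.2 ⟨hCtop, ENNReal.ofReal_ne_top⟩)) h1
    rwa [ENNReal.toReal_mul, ENNReal.toReal_mul, ENNReal.toReal_natCast,
      ENNReal.toReal_ofReal (by positivity), ENNReal.toReal_ofReal (by positivity),
      ENNReal.toReal_add hCtop ENNReal.ofReal_ne_top, ENNReal.toReal_ofReal hη'0.le] at h3
  have h4 : (volume.real C / (36 ^ 8 * (9 / 16)) + η) * s ^ 8 =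
      s ^ 8 * (volume.real C + η') / (36 ^ 8 * (9 / 16)) := by
    rw [hη']
    field_simp
  rw [h4, le_div_iff₀ (by positivity)]
  exact h2

end JC
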