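import Pool.Agent.JC.T0

/-!
# [JC] the local condition at `2`
-/

set_option autoImplicit false

namespace JC

open CM27 CU JZ

/-- the residues in the position `y² | g mod 2`: `2 | d`, `4 ∤ d`, `2 | c`, `2 ∤ b` -/
def S4 : Finset (QA 4 × QA 4 × QA 4 × QA 4) :=
  (Finset.univ : Finset (QA 4)) ×ˢ ((Finset.univ.filter fun x : QA 4 => 2 * x ≠ 0) ×ˢ
    ((Finset.univ.filter fun x : QA 4 => 2 * x = 0) ×ˢ
      (Finset.univ.filter fun x : QA 4 => 2 * x = 0 ∧ x ≠ 0)))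

theorem S4_card : S4.card = 2304 := by
  unfold S4
  rw [Finset.card_product, Finset.card_product, Finset.card_product]
  have h1 : (Finset.univ : Finset (QA 4)).card = 16 := by decide
  have h2 : (Finset.univ.filter fun x : QA 4 => 2 * x ≠ 0).card = 12 := by decide
  have h3 : (Finset.univ.filter fun x : QA 4 => 2 * x = 0).card = 4 := by decide
  have h4 : (Finset.univ.filter fun x : QA 4 => 2 * x = 0 ∧ x ≠ 0).card = 3 := by decide
  rw [h1, h2, h3, h4]

/-- the four finite positions -/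
def P4 : Finset Eis := {0, 1, om, om ^ 2}

/-- the residues of the forms -/
def C4 : Finset (Z4 4) :=
  ((S4.image rv) ∪ P4.biUnion fun t => S4.image (sh (-rd 4 t))).image (toZ 4)

theorem C4_card : C4.card ≤ 11520 := by
  unfold C4
  refine Finset.card_image_le.trans ((Finset.card_union_le _ _).trans ?_)
  have h1 : (S4.image rv).card ≤ 2304 := Finset.card_image_le.trans S4_card.le
  have h2 : (P4.biUnion fun t => S4.image (sh (-rd 4 t))).card ≤ 4 * 2304 := by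
    refine Finset.card_biUnion_le.trans ?_
    calc ∑ t ∈ P4, (S4.image (sh (-rd 4 t))).card ≤ ∑ _t ∈ P4, 2304 :=
          Finset.sum_le_sum fun t _ => Finset.card_image_le.trans S4_card.le
      _ = 4 * 2304 := by
        rw [Finset.sum_const, smul_eq_mul]
        rfl
  omega

/-- The core: a form with `2 | c`, `2 | d`. -/
theorem core4 {a b c d D : Eis} (hD : CondTwo D) (h : disc a b c d = 4 * la ^ 4 * D)
    (hc : (2 : Eis) ∣ c) (hd : (2 : Eis) ∣ d) : ¬ (2 : Eis) ∣ b ∧ ¬ (4 : Eis) ∣ d := by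
  have hdom := eis_isDomain
  obtain ⟨γ, rfl⟩ := hc
  obtain ⟨δ, rfl⟩ := hd
  have key : ∀ x : Eis, b ^ 3 * δ = 2 * x → False := fun x hx => by
    have h1 : la ^ 4 * D = b ^ 2 * γ ^ 2 - 8 * a * γ ^ 3 - 2 * (b ^ 3 * δ) - 27 * a ^ 2 * δ ^ 2 +
        18 * a * b * γ * δ := by
      apply mul_left_cancel₀ (show (4 : Eis) ≠ 0 by decide)
      unfold disc at h
      linear_combination -h
    rw [hx, show (la : Eis) ^ 4 = 9 * om ^ 2 by decide] at h1
    have h3 : (om : Eis) ^ 3 = 1 := by decide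
    refine hD (om ^ 2 * (b * γ + a * δ)) ⟨om * (-2 * a * γ ^ 3 - x - 7 * a ^ 2 * δ ^ 2 +
      4 * a * b * γ * δ) - 2 * D, ?_⟩
    linear_combination om * h1 - (9 * D + om * (b * γ + a * δ) ^ 2) * h3
  constructor
  · rintro ⟨b', rfl⟩
    exact key (4 * b' ^ 3 * δ) (by ring)
  · rintro ⟨d', hd'⟩
    have : δ = 2 * d' := by
      apply mul_left_cancel₀ (show (2 : Eis) ≠ 0 by decide)
      rw [hd']
      ring
    exact key (b ^ 3 * d') (by rw [this]; ring)

theorem two_dvd_iff (x : Eis) : (2 : Eis) ∣ x ↔ 2 * rd 4 x = 0 := by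
  have hdom := eis_isDomain
  have : 2 * rd 4 x = rd 4 (2 * x) := by rw [map_mul, map_ofNat]
  rw [this, rd_dvd]
  constructor
  · rintro ⟨k, rfl⟩
    exact ⟨k, by push_cast; ring⟩
  · rintro ⟨k, hk⟩
    refine ⟨k, mul_left_cancel₀ (show (2 : Eis) ≠ 0 by decide) ?_⟩
    rw [hk]
    push_cast
    ring

theorem mem_S4 {a b c d D : Eis} (hD : CondTwo D) (h : disc a b c d = 4 * la ^ 4 * D)
    (hc : (2 : Eis) ∣ c) (hd : (2 : Eis) ∣ d) : rd4 4 (a, b, c, d) ∈ S4 := by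
  obtain ⟨h1, h2⟩ := core4 hD h hc hd
  rw [two_dvd_iff] at hc hd h1
  have h3 : rd 4 d ≠ 0 := fun h0 => h2 (by
    have := (rd_dvd 4 d).1 h0
    exact_mod_cast this)
  simp only [S4, rd4, Finset.mem_product, Finset.mem_filter, Finset.mem_univ, true_and]
  exact ⟨h1, hc, hd, h3⟩

/-- the double root modulo `2` -/
theorem dbl : ∀ a b c d : QA 2, b * c + a * d = 0 → (a = 0 ∧ b = 0) ∨
    ∃ t ∈ ({0, 1, ⟨0, 1⟩, ⟨1, 1⟩} : Finset (QA 2)),
      c + 2 * b * t + 3 * a * t ^ 2 = 0 ∧ d + c * t + b * t ^ 2 + a * t ^ 3 = 0 := by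
  decide

theorem lift2 : ∀ t ∈ ({0, 1, ⟨0, 1⟩, ⟨1, 1⟩} : Finset (QA 2)), ∃ τ ∈ P4, rd 2 τ = t := by
  decide

/-- Row T4. -/
theorem c4 : ∃ C : Finset (Z4 4), C.card ≤ 11520 ∧ ∀ a b c d D : Eis, CondTwo D →
    disc a b c d = 4 * la ^ 4 * D → res4 4 (a, b, c, d) ∈ C := by
  refine ⟨C4, C4_card, fun a b c d D hD h => ?_⟩
  have hdom := eis_isDomain
  rw [res4_eq]
  refine Finset.mem_image_of_mem _ ?_
  have h2 : rd 2 b * rd 2 c + rd 2 a * rd 2 d = 0 := by
    have h3 : (rd 2 b * rd 2 c + rd 2 a * rd 2 d) ^ 2 = 0 := by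
      rw [← map_mul, ← map_mul, ← map_add, ← map_pow, rd_dvd]
      unfold disc at h
      exact ⟨2 * la ^ 4 * D + 2 * a * c ^ 3 + 2 * b ^ 3 * d + 14 * a ^ 2 * d ^ 2 -
        8 * a * b * c * d, by push_cast; linear_combination h⟩
    generalize rd 2 b * rd 2 c + rd 2 a * rd 2 d = u at h3
    revert u
    decide
  rcases dbl _ _ _ _ h2 with ⟨h3, h4⟩ | ⟨t, ht, h3, h4⟩
  · -- the point at infinity
    apply Finset.mem_union_left
    refine Finset.mem_image.2 ⟨rd4 4 (d, c, b, a), ?_, rfl⟩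
    refine mem_S4 hD (by rw [disc_rv]; exact h) ?_ ?_
    · exact_mod_cast (rd_dvd 2 b).1 h4
    · exact_mod_cast (rd_dvd 2 a).1 h3
  · obtain ⟨τ, hτ, rfl⟩ := lift2 t ht
    apply Finset.mem_union_right
    refine Finset.mem_biUnion.2 ⟨τ, hτ, Finset.mem_image.2 ⟨sh (rd 4 τ) (rd4 4 (a, b, c, d)), ?_,
      sh_sh _ _⟩⟩
    rw [sh_rd4]
    refine mem_S4 hD (by rw [← h]; exact disc_sh τ a b c d) ?_ ?_
    · have : rd 2 (c + 2 * b * τ + 3 * a * τ ^ 2) = 0 := by
        simp only [map_add, map_mul, map_pow, map_ofNat]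
        exact h3
      exact_mod_cast (rd_dvd 2 _).1 this
    · have : rd 2 (d + c * τ + b * τ ^ 2 + a * τ ^ 3) = 0 := by
        simp only [map_add, map_mul, map_pow]
        exact h4
      exact_mod_cast (rd_dvd 2 _).1 this

end JC
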