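import Pool.Agent.JC.T9

/-!
# [JC] the local condition at `λ`: membership
-/

set_option autoImplicit false

namespace JC

open CM27 CU JZ

theorem la_prime : Prime (la : Eis) :=
  a3_prime_of_norm 3 (by norm_num) la (by decide)

theorem la_three : (3 : Eis) = -om ^ 2 * la ^ 2 := by decide

/-- `λ D` modulo `9` -/
theorem ld_mem {D : Eis} (hD : CondLa D) : el * rd 9 D ∈ W9 ∧ el ^ 3 * rd 9 D ≠ 0 := by
  have hdom := eis_isDomain
  obtain ⟨η, hη, ⟨k, hk⟩, hn⟩ := hD
  have hk' : D = η + 3 * k := by linear_combination hk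
  have h1 : el * rd 9 D = el * rd 9 η + el ^ 3 * rd 9 (-om ^ 2 * k) := by
    rw [hk', la_three, ← rd_la]
    simp only [← map_mul, ← map_pow, ← map_add]
    congr 1
    ring
  have h2 : el ^ 3 * rd 9 (-om ^ 2 * k) ≠ el ^ 3 := by
    intro h
    apply hn
    have h3 : rd 9 (la * (D - η - la ^ 2)) = 0 := by
      rw [map_mul, map_sub, map_sub, map_pow, rd_la]
      linear_combination h1 + h
    obtain ⟨m, hm⟩ := (rd_dvd 9 _).1 h3
    refine ⟨om * m, mul_left_cancel₀ (show (la : Eis) ≠ 0 by decide) ?_⟩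
    rw [hm]
    have : ((9 : ℕ) : Eis) = la ^ 4 * om := by decide
    rw [this]
    ring
  have h3 : ∀ x : QA 9, el ^ 3 * x ≠ el ^ 3 → el ^ 3 * x = 0 ∨ el ^ 3 * x = -el ^ 3 := by
    decide +kernel
  have hη' : rd 9 η = 1 ∨ rd 9 η = -1 := by
    rcases hη with rfl | rfl
    · exact Or.inl (map_one _)
    · exact Or.inr (by rw [map_neg, map_one])
  constructor
  · rw [mem_W9, h1]
    rcases h3 _ h2 with h4 | h4 <;> rcases hη' with h5 | h5 <;> rw [h4, h5]
    · exact Or.inl (by ring)
    · exact Or.inr (Or.inl (by ring))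
    · exact Or.inr (Or.inr (Or.inl (by ring)))
    · exact Or.inr (Or.inr (Or.inr (by ring)))
  · have h4 : el ^ 3 * rd 9 D = el ^ 3 * rd 9 η := by
      linear_combination el ^ 2 * h1 + el * rd 9 (-om ^ 2 * k) * el_four
    rw [h4]
    rcases hη' with h5 | h5 <;> rw [h5] <;> decide

theorem nine_zero : (9 : QA 9) = 0 := by decide

/-- the first position -/
theorem mem_shape {a b c d D : Eis} (hD : CondLa D)
    (h : disc a (la * b) (la ^ 2 * c) (la * d) = 4 * la ^ 4 * D) (ha : el ^ 3 * rd 9 a ≠ 0) :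
    rd4 9 (a, la * b, la ^ 2 * c, la * d) ∈ S9 := by
  have hdom := eis_isDomain
  obtain ⟨hW, hD0⟩ := ld_mem hD
  have h6 : (la : Eis) ^ 6 = -27 := by decide
  have h4 : (la : Eis) ^ 4 = 9 * om ^ 2 := by decide
  have h3 : (om : Eis) ^ 3 = 1 := by decide
  have e1 : 4 * D = la ^ 2 * b ^ 2 * c ^ 2 - 4 * la ^ 2 * a * c ^ 3 - 4 * b ^ 3 * d +
      la ^ 4 * a ^ 2 * d ^ 2 + 18 * a * b * c * d := by
    apply mul_left_cancel₀ (pow_ne_zero 4 (show (la : Eis) ≠ 0 by decide))
    unfold disc at h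
    linear_combination -h - la ^ 2 * a ^ 2 * d ^ 2 * h6
  set A := rd 9 a with hA
  set B := rd 9 b with hB
  set C := rd 9 c with hC
  set E := rd 9 d with hE
  set X := rd 9 D with hX
  have e2 : 4 * X = el ^ 2 * B ^ 2 * C ^ 2 - 4 * el ^ 2 * A * C ^ 3 - 4 * B ^ 3 * E := by
    have := congrArg (rd 9) e1
    simp only [map_add, map_sub, map_mul, map_pow, map_ofNat, rd_la, ← hA, ← hB, ← hC, ← hE,
      ← hX] at this
    linear_combination this + A ^ 2 * E ^ 2 * el_four + 2 * A * B * C * E * nine_zero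
  have e3 : el ^ 3 * X = -(el ^ 3 * B ^ 3 * E) := by
    linear_combination 7 * el ^ 3 * e2 - (3 * el ^ 3 * X + 3 * el ^ 3 * B ^ 3 * E) * nine_zero +
      (7 * el * B ^ 2 * C ^ 2 - 28 * el * A * C ^ 3) * el_four
  have hB0 : el ^ 3 * B ≠ 0 := by
    intro h0
    apply hD0
    rw [e3]
    linear_combination -(B ^ 2 * E) * h0
  have hB2 := el_sq B hB0
  have hC3 := el_cube C
  have e4 : el * X = el * (-B ^ 3 * E) + el ^ 3 * (C ^ 2 - A * C) := by
    have h3e : 3 * el ^ 3 = 0 := by decide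
    linear_combination 7 * el * e2 - (3 * el * X + 3 * el * B ^ 3 * E) * nine_zero +
      7 * C ^ 2 * hB2 - 28 * A * hC3 + (2 * C ^ 2 - 9 * A * C) * h3e
  obtain ⟨B', hB'3, hB'⟩ := B3_ex B
  obtain ⟨E', hE'3, hE'⟩ := B3_ex E
  obtain ⟨C', hC'2, hC'⟩ := B2_ex C
  have hmem : (A, B', C', E') ∈ PS := by
    rw [mem_PS]
    refine ⟨⟨(mem_UA A).2 ha, (mem_UB B').2 ⟨hB'3, ?_⟩, hC'2, hE'3⟩, ?_⟩
    · intro h0
      apply hB0
      linear_combination el ^ 2 * hB' + h0
    · have : lF (A, B', C', E') = el * X := by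
        simp only [lF]
        linear_combination -e4 + (B ^ 2 * E + B * B' * E + B' ^ 2 * E) * hB' + B' ^ 3 * hE' -
          el * (C + C') * hC' + el * A * hC'
      rw [this]
      exact hW
  have := mem_S9 hmem
  have e5 : rd4 9 (a, la * b, la ^ 2 * c, la * d) = (A, el * B', el ^ 2 * C', el * E') := by
    simp only [rd4, map_mul, map_pow, rd_la, ← hA, ← hB, ← hC, ← hE, hB', hC', hE']
  rw [e5]
  exact this

/-- the second type -/
theorem mem_two {a b c d D : Eis} (hD : CondLa D) (h : disc a b c d = 4 * D) :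
    rd4 9 (la * a, la * b, la * c, la * d) ∈ T9 := by
  obtain ⟨hW, hD0⟩ := ld_mem hD
  set A := rd 9 a with hA
  set B := rd 9 b with hB
  set C := rd 9 c with hC
  set E := rd 9 d with hE
  set X := rd 9 D with hX
  have e2 : 4 * X = B ^ 2 * C ^ 2 - 4 * A * C ^ 3 - 4 * B ^ 3 * E := by
    have := congrArg (rd 9) h
    simp only [disc, map_add, map_sub, map_mul, map_pow, map_ofNat, ← hA, ← hB, ← hC, ← hE,
      ← hX] at this
    linear_combination -this + (2 * A * B * C * E - 3 * A ^ 2 * E ^ 2) * nine_zero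
  obtain ⟨A', hA'3, hA'⟩ := B3_ex A
  obtain ⟨B', hB'3, hB'⟩ := B3_ex B
  obtain ⟨C', hC'3, hC'⟩ := B3_ex C
  obtain ⟨E', hE'3, hE'⟩ := B3_ex E
  have hmem : (A', B', C', E') ∈ PT := by
    rw [mem_PT]
    refine ⟨⟨hA'3, hB'3, hC'3, hE'3⟩, ?_⟩
    have : lD (A', B', C', E') = 4 * (el * X) := by
      simp only [lD]
      linear_combination -el * e2 - C ^ 2 * (B + B') * hB' - B' ^ 2 * (C + C') * hC' +
        4 * C ^ 3 * hA' + 4 * A' * (C ^ 2 + C * C' + C' ^ 2) * hC' +
        4 * E * (B ^ 2 + B * B' + B' ^ 2) * hB' + 4 * B' ^ 3 * hE'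
    rw [this]
    exact mem_V9 hW
  have := mem_T9 hmem
  have e5 : rd4 9 (la * a, la * b, la * c, la * d) = (el * A', el * B', el * C', el * E') := by
    simp only [rd4, map_mul, rd_la, ← hA, ← hB, ← hC, ← hE, hA', hB', hC', hE']
  rw [e5]
  exact this

theorem el3_iff (x : Eis) : el ^ 3 * rd 9 x = 0 ↔ la ∣ x := by
  have hdom := eis_isDomain
  have h4 : ((9 : ℕ) : Eis) = la ^ 4 * om := by decide
  have h5 : (la : Eis) ^ 4 = 9 * om ^ 2 := by decide
  rw [← rd_la, ← map_pow, ← map_mul, rd_dvd, h4]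
  constructor
  · rintro ⟨k, hk⟩
    refine ⟨om * k, mul_left_cancel₀ (pow_ne_zero 3 (show (la : Eis) ≠ 0 by decide)) ?_⟩
    rw [hk]
    ring
  · rintro ⟨k, rfl⟩
    refine ⟨om ^ 2 * k, ?_⟩
    have h3 : (om : Eis) ^ 3 = 1 := by decide
    linear_combination -(la ^ 4 * k) * h3

/-- a residue modulo `λ` -/
theorem res3 (x : Eis) : ∃ t ∈ P9, la ∣ x - t := by
  have h : ∀ y : QA 9, ∃ t ∈ P9, el ^ 3 * (y - rd 9 t) = 0 := by decide +kernel
  obtain ⟨t, ht, h1⟩ := h (rd 9 x)
  refine ⟨t, ht, (el3_iff _).1 ?_⟩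
  rw [map_sub]
  exact h1

/-- the shape is preserved by the matrices `(α, λ β; r, s)` -/
theorem act_shape (a b c d α β r s : Eis) : ∃ b' c' d' : Eis,
    cB a (la * b) (la ^ 2 * c) (la * d) α (la * β) r s = la * b' ∧
    cC a (la * b) (la ^ 2 * c) (la * d) α (la * β) r s = la ^ 2 * c' ∧
    cD a (la * b) (la ^ 2 * c) (la * d) α (la * β) r s = la * d' := by
  refine ⟨3 * a * α ^ 2 * β + b * (α ^ 2 * s + 2 * α * (la * β) * r) +
      la * c * (2 * α * r * s + la * β * r ^ 2) + 3 * d * r ^ 2 * s,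
    3 * a * α * β ^ 2 + b * (2 * α * β * s + la * β ^ 2 * r) +
      c * (α * s ^ 2 + 2 * (la * β) * r * s) - om ^ 2 * la * d * r * s ^ 2,
    a * la ^ 2 * β ^ 3 + b * la ^ 2 * β ^ 2 * s + la ^ 2 * c * β * s ^ 2 + d * s ^ 3, ?_, ?_, ?_⟩
  · simp only [cB]
    ring
  · simp only [cC]
    linear_combination (la * d * r * s ^ 2) * la_three
  · simp only [cD, val]
    ring

theorem unit_six' {u : Eis} (hu : IsUnit u) : u ^ 6 = 1 := unit_six hu

/-- Row T9. -/
theorem c9 : ∃ C : Finset (Z4 9), C.card ≤ 209952 ∧ ∀ a b c d D p q r s : Eis, CondLa D →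
    disc a (la * b) (la ^ 2 * c) (la * d) = 4 * la ^ 4 * D → IsUnit (p * s - q * r) →
    res4 9 (cA a (la * b) (la ^ 2 * c) (la * d) p q r s, cB a (la * b) (la ^ 2 * c) (la * d) p q r s,
      cC a (la * b) (la ^ 2 * c) (la * d) p q r s, cD a (la * b) (la ^ 2 * c) (la * d) p q r s) ∈
      C := by
  refine ⟨C9, C9_card, fun a b c d D p q r s hD h hu => ?_⟩
  have hdom := eis_isDomain
  have hla : (la : Eis) ≠ 0 := by decide
  rw [res4_eq]
  refine Finset.mem_image_of_mem _ ?_
  by_cases ha : la ∣ a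
  · -- second type
    obtain ⟨a', rfl⟩ := ha
    apply Finset.mem_union_right
    apply Finset.mem_union_right
    have h1 : disc a' b (la * c) d = 4 * D := by
      apply mul_left_cancel₀ (pow_ne_zero 4 hla)
      unfold disc at h ⊢
      linear_combination h
    have h2 : disc (cA a' b (la * c) d p q r s) (cB a' b (la * c) d p q r s)
        (cC a' b (la * c) d p q r s) (cD a' b (la * c) d p q r s) = 4 * D := by
      rw [disc_act, unit_six hu, one_mul, h1]
    have h3 := mem_two hD h2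
    have e : (cA (la * a') (la * b) (la ^ 2 * c) (la * d) p q r s,
        cB (la * a') (la * b) (la ^ 2 * c) (la * d) p q r s,
        cC (la * a') (la * b) (la ^ 2 * c) (la * d) p q r s,
        cD (la * a') (la * b) (la ^ 2 * c) (la * d) p q r s) =
        (la * cA a' b (la * c) d p q r s, la * cB a' b (la * c) d p q r s,
          la * cC a' b (la * c) d p q r s, la * cD a' b (la * c) d p q r s) := by
      simp only [cA, cB, cC, cD, val, Prod.mk.injEq]
      refine ⟨?_, ?_, ?_, ?_⟩ <;> ring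
    rw [e]
    exact h3
  · -- first type: `M' = (α, λ β; r, s)`
    have key : ∀ α β r' s' : Eis, IsUnit (α * s' - la * β * r') →
        rd4 9 (cA a (la * b) (la ^ 2 * c) (la * d) α (la * β) r' s',
          cB a (la * b) (la ^ 2 * c) (la * d) α (la * β) r' s',
          cC a (la * b) (la ^ 2 * c) (la * d) α (la * β) r' s',
          cD a (la * b) (la ^ 2 * c) (la * d) α (la * β) r' s') ∈ S9 := by
      intro α β r' s' hu'
      obtain ⟨b', c', d', e1, e2, e3⟩ := act_shape a b c d α β r' s'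
      have h1 : disc (cA a (la * b) (la ^ 2 * c) (la * d) α (la * β) r' s')
          (cB a (la * b) (la ^ 2 * c) (la * d) α (la * β) r' s')
          (cC a (la * b) (la ^ 2 * c) (la * d) α (la * β) r' s')
          (cD a (la * b) (la ^ 2 * c) (la * d) α (la * β) r' s') = 4 * la ^ 4 * D := by
        rw [disc_act, unit_six hu', one_mul, h]
      rw [e1, e2, e3] at h1 ⊢
      refine mem_shape hD h1 ?_
      intro h0
      rw [el3_iff] at h0
      have hp : Prime (la : Eis) := la_prime
      have hα : ¬ la ∣ α := fun ⟨k, hk⟩ => by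
        have : la ∣ α * s' - la * β * r' := ⟨k * s' - β * r', by rw [hk]; ring⟩
        exact hp.not_isUnit (isUnit_of_dvd_unit this hu')
      have : la ∣ a * α ^ 3 := by
        have e4 : a * α ^ 3 = cA a (la * b) (la ^ 2 * c) (la * d) α (la * β) r' s' -
            la * (b * α ^ 2 * r' + la * c * α * r' ^ 2 + d * r' ^ 3) := by
          simp only [cA, val]
          ring
        rw [e4]
        exact dvd_sub h0 ⟨_, rfl⟩
      rcases hp.dvd_or_dvd this with h5 | h5
      · exact ha h5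
      · exact hα (hp.dvd_of_dvd_pow h5)
    by_cases hp : la ∣ p
    · -- the point at infinity
      obtain ⟨p', rfl⟩ := hp
      apply Finset.mem_union_left
      have h1 := key q p' s r (by
        have : q * r - la * p' * s = -(la * p' * s - q * r) := by ring
        rw [this]
        exact hu.neg)
      refine Finset.mem_image.2 ⟨_, h1, ?_⟩
      simp only [rv, rd4, cA, cB, cC, cD, val, Prod.mk.injEq]
      refine ⟨trivial, ?_, ?_, trivial⟩ <;>
      · congr 1
        ring
    · -- a finite point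
      have hpr : Prime (la : Eis) := la_prime
      obtain ⟨t, ht, β, hβ⟩ : ∃ t ∈ P9, la ∣ p * t + q := by
        obtain ⟨u, hu1, hu2⟩ := res3 (-(p * q))
        refine ⟨u, hu1, ?_⟩
        -- `p² ≡ 1`
        have hp2 : la ∣ p ^ 2 - 1 := by
          rw [← el3_iff, map_sub, map_pow, map_one, mul_sub, mul_one,
            el_sq _ (fun h0 => hp ((el3_iff p).1 h0)), sub_self]
        obtain ⟨v, hv⟩ := hu2
        obtain ⟨w', hw'⟩ := hp2
        exact ⟨-p * v - q * w', by linear_combination -p * hv - q * hw'⟩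
      apply Finset.mem_union_right
      apply Finset.mem_union_left
      refine Finset.mem_biUnion.2 ⟨t, ht, Finset.mem_image.2
        ⟨sh (rd 9 t) (rd4 9 (cA a (la * b) (la ^ 2 * c) (la * d) p q r s,
          cB a (la * b) (la ^ 2 * c) (la * d) p q r s,
          cC a (la * b) (la ^ 2 * c) (la * d) p q r s,
          cD a (la * b) (la ^ 2 * c) (la * d) p q r s)), ?_, sh_sh _ _⟩⟩
      rw [sh_rd4]
      have h1 := key p β r (r * t + s) (by
        have : p * (r * t + s) - la * β * r = p * s - q * r := by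
          linear_combination r * hβ
        rw [this]
        exact hu)
      rw [← hβ] at h1
      have e : sh t (cA a (la * b) (la ^ 2 * c) (la * d) p q r s,
          cB a (la * b) (la ^ 2 * c) (la * d) p q r s,
          cC a (la * b) (la ^ 2 * c) (la * d) p q r s,
          cD a (la * b) (la ^ 2 * c) (la * d) p q r s) =
          (cA a (la * b) (la ^ 2 * c) (la * d) p (p * t + q) r (r * t + s),
          cB a (la * b) (la ^ 2 * c) (la * d) p (p * t + q) r (r * t + s),
          cC a (la * b) (la ^ 2 * c) (la * d) p (p * t + q) r (r * t + s),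
          cD a (la * b) (la ^ 2 * c) (la * d) p (p * t + q) r (r * t + s)) := by
        simp only [sh, cA, cB, cC, cD, val, Prod.mk.injEq]
        refine ⟨trivial, ?_, ?_, ?_⟩ <;> ring
      rw [e]
      exact h1

end JC
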