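import Pool.Agent.JC.P

/-!
# [JC] the volume of the region: fibration
-/

set_option autoImplicit false

namespace JC

open CM27 CU JZ MeasureTheory

theorem Rec_vol : volume Rec = ENNReal.ofReal (√3 / 2) := by
  have e : Rec = Complex.measurableEquivRealProd ⁻¹' (Set.Icc 0 1 ×ˢ Set.Icc 0 (√3 / 2)) := by
    ext z
    simp only [Rec, Set.mem_preimage, Set.mem_prod, Complex.measurableEquivRealProd_apply,
      Set.mem_Icc, and_assoc]
    rfl
  rw [e, Complex.volume_preserving_equiv_real_prod.measure_preimage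
    (measurableSet_Icc.prod measurableSet_Icc).nullMeasurableSet, Measure.volume_eq_prod,
    Measure.prod_prod, Real.volume_Icc, Real.volume_Icc, sub_zero, sub_zero, ENNReal.ofReal_one,
    one_mul]

theorem vol_mul (k : ℂ) (S : Set ℂ) :
    volume ((fun z => k * z) '' S) = ENNReal.ofReal (‖k‖ ^ 2) * volume S := by
  have h := Measure.addHaar_image_linearMap (volume : Measure ℂ) (Algebra.lmul ℝ ℂ k) S
  have h1 : LinearMap.det (Algebra.lmul ℝ ℂ k) = ‖k‖ ^ 2 := by
    rw [← Complex.normSq_eq_norm_sq, ← Algebra.norm_complex_apply, Algebra.norm_apply]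
  rw [h1, abs_of_nonneg (by positivity)] at h
  exact h

/-- A shear does not change the volume. -/
theorem vol_shear (S : Set (ℂ × ℂ)) (κ l μ : ℂ) :
    volume {v : ℂ × ℂ | (v.1 - κ, v.2 - (l * v.1 - μ)) ∈ S} ≤ volume S := by
  set S' := toMeasurable volume S with hS'
  have hm : MeasurableSet S' := measurableSet_toMeasurable _ _
  have hf : Measurable fun v : ℂ × ℂ => (v.1 - κ, v.2 - (l * v.1 - μ)) := by fun_prop
  have h1 : volume {v : ℂ × ℂ | (v.1 - κ, v.2 - (l * v.1 - μ)) ∈ S} ≤
      volume ((fun v : ℂ × ℂ => (v.1 - κ, v.2 - (l * v.1 - μ))) ⁻¹' S') :=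
    measure_mono fun v hv => subset_toMeasurable volume S hv
  refine h1.trans (le_of_eq ?_)
  rw [← measure_toMeasurable S, ← hS', Measure.volume_eq_prod, Measure.prod_apply (hf hm),
    Measure.prod_apply hm]
  have h2 : ∀ c : ℂ, volume (Prod.mk c ⁻¹' ((fun v : ℂ × ℂ => (v.1 - κ, v.2 - (l * v.1 - μ))) ⁻¹'
      S')) = volume (Prod.mk (c - κ) ⁻¹' S') := fun c => by
    have : Prod.mk c ⁻¹' ((fun v : ℂ × ℂ => (v.1 - κ, v.2 - (l * v.1 - μ))) ⁻¹' S') =
        (fun d => d - (l * c - μ)) ⁻¹' (Prod.mk (c - κ) ⁻¹' S') := rfl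
    rw [this]
    simp only [sub_eq_add_neg]
    exact measure_preimage_add_right _ _ _
  rw [lintegral_congr h2]
  exact lintegral_sub_right_eq_self (fun c => volume (Prod.mk c ⁻¹' S')) κ

theorem vol_fib (ε : ℝ) (hε : 0 < ε) (hc : IsCompact (RegC ε)) :
    volume (RegC ε) ≤ ∫⁻ a : ℂ, ENNReal.ofReal (9 * ‖a‖ ^ 2 * (√3 / 2)) * volume (PQ a) := by
  have hm : MeasurableSet (RegC ε) := hc.isClosed.measurableSet
  rw [Measure.volume_eq_prod, Measure.prod_apply hm]
  refine lintegral_mono fun a => ?_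
  by_cases ha : a = 0
  · have : Prod.mk a ⁻¹' RegC ε = ∅ := by
      ext v
      simp only [Set.mem_preimage, Set.mem_empty_iff_false, iff_false]
      rintro ⟨⟨h0, -⟩, -⟩
      exact h0 ha
    rw [this, measure_empty]
    exact zero_le
  · have hm2 : MeasurableSet (Prod.mk a ⁻¹' RegC ε) := measurable_prodMk_left hm
    rw [Measure.volume_eq_prod, Measure.prod_apply hm2]
    have h1 : ∀ b : ℂ, volume (Prod.mk b ⁻¹' (Prod.mk a ⁻¹' RegC ε)) ≤
        ((fun z => -3 * a * z) '' Rec).indicator (fun _ => volume (PQ a)) b := fun b => by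
      by_cases hb : b ∈ (fun z => -3 * a * z) '' Rec
      · rw [Set.indicator_of_mem hb]
        refine (measure_mono ?_).trans (vol_shear (PQ a) (b ^ 2 / (3 * a)) (b / (3 * a))
          (2 * b ^ 3 / (27 * a ^ 2)))
        rintro ⟨c, d⟩ ⟨⟨h0, z, A, B, hz, ⟨hb', hc', hd', h1, h2⟩, h3⟩, h4⟩
        dsimp only at hb' hc' hd' h3
        refine ⟨A, B, ?_, ?_, h1, h2, ?_⟩
        · show c - b ^ 2 / (3 * a) = _
          rw [hc', hb']
          field_simp
          ring
        · show d - (b / (3 * a) * c - 2 * b ^ 3 / (27 * a ^ 2)) = _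
          rw [hd', hc', hb']
          field_simp
          ring
        · rw [one_pow] at h3
          exact h3
      · rw [Set.indicator_of_notMem hb]
        have : Prod.mk b ⁻¹' (Prod.mk a ⁻¹' RegC ε) = ∅ := by
          ext v
          simp only [Set.mem_preimage, Set.mem_empty_iff_false, iff_false]
          rintro ⟨⟨h0, z, A, B, hz, ⟨hb', -⟩, h3⟩, h4⟩
          exact hb ⟨z, hz, hb'.symm⟩
        rw [this, measure_empty]
    calc ∫⁻ b : ℂ, volume (Prod.mk b ⁻¹' (Prod.mk a ⁻¹' RegC ε)) ≤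
        ∫⁻ b : ℂ, ((fun z => -3 * a * z) '' Rec).indicator (fun _ => volume (PQ a)) b :=
          lintegral_mono h1
      _ ≤ volume (PQ a) * volume ((fun z => -3 * a * z) '' Rec) :=
          lintegral_indicator_const_le _ _
      _ = ENNReal.ofReal (9 * ‖a‖ ^ 2 * (√3 / 2)) * volume (PQ a) := by
        rw [vol_mul, Rec_vol, ← ENNReal.ofReal_mul (by positivity), mul_comm]
        congr 3
        rw [norm_mul, norm_neg, mul_pow]
        norm_num

end JC
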