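import Mathlib
/-! [JC-V3a] -/
set_option autoImplicit false
namespace JC
open MeasureTheory
/-- `π ρ⁸ / 4` with `ρ⁴ = 1 / k` -/
theorem int_a (k : ℝ) (hk : 0 < k) :
    ∫⁻ a : ℂ, (if k * ‖a‖ ^ 4 ≤ 1 then ENNReal.ofReal (‖a‖ ^ 6) else 0) ≤
      ENNReal.ofReal (Real.pi / (4 * k ^ 2)) := by
  set R : ℝ := √(√(1 / k)) with hR
  have hR4 : R ^ 4 = 1 / k := by
    rw [show (4 : ℕ) = 2 * 2 by norm_num, pow_mul, hR, Real.sq_sqrt (Real.sqrt_nonneg _),
      Real.sq_sqrt (by positivity)]
  have hR0 : 0 ≤ R := Real.sqrt_nonneg _
  rw [← Complex.lintegral_comp_polarCoord_symm]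
  set g : ℝ → ENNReal := fun t => (Set.Ioc 0 R).indicator (fun t => ENNReal.ofReal (t ^ 7)) t
    with hg
  have hgm : Measurable g := by
    refine Measurable.indicator ?_ measurableSet_Ioc
    fun_prop
  calc _ ≤ ∫⁻ p in polarCoord.target, g p.1 * (fun _ : ℝ => (1 : ENNReal)) p.2 := by
        refine setLIntegral_mono' polarCoord.open_target.measurableSet ?_
        rintro ⟨ρ, θ⟩ hp
        simp only [polarCoord_target, Set.mem_prod, Set.mem_Ioi, Set.mem_Ioo] at hp
        obtain ⟨hρ, hθ1, hθ2⟩ := hp
        have hn : ‖Complex.polarCoord.symm (ρ, θ)‖ = ρ := by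
          rw [Complex.norm_polarCoord_symm, abs_of_pos hρ]
        rw [hn]
        split_ifs with hc
        · have h1 : ρ ∈ Set.Ioc 0 R := by
            refine ⟨hρ, ?_⟩
            refine le_of_pow_le_pow_left₀ (n := 4) (by norm_num) hR0 ?_
            rw [hR4, le_div_iff₀ hk]
            linarith
          simp only [hg, Set.indicator_of_mem h1, mul_one, smul_eq_mul]
          rw [← ENNReal.ofReal_mul hρ.le]
          apply le_of_eq
          congr 1
          ring
        · simp
    _ = (∫⁻ t in Set.Ioi (0 : ℝ), g t) * ∫⁻ t in Set.Ioo (-Real.pi) Real.pi, (1 : ENNReal) := by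
        rw [polarCoord_target, Measure.volume_eq_prod, ← Measure.prod_restrict]
        exact lintegral_prod_mul hgm.aemeasurable aemeasurable_const
    _ ≤ ENNReal.ofReal (1 / (8 * k ^ 2)) * ENNReal.ofReal (2 * Real.pi) := by
        refine mul_le_mul' ?_ ?_
        · calc (∫⁻ t in Set.Ioi (0 : ℝ), g t) ≤ ∫⁻ t, g t := setLIntegral_le_lintegral _ _
            _ = ∫⁻ t in Set.Ioc 0 R, ENNReal.ofReal (t ^ 7) := by
                rw [hg, lintegral_indicator measurableSet_Ioc]
            _ = ENNReal.ofReal (∫ t in Set.Ioc 0 R, t ^ 7) := by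
                rw [ofReal_integral_eq_lintegral_ofReal]
                · exact (continuous_pow 7).integrableOn_Ioc
                · refine (ae_restrict_iff' measurableSet_Ioc).2 (Filter.Eventually.of_forall ?_)
                  intro t ht
                  exact pow_nonneg ht.1.le _
            _ ≤ _ := by
                rw [← intervalIntegral.integral_of_le hR0, integral_pow]
                apply le_of_eq
                congr 1
                have : R ^ (7 + 1) = (1 / k) ^ 2 := by rw [← hR4]; ring
                rw [this]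
                norm_num
                ring
        · rw [setLIntegral_one, Real.volume_Ioo]
          apply le_of_eq
          congr 1
          ring
    _ = _ := by
        rw [← ENNReal.ofReal_mul (by positivity)]
        congr 1
        field_simp
        norm_num

end JC
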