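import Mathlib
/-! [JC-V3b] polar coordinates: `(2 π / 3) ∫_{√r}^∞ t⁻³ dt` -/
set_option autoImplicit false
namespace JC
open MeasureTheory

theorem int_A (r : ℝ) (hr : 0 < r) :
    ∫⁻ A : ℂ, (if |Complex.arg A| ≤ Real.pi / 3 ∧ r ≤ ‖A‖ ^ 2 then ENNReal.ofReal (1 / ‖A‖ ^ 4) else 0) ≤
      ENNReal.ofReal (Real.pi / (3 * r)) := by
  have hsr : 0 < √r := Real.sqrt_pos.2 hr
  rw [← Complex.lintegral_comp_polarCoord_symm]
  set g : ℝ → ENNReal := fun t => (Set.Ici √r).indicator (fun t => ENNReal.ofReal (t ^ (-3 : ℝ))) t
    with hg
  set h : ℝ → ENNReal := fun t => (Set.Icc (-(Real.pi / 3)) (Real.pi / 3)).indicator (fun _ => 1) t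
    with hh
  have hgm : Measurable g := by
    refine Measurable.indicator ?_ measurableSet_Ici
    fun_prop
  have hhm : Measurable h := by
    refine Measurable.indicator ?_ measurableSet_Icc
    fun_prop
  calc _ ≤ ∫⁻ p in polarCoord.target, g p.1 * h p.2 := by
        refine setLIntegral_mono' polarCoord.open_target.measurableSet ?_
        rintro ⟨ρ, θ⟩ hp
        simp only [polarCoord_target, Set.mem_prod, Set.mem_Ioi, Set.mem_Ioo] at hp
        obtain ⟨hρ, hθ1, hθ2⟩ := hp
        have hn : ‖Complex.polarCoord.symm (ρ, θ)‖ = ρ := by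
          rw [Complex.norm_polarCoord_symm, abs_of_pos hρ]
        have ha : Complex.arg (Complex.polarCoord.symm (ρ, θ)) = θ := by
          rw [Complex.polarCoord_symm_apply]
          rw [Complex.ofReal_cos, Complex.ofReal_sin]
          exact Complex.arg_mul_cos_add_sin_mul_I hρ ⟨hθ1, hθ2.le⟩
        rw [hn, ha]
        split_ifs with hc
        · have h1 : ρ ∈ Set.Ici √r := by
            rw [Set.mem_Ici, Real.sqrt_le_left hρ.le]
            exact hc.2
          have h2 : θ ∈ Set.Icc (-(Real.pi / 3)) (Real.pi / 3) := by
            rw [Set.mem_Icc, ← abs_le]; exact hc.1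
          simp only [hg, hh, Set.indicator_of_mem h1, Set.indicator_of_mem h2, mul_one, smul_eq_mul]
          rw [← ENNReal.ofReal_mul hρ.le]
          apply le_of_eq
          congr 1
          rw [Real.rpow_neg hρ.le, show (3 : ℝ) = ((3 : ℕ) : ℝ) by norm_num, Real.rpow_natCast]
          field_simp
        · simp
    _ = (∫⁻ t in Set.Ioi (0 : ℝ), g t) * ∫⁻ t in Set.Ioo (-Real.pi) Real.pi, h t := by
        rw [polarCoord_target, Measure.volume_eq_prod, ← Measure.prod_restrict]
        exact lintegral_prod_mul hgm.aemeasurable hhm.aemeasurable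
    _ ≤ ENNReal.ofReal (1 / (2 * r)) * ENNReal.ofReal (2 * Real.pi / 3) := by
        refine mul_le_mul' ?_ ?_
        · calc (∫⁻ t in Set.Ioi (0 : ℝ), g t) ≤ ∫⁻ t, g t := setLIntegral_le_lintegral _ _
            _ = ∫⁻ t in Set.Ici √r, ENNReal.ofReal (t ^ (-3 : ℝ)) := by
                rw [hg, lintegral_indicator measurableSet_Ici]
            _ = ∫⁻ t in Set.Ioi √r, ENNReal.ofReal (t ^ (-3 : ℝ)) := by
                rw [← restrict_Ioi_eq_restrict_Ici]
            _ = ENNReal.ofReal (∫ t in Set.Ioi √r, t ^ (-3 : ℝ)) := by
                rw [ofReal_integral_eq_lintegral_ofReal]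
                · exact integrableOn_Ioi_rpow_of_lt (by norm_num) hsr
                · refine (ae_restrict_iff' measurableSet_Ioi).2 (Filter.Eventually.of_forall ?_)
                  intro t ht
                  exact Real.rpow_nonneg (hsr.trans ht).le _
            _ ≤ _ := by
                rw [integral_Ioi_rpow_of_lt (by norm_num) hsr]
                apply le_of_eq
                congr 1
                rw [show (-3 : ℝ) + 1 = -((2 : ℕ) : ℝ) by norm_num, Real.rpow_neg hsr.le,
                  Real.rpow_natCast, Real.sq_sqrt hr.le]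
                field_simp
                norm_num
        · calc (∫⁻ t in Set.Ioo (-Real.pi) Real.pi, h t) ≤ ∫⁻ t, h t := setLIntegral_le_lintegral _ _
            _ = volume (Set.Icc (-(Real.pi / 3)) (Real.pi / 3)) := by
                rw [hh, lintegral_indicator measurableSet_Icc]
                simp
            _ ≤ _ := by
                rw [Real.volume_Icc]
                apply le_of_eq
                congr 1
                ring
    _ = _ := by
        rw [← ENNReal.ofReal_mul (by positivity)]
        congr 1
        field_simp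

end JC
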