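import Mathlib
/-! [JC-V3c] -/
set_option autoImplicit false
namespace JC
open MeasureTheory

theorem int_w_aux : ∫ y in (0 : ℝ)..1, y * (1 / (1 + y ^ 2) ^ 2) = 1 / 4 := by
  have hderiv : ∀ y ∈ Set.uIcc (0 : ℝ) 1,
      HasDerivAt (fun y : ℝ => -(1 / 2) * (1 + y ^ 2)⁻¹) (y * (1 / (1 + y ^ 2) ^ 2)) y := by
    intro y _
    have h1 : HasDerivAt (fun y : ℝ => 1 + y ^ 2) (2 * y) y := by
      have h2 := (hasDerivAt_pow 2 y).const_add (1 : ℝ)
      simpa using h2
    have h3 : (1 : ℝ) + y ^ 2 ≠ 0 := by positivity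
    have h4 := (h1.inv h3).const_mul (-(1 / 2) : ℝ)
    have h5 : y * (1 / (1 + y ^ 2) ^ 2) = -(1 / 2) * (-(2 * y) / (1 + y ^ 2) ^ 2) := by ring
    rw [h5]
    exact h4
  have hint : IntervalIntegrable (fun y : ℝ => y * (1 / (1 + y ^ 2) ^ 2)) volume 0 1 := by
    apply Continuous.intervalIntegrable
    refine continuous_id.mul (Continuous.div continuous_const (by fun_prop) fun y => ?_)
    positivity
  rw [intervalIntegral.integral_eq_sub_of_hasDerivAt hderiv hint]
  norm_num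

theorem int_w_real : ∫ w in Metric.closedBall (0 : ℂ) 1, (1 / (1 + ‖w‖ ^ 2) ^ 2) = Real.pi / 2 := by
  have h1 : ∫ w in Metric.closedBall (0 : ℂ) 1, (1 / (1 + ‖w‖ ^ 2) ^ 2) =
      ∫ w : ℂ, (Set.Iic (1 : ℝ)).indicator (fun y => 1 / (1 + y ^ 2) ^ 2) ‖w‖ := by
    rw [← integral_indicator Metric.isClosed_closedBall.measurableSet]
    congr 1
    funext w
    by_cases hw : ‖w‖ ≤ 1
    · rw [Set.indicator_of_mem (by simpa using hw), Set.indicator_of_mem (by simpa using hw)]
    · rw [Set.indicator_of_notMem (by simpa using hw), Set.indicator_of_notMem (by simpa using hw)]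
  rw [h1, integral_fun_norm_addHaar volume
    ((Set.Iic (1 : ℝ)).indicator (fun y => 1 / (1 + y ^ 2) ^ 2)), Complex.finrank_real_complex]
  have h2 : (volume : Measure ℂ).real (Metric.ball 0 1) = Real.pi := by
    rw [Measure.real, Complex.volume_ball]
    simp
  have h3 : ∫ y in Set.Ioi (0 : ℝ), y ^ (2 - 1) •
      (Set.Iic (1 : ℝ)).indicator (fun y => 1 / (1 + y ^ 2) ^ 2) y = 1 / 4 := by
    rw [← int_w_aux, intervalIntegral.integral_of_le zero_le_one]
    have h4 : ∀ y : ℝ, y ^ (2 - 1) • (Set.Iic (1 : ℝ)).indicator (fun y => 1 / (1 + y ^ 2) ^ 2) y =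
        (Set.Iic (1 : ℝ)).indicator (fun y => y * (1 / (1 + y ^ 2) ^ 2)) y := by
      intro y
      by_cases hy : y ≤ 1
      · rw [Set.indicator_of_mem (Set.mem_Iic.2 hy), Set.indicator_of_mem (Set.mem_Iic.2 hy)]
        simp
      · rw [Set.indicator_of_notMem (by simpa using hy), Set.indicator_of_notMem (by simpa using hy),
          smul_zero]
    simp only [h4]
    rw [setIntegral_indicator measurableSet_Iic]
    rfl
  rw [h2, h3]
  simp only [smul_eq_mul, nsmul_eq_mul]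
  push_cast
  ring

theorem int_w :
    ∫⁻ w : ℂ, (if ‖w‖ ≤ 1 then ENNReal.ofReal (1 / (1 + ‖w‖ ^ 2) ^ 2) else 0) ≤
      ENNReal.ofReal (Real.pi / 2) := by
  have hcont : Continuous fun w : ℂ => (1 / (1 + ‖w‖ ^ 2) ^ 2 : ℝ) := by
    refine Continuous.div continuous_const (by fun_prop) fun y => ?_
    positivity
  have h1 : ∫⁻ w : ℂ, (if ‖w‖ ≤ 1 then ENNReal.ofReal (1 / (1 + ‖w‖ ^ 2) ^ 2) else 0) =
      ∫⁻ w in Metric.closedBall (0 : ℂ) 1, ENNReal.ofReal (1 / (1 + ‖w‖ ^ 2) ^ 2) := by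
    rw [← lintegral_indicator Metric.isClosed_closedBall.measurableSet]
    congr 1
    funext w
    by_cases hw : ‖w‖ ≤ 1
    · rw [if_pos hw, Set.indicator_of_mem (by simpa using hw)]
    · rw [if_neg hw, Set.indicator_of_notMem (by simpa using hw)]
  rw [h1, ← ofReal_integral_eq_lintegral_ofReal
    (hcont.continuousOn.integrableOn_compact (isCompact_closedBall 0 1))
    (Filter.Eventually.of_forall fun w => by positivity), int_w_real]
end JC
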