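import Pool.Agent.JC.Base
import Pool.Agent.JC.V3a
import Pool.Agent.JC.V3b
import Pool.Agent.JC.V3c

/-!
# [JC] evaluation of the volume integral
-/

set_option autoImplicit false

namespace JC

open MeasureTheory

theorem Om_meas : MeasurableSet Om := by
  have e : Om = {x : ℂ × ℂ | |Complex.arg x.1| ≤ Real.pi / 3} ∩ ({x : ℂ × ℂ | ‖x.2‖ ≤ 1} ∩
      {x : ℂ × ℂ | (1 + ‖x.2‖ ^ 2) ^ 2 ≤ 3 / 2 * ‖x.1‖ ^ 2 * ‖1 - x.2 ^ 3‖ ^ 2}) := rfl
  rw [e]
  refine MeasurableSet.inter ?_ (MeasurableSet.inter ?_ ?_)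
  · exact measurableSet_le ((Complex.measurable_arg.comp measurable_fst).abs) measurable_const
  · exact measurableSet_le (by fun_prop) measurable_const
  · exact measurableSet_le (by fun_prop) (by fun_prop)

theorem jac_meas : Measurable fun p : ℂ × (ℂ × ℂ) => jac p.1 p.2 := by
  unfold jac
  refine Measurable.ite (measurableSet_le (by fun_prop) measurable_const) (by fun_prop)
    measurable_const

/-- the integrand -/
noncomputable def fI (a : ℂ) (x : ℂ × ℂ) : ENNReal :=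
  ENNReal.ofReal (9 * ‖a‖ ^ 2 * (√3 / 2)) * Om.indicator (jac a) x

theorem fI_meas : Measurable (Function.uncurry fI) := by
  have e : Function.uncurry fI = fun p : ℂ × (ℂ × ℂ) => ENNReal.ofReal (9 * ‖p.1‖ ^ 2 * (√3 / 2)) *
      (Prod.snd ⁻¹' Om).indicator (fun p : ℂ × (ℂ × ℂ) => jac p.1 p.2) p := by
    funext p
    rfl
  rw [e]
  exact (by fun_prop : Measurable fun p : ℂ × (ℂ × ℂ) =>
    ENNReal.ofReal (9 * ‖p.1‖ ^ 2 * (√3 / 2))).mul (jac_meas.indicator (measurable_snd Om_meas))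

/-- after the integration over `a` -/
noncomputable def gI (x : ℂ × ℂ) : ENNReal :=
  Om.indicator (fun x => ENNReal.ofReal (√3 * Real.pi / 8 / (‖x.1‖ ^ 4 * ‖1 - x.2 ^ 3‖ ^ 2))) x

theorem gI_meas : Measurable gI := by
  unfold gI
  exact Measurable.indicator (by fun_prop) Om_meas

theorem step_a (x : ℂ × ℂ) : ∫⁻ a : ℂ, fI a x ≤ gI x := by
  by_cases hx : x ∈ Om
  · obtain ⟨h1, h2, h3⟩ := hx
    have hx' : x ∈ Om := ⟨h1, h2, h3⟩
    have hA : 0 < ‖x.1‖ := by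
      refine (norm_nonneg _).lt_of_ne' fun h => ?_
      rw [h] at h3
      nlinarith [sq_nonneg ‖x.2‖]
    have hW : 0 < ‖1 - x.2 ^ 3‖ := by
      refine (norm_nonneg _).lt_of_ne' fun h => ?_
      rw [h] at h3
      nlinarith [sq_nonneg ‖x.2‖]
    set α := ‖x.1‖
    set β := ‖1 - x.2 ^ 3‖
    have hk : 0 < 27 * α ^ 6 * β ^ 2 := by positivity
    have h4 : ∀ a : ℂ, fI a x = ENNReal.ofReal (729 * (√3 / 2) * α ^ 8 * β ^ 2) *
        (if 27 * α ^ 6 * β ^ 2 * ‖a‖ ^ 4 ≤ 1 then ENNReal.ofReal (‖a‖ ^ 6) else 0) := fun a => by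
      unfold fI jac
      rw [Set.indicator_of_mem hx']
      have e : 27 * ‖a‖ ^ 4 * α ^ 6 * β ^ 2 = 27 * α ^ 6 * β ^ 2 * ‖a‖ ^ 4 := by ring
      show ENNReal.ofReal _ * (if 27 * ‖a‖ ^ 4 * α ^ 6 * β ^ 2 ≤ 1 then _ else _) = _
      rw [e]
      split_ifs with hc
      · rw [← ENNReal.ofReal_mul (by positivity), ← ENNReal.ofReal_mul (by positivity)]
        congr 1
        ring
      · rw [mul_zero, mul_zero]
    rw [lintegral_congr h4, lintegral_const_mul' _ _ ENNReal.ofReal_ne_top]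
    refine (mul_le_mul_right (int_a _ hk) _).trans (le_of_eq ?_)
    unfold gI
    rw [Set.indicator_of_mem hx', ← ENNReal.ofReal_mul (by positivity)]
    congr 1
    show _ = √3 * Real.pi / 8 / (α ^ 4 * β ^ 2)
    field_simp
    ring
  · have h4 : ∀ a : ℂ, fI a x = 0 := fun a => by
      unfold fI
      rw [Set.indicator_of_notMem hx, mul_zero]
    rw [lintegral_congr h4, lintegral_zero]
    exact zero_le

theorem step_A (w : ℂ) : ∫⁻ A : ℂ, gI (A, w) ≤
    ENNReal.ofReal (√3 * Real.pi ^ 2 / 16) *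
      (if ‖w‖ ≤ 1 then ENNReal.ofReal (1 / (1 + ‖w‖ ^ 2) ^ 2) else 0) := by
  by_cases hw : ‖w‖ ≤ 1
  · by_cases hW : ‖1 - w ^ 3‖ = 0
    · have h4 : ∀ A : ℂ, gI (A, w) = 0 := fun A => by
        unfold gI
        refine Set.indicator_of_notMem (fun hx => ?_) _
        obtain ⟨-, -, h3⟩ := hx
        dsimp only at h3
        rw [hW] at h3
        nlinarith [sq_nonneg ‖w‖]
      rw [lintegral_congr h4, lintegral_zero]
      exact zero_le
    · have hW0 : 0 < ‖1 - w ^ 3‖ := (norm_nonneg _).lt_of_ne' hW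
      set β := ‖1 - w ^ 3‖ with hβ
      set r : ℝ := 2 / 3 * (1 + ‖w‖ ^ 2) ^ 2 / β ^ 2 with hr
      have hr0 : 0 < r := by positivity
      have h4 : ∀ A : ℂ, gI (A, w) ≤ ENNReal.ofReal (√3 * Real.pi / 8 / β ^ 2) *
          (if |Complex.arg A| ≤ Real.pi / 3 ∧ r ≤ ‖A‖ ^ 2 then ENNReal.ofReal (1 / ‖A‖ ^ 4) else 0) :=
        fun A => by
        unfold gI
        by_cases hx : (A, w) ∈ Om
        · rw [Set.indicator_of_mem hx]
          obtain ⟨h1, -, h3⟩ := hx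
          dsimp only at h1 h3
          have h5 : r ≤ ‖A‖ ^ 2 := by
            rw [hr, div_le_iff₀ (by positivity)]
            linarith
          rw [if_pos ⟨h1, h5⟩, ← ENNReal.ofReal_mul (by positivity)]
          apply ENNReal.ofReal_le_ofReal
          apply le_of_eq
          dsimp only
          rw [← hβ]
          ring
        · rw [Set.indicator_of_notMem hx]
          exact zero_le
      refine (lintegral_mono h4).trans ?_
      rw [lintegral_const_mul' _ _ ENNReal.ofReal_ne_top, if_pos hw]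
      refine (mul_le_mul_right (int_A r hr0) _).trans (le_of_eq ?_)
      rw [← ENNReal.ofReal_mul (by positivity), ← ENNReal.ofReal_mul (by positivity)]
      congr 1
      rw [hr]
      field_simp
      ring
  · have h4 : ∀ A : ℂ, gI (A, w) = 0 := fun A => by
      unfold gI
      exact Set.indicator_of_notMem (fun hx => hw hx.2.1) _
    rw [lintegral_congr h4, lintegral_zero]
    exact zero_le

theorem vol_int : ∫⁻ a : ℂ, ENNReal.ofReal (9 * ‖a‖ ^ 2 * (√3 / 2)) * ∫⁻ x in Om, jac a x ≤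
    ENNReal.ofReal (√3 * Real.pi ^ 3 / 32) := by
  have h1 : ∀ a : ℂ, ENNReal.ofReal (9 * ‖a‖ ^ 2 * (√3 / 2)) * ∫⁻ x in Om, jac a x =
      ∫⁻ x : ℂ × ℂ, fI a x := fun a => by
    unfold fI
    rw [lintegral_const_mul' _ _ ENNReal.ofReal_ne_top, lintegral_indicator Om_meas]
  calc ∫⁻ a : ℂ, ENNReal.ofReal (9 * ‖a‖ ^ 2 * (√3 / 2)) * ∫⁻ x in Om, jac a x =
        ∫⁻ a : ℂ, ∫⁻ x : ℂ × ℂ, fI a x := lintegral_congr h1
    _ = ∫⁻ x : ℂ × ℂ, ∫⁻ a : ℂ, fI a x := lintegral_lintegral_swap fI_meas.aemeasurable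
    _ ≤ ∫⁻ x : ℂ × ℂ, gI x := lintegral_mono step_a
    _ = ∫⁻ w : ℂ, ∫⁻ A : ℂ, gI (A, w) := by
        rw [Measure.volume_eq_prod, lintegral_prod_symm _ gI_meas.aemeasurable]
    _ ≤ ∫⁻ w : ℂ, ENNReal.ofReal (√3 * Real.pi ^ 2 / 16) *
          (if ‖w‖ ≤ 1 then ENNReal.ofReal (1 / (1 + ‖w‖ ^ 2) ^ 2) else 0) := lintegral_mono step_A
    _ = ENNReal.ofReal (√3 * Real.pi ^ 2 / 16) *
          ∫⁻ w : ℂ, (if ‖w‖ ≤ 1 then ENNReal.ofReal (1 / (1 + ‖w‖ ^ 2) ^ 2) else 0) :=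
        lintegral_const_mul' _ _ ENNReal.ofReal_ne_top
    _ ≤ ENNReal.ofReal (√3 * Real.pi ^ 2 / 16) * ENNReal.ofReal (Real.pi / 2) :=
        mul_le_mul_right int_w _
    _ = _ := by
        rw [← ENNReal.ofReal_mul (by positivity)]
        congr 1
        ring

end JC
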