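import Pool.Agent.JC.Base

/-!
# [JC] the region is compact
-/

set_option autoImplicit false

namespace JC

open CM27 CU JZ

/-- the parameters -/
def KS (ε : ℝ) : Set V4 :=
  {x | ε ≤ ‖x.1‖ ∧ x.2.1 ∈ Rec ∧
    (‖x.2.2.1‖ ^ 2 + ‖x.2.2.2‖ ^ 2) ^ 2 ≤ 3 / 2 * ‖x.2.2.1 ^ 3 - x.2.2.2 ^ 3‖ ^ 2 ∧
    2 / 3 ≤ ‖x.2.2.1‖ ^ 2 + ‖x.2.2.2‖ ^ 2 ∧
    27 * ‖x.1‖ ^ 4 * ‖x.2.2.1 ^ 3 - x.2.2.2 ^ 3‖ ^ 2 ≤ 1}

/-- the parametrisation -/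
def KF (x : V4) : V4 :=
  (x.1, -3 * x.1 * x.2.1, x.1 * (3 * x.2.1 ^ 2 - 3 * (x.2.2.1 * x.2.2.2)),
    x.1 * (-x.2.1 ^ 3 + 3 * x.2.1 * (x.2.2.1 * x.2.2.2) - x.2.2.1 ^ 3 - x.2.2.2 ^ 3))

theorem KF_cont : Continuous KF := by
  unfold KF
  fun_prop

theorem Rec_closed : IsClosed Rec := by
  have e : Rec = {z : ℂ | (0 : ℝ) ≤ z.re} ∩ ({z : ℂ | z.re ≤ 1} ∩ ({z : ℂ | (0 : ℝ) ≤ z.im} ∩
      {z : ℂ | z.im ≤ √3 / 2})) := rfl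
  rw [e]
  exact (isClosed_le continuous_const Complex.continuous_re).inter
    ((isClosed_le Complex.continuous_re continuous_const).inter
    ((isClosed_le continuous_const Complex.continuous_im).inter
    (isClosed_le Complex.continuous_im continuous_const)))

theorem KS_closed (ε : ℝ) : IsClosed (KS ε) := by
  have e : KS ε = {x : V4 | ε ≤ ‖x.1‖} ∩ ({x : V4 | x.2.1 ∈ Rec} ∩
      ({x : V4 | (‖x.2.2.1‖ ^ 2 + ‖x.2.2.2‖ ^ 2) ^ 2 ≤ 3 / 2 * ‖x.2.2.1 ^ 3 - x.2.2.2 ^ 3‖ ^ 2} ∩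
      ({x : V4 | 2 / 3 ≤ ‖x.2.2.1‖ ^ 2 + ‖x.2.2.2‖ ^ 2} ∩
      {x : V4 | 27 * ‖x.1‖ ^ 4 * ‖x.2.2.1 ^ 3 - x.2.2.2 ^ 3‖ ^ 2 ≤ 1}))) := rfl
  rw [e]
  refine IsClosed.inter ?_ (IsClosed.inter ?_ (IsClosed.inter ?_ (IsClosed.inter ?_ ?_)))
  · exact isClosed_le continuous_const (by fun_prop)
  · exact Rec_closed.preimage (by fun_prop)
  · exact isClosed_le (by fun_prop) (by fun_prop)
  · exact isClosed_le continuous_const (by fun_prop)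
  · exact isClosed_le (by fun_prop) continuous_const

theorem KS_compact (ε : ℝ) (hε : 0 < ε) : IsCompact (KS ε) := by
  refine Metric.isCompact_of_isClosed_isBounded (KS_closed ε) ?_
  set M : ℝ := 2 + 1 / ε ^ 2 with hM
  have hM2 : 2 ≤ M := by
    have : 0 < 1 / ε ^ 2 := by positivity
    linarith
  refine (Metric.isBounded_closedBall (x := (0 : V4)) (r := M)).subset fun x hx => ?_
  obtain ⟨h1, ⟨r1, r2, r3, r4⟩, h3, h4, h5⟩ := hx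
  rw [mem_closedBall_zero_iff, Prod.norm_def, Prod.norm_def, Prod.norm_def]
  simp only [max_le_iff]
  set A := x.2.2.1
  set B := x.2.2.2
  set t := ‖A‖ ^ 2 + ‖B‖ ^ 2 with ht
  have hn : 8 / 27 ≤ ‖A ^ 3 - B ^ 3‖ ^ 2 := by nlinarith
  have ha0 : 0 < ‖x.1‖ := by linarith
  have ha : ‖x.1‖ ≤ 1 := by
    by_contra hcon
    rw [not_le] at hcon
    have h6 : 1 < ‖x.1‖ ^ 4 := one_lt_pow₀ hcon (by norm_num)
    nlinarith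
  have hz : ‖x.2.1‖ ≤ 2 := by
    have h33 : √3 ^ 2 = 3 := Real.sq_sqrt (by norm_num)
    have h5 : ‖x.2.1‖ ^ 2 ≤ 2 ^ 2 := by
      rw [Complex.sq_norm, Complex.normSq_apply]
      have a1 : x.2.1.re * x.2.1.re ≤ 1 * 1 := mul_self_le_mul_self r1 r2
      have a2 : x.2.1.im * x.2.1.im ≤ (√3 / 2) * (√3 / 2) := mul_self_le_mul_self r3 r4
      have a3 : (√3 / 2) * (√3 / 2) = 3 / 4 := by
        rw [show (√3 / 2) * (√3 / 2) = √3 ^ 2 / 4 by ring, h33]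
      rw [a3] at a2
      linarith
    exact le_of_sq_le_sq h5 (by norm_num)
  have ht1 : t ≤ 1 / ε ^ 2 := by
    rw [le_div_iff₀ (by positivity)]
    refine le_of_sq_le_sq ?_ (by norm_num)
    have h6 : ε ^ 4 ≤ ‖x.1‖ ^ 4 := pow_le_pow_left₀ hε.le h1 4
    have h7 : (t * ε ^ 2) ^ 2 * 18 ≤ 1 := by
      calc (t * ε ^ 2) ^ 2 * 18 = t ^ 2 * ε ^ 4 * 18 := by ring
        _ ≤ (3 / 2 * ‖A ^ 3 - B ^ 3‖ ^ 2) * ‖x.1‖ ^ 4 * 18 := by gcongr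
        _ = 27 * ‖x.1‖ ^ 4 * ‖A ^ 3 - B ^ 3‖ ^ 2 := by ring
        _ ≤ 1 := h5
    nlinarith
  have hAB : ∀ y : ℝ, 0 ≤ y → y ^ 2 ≤ t → y ≤ M := fun y hy hyt => by
    have : y ^ 2 ≤ 1 / ε ^ 2 := hyt.trans ht1
    nlinarith [sq_nonneg (y - 1)]
  refine ⟨by linarith, by linarith, hAB _ (norm_nonneg _) ?_, hAB _ (norm_nonneg _) ?_⟩
  · rw [ht]
    nlinarith [sq_nonneg ‖B‖]
  · rw [ht]
    nlinarith [sq_nonneg ‖A‖]

theorem regC_compact (ε : ℝ) (hε : 0 < ε) : IsCompact (RegC ε) := by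
  have h := (KS_compact ε hε).image KF_cont
  convert h using 1
  ext v
  constructor
  · rintro ⟨⟨h0, z, A, B, hz, ⟨hb, hc, hd, h1, h2⟩, h3⟩, h4⟩
    refine ⟨(v.1, z, A, B), ⟨h4, hz, h1, h2, ?_⟩, ?_⟩
    · rw [one_pow] at h3
      exact h3
    · refine Prod.ext rfl (Prod.ext ?_ (Prod.ext ?_ ?_))
      · exact hb.symm
      · exact hc.symm
      · exact hd.symm
  · rintro ⟨⟨a, z, A, B⟩, ⟨h4, hz, h1, h2, h3⟩, rfl⟩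
    dsimp only at h4 hz h1 h2 h3
    have ha : a ≠ 0 := by
      rintro rfl
      rw [norm_zero] at h4
      linarith
    refine ⟨⟨ha, z, A, B, hz, ⟨rfl, rfl, rfl, h1, h2⟩, ?_⟩, h4⟩
    rw [one_pow]
    exact h3

end JC
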