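import Pool.Agent.JC.V1
import Pool.Agent.JC.V2
import Pool.Agent.JC.V3
import Pool.Agent.JC.V4

/-!
# [JC] the volume of the region
-/

set_option autoImplicit false

namespace JC

open MeasureTheory

theorem regC_vol (ε : ℝ) (hε : 0 < ε) : volume.real (RegC ε) ≤ √3 * Real.pi ^ 3 / 32 := by
  have h : volume (RegC ε) ≤ ENNReal.ofReal (√3 * Real.pi ^ 3 / 32) := by
    refine (vol_fib ε hε (regC_compact ε hε)).trans ((lintegral_mono fun a => ?_).trans vol_int)
    exact mul_le_mul_right (vol_PQ a) _
  have h2 := ENNReal.toReal_mono ENNReal.ofReal_ne_top h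
  rw [ENNReal.toReal_ofReal (by positivity)] at h2
  exact h2

end JC
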