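import Pool.Agent.JC.S
import Pool.Agent.JC.K4
import Pool.Agent.JC.P
import Pool.Agent.JC.T4
import Pool.Agent.JC.T9b
import Pool.Agent.JC.V5

/-!
# [JC] assembly: the number of `D` with a form
-/

set_option autoImplicit false

namespace JC

open CM27 CU JZ MeasureTheory
open scoped Pointwise

/-- scaling -/
theorem reg_scale {s ε : ℝ} (hs : 0 < s) {v : V4} (hv : v ∈ Reg s) (he : ε * s ≤ ‖v.1‖) :
    v ∈ s • RegC ε := by
  obtain ⟨h0, z, A, B, hz, ⟨hb, hc, hd, h1, h2⟩, h3⟩ := hv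
  have hs' : (s : ℂ) ≠ 0 := by exact_mod_cast hs.ne'
  refine ⟨s⁻¹ • v, ⟨⟨?_, z, A, B, hz, ⟨?_, ?_, ?_, h1, h2⟩, ?_⟩, ?_⟩, ?_⟩
  · rw [Prod.smul_fst]
    exact smul_ne_zero (inv_ne_zero hs.ne') h0
  · simp only [Prod.smul_fst, Prod.smul_snd, hb, Complex.real_smul]
    ring
  · simp only [Prod.smul_fst, Prod.smul_snd, hc, Complex.real_smul]
    ring
  · simp only [Prod.smul_fst, Prod.smul_snd, hd, Complex.real_smul]
    ring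
  · rw [Prod.smul_fst, norm_smul, norm_inv, Real.norm_of_nonneg hs.le, mul_pow, inv_pow]
    rw [one_pow, show 27 * ((s ^ 4)⁻¹ * ‖v.1‖ ^ 4) * ‖A ^ 3 - B ^ 3‖ ^ 2 =
      (27 * ‖v.1‖ ^ 4 * ‖A ^ 3 - B ^ 3‖ ^ 2) / s ^ 4 by field_simp, div_le_one (by positivity)]
    exact h3
  · rw [Prod.smul_fst, norm_smul, norm_inv, Real.norm_of_nonneg hs.le, ← div_eq_inv_mul,
      le_div_iff₀ hs]
    exact he
  · show s • s⁻¹ • v = v
    rw [smul_smul, mul_inv_cancel₀ hs.ne', one_smul]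

/-- the set of the forms with the local conditions -/
theorem exists_T : ∃ (C9 : Finset (Z4 9)) (C4 : Finset (Z4 4)), C9.card ≤ 209952 ∧ C4.card ≤ 11520 ∧
    ∀ a b c d D p q r s : Eis, Cl D → disc a (la * b) (la ^ 2 * c) (la * d) = 4 * la ^ 4 * D →
      IsUnit (p * s - q * r) →
      (cA a (la * b) (la ^ 2 * c) (la * d) p q r s, cB a (la * b) (la ^ 2 * c) (la * d) p q r s,
        cC a (la * b) (la ^ 2 * c) (la * d) p q r s, cD a (la * b) (la ^ 2 * c) (la * d) p q r s) ∈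
        {g : O4 | res4 9 g ∈ C9 ∧ res4 4 g ∈ C4} := by
  obtain ⟨C9, h9, m9⟩ := c9
  obtain ⟨C4, h4, m4⟩ := c4
  refine ⟨C9, C4, h9, h4, fun a b c d D p q r s hD hd hu => ⟨m9 a b c d D p q r s hD.2.1 hd hu, ?_⟩⟩
  refine m4 _ _ _ _ D hD.2.2 ?_
  rw [disc_act, unit_six hu, one_mul, hd]

theorem lat_union (C9 : Finset (Z4 9)) (C4 : Finset (Z4 4)) (C : Set V4) (hC : IsCompact C)
    (η : ℝ) (hη : 0 < η) : ∃ s₀ : ℝ, ∀ s : ℝ, s₀ ≤ s →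
      {g : O4 | (res4 9 g ∈ C9 ∧ res4 4 g ∈ C4) ∧ emb4 g ∈ s • C}.Finite ∧
      ({g : O4 | (res4 9 g ∈ C9 ∧ res4 4 g ∈ C4) ∧ emb4 g ∈ s • C}.ncard : ℝ) ≤
        (C9.card * C4.card : ℕ) * ((volume.real C / (36 ^ 8 * (9 / 16)) + η) * s ^ 8) := by
  choose s₀ h₀ using fun (x : Z4 9 × Z4 4) => lat C hC x.1 x.2 η hη
  refine ⟨∑ x ∈ C9 ×ˢ C4, |s₀ x|, fun s hs => ?_⟩
  have hle : ∀ x ∈ C9 ×ˢ C4, s₀ x ≤ s := fun x hx =>
    (le_abs_self _).trans ((Finset.single_le_sum (f := fun x => |s₀ x|)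
      (fun y _ => abs_nonneg _) hx).trans hs)
  have heq : {g : O4 | (res4 9 g ∈ C9 ∧ res4 4 g ∈ C4) ∧ emb4 g ∈ s • C} =
      ⋃ x ∈ C9 ×ˢ C4, {g : O4 | res4 9 g = x.1 ∧ res4 4 g = x.2 ∧ emb4 g ∈ s • C} := by
    ext g
    simp only [Set.mem_iUnion, Finset.mem_product, exists_prop]
    constructor
    · rintro ⟨⟨h1, h2⟩, h3⟩
      exact ⟨(res4 9 g, res4 4 g), ⟨h1, h2⟩, rfl, rfl, h3⟩
    · rintro ⟨⟨x, y⟩, ⟨h1, h2⟩, h4, h5, h3⟩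
      refine ⟨⟨?_, ?_⟩, h3⟩
      · rw [h4]; exact h1
      · rw [h5]; exact h2
  rw [heq]
  refine ⟨(C9 ×ˢ C4).finite_toSet.biUnion fun x hx => (h₀ x s (hle x hx)).1, ?_⟩
  have h1 : (⋃ x ∈ C9 ×ˢ C4, {g : O4 | res4 9 g = x.1 ∧ res4 4 g = x.2 ∧ emb4 g ∈ s • C}).ncard ≤
      ∑ x ∈ C9 ×ˢ C4, {g : O4 | res4 9 g = x.1 ∧ res4 4 g = x.2 ∧ emb4 g ∈ s • C}.ncard :=
    Finset.set_ncard_biUnion_le _ _
  calc ((⋃ x ∈ C9 ×ˢ C4, {g : O4 | res4 9 g = x.1 ∧ res4 4 g = x.2 ∧ emb4 g ∈ s • C}).ncard : ℝ)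
      ≤ ((∑ x ∈ C9 ×ˢ C4, {g : O4 | res4 9 g = x.1 ∧ res4 4 g = x.2 ∧ emb4 g ∈ s • C}.ncard : ℕ) : ℝ) :=
        by exact_mod_cast h1
    _ = ∑ x ∈ C9 ×ˢ C4, ({g : O4 | res4 9 g = x.1 ∧ res4 4 g = x.2 ∧ emb4 g ∈ s • C}.ncard : ℝ) := by
        push_cast; rfl
    _ ≤ ∑ _x ∈ C9 ×ˢ C4, (volume.real C / (36 ^ 8 * (9 / 16)) + η) * s ^ 8 :=
        Finset.sum_le_sum fun x hx => (h₀ x s (hle x hx)).2
    _ = _ := by
        rw [Finset.sum_const, Finset.card_product, nsmul_eq_mul]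

theorem const_le : 108 * ((209952 * 11520 : ℝ) * (√3 * Real.pi ^ 3 / 32 / (36 ^ 8 * (9 / 16)))) ≤
    0.27628 := by
  have h3 : √3 ≤ 1.7321 := by
    rw [Real.sqrt_le_left (by norm_num)]
    norm_num
  have hpi := Real.pi_lt_d6
  have hp0 := Real.pi_pos
  have hp3 : Real.pi ^ 3 ≤ 3.141593 ^ 3 := by
    exact pow_le_pow_left₀ hp0.le hpi.le 3
  have h : √3 * Real.pi ^ 3 ≤ 1.7321 * 3.141593 ^ 3 :=
    mul_le_mul h3 hp3 (by positivity) (by norm_num)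
  have e : 108 * ((209952 * 11520 : ℝ) * (√3 * Real.pi ^ 3 / 32 / (36 ^ 8 * (9 / 16)))) =
      (√3 * Real.pi ^ 3) * (5 / 972) := by
    norm_num
    ring
  rw [e]
  nlinarith

theorem count_bad : ∃ X₀ : ℕ, ∀ X : ℕ, X₀ ≤ X → (SB X).Finite ∧
    10000 * (SB X).ncard ≤ 2764 * X := by
  obtain ⟨C9, C4, h9, h4, hT⟩ := exists_T
  obtain ⟨K, hK, hcusp⟩ := cusp
  set N : ℕ := C9.card * C4.card with hN
  have hN0 : (N : ℝ) ≤ 209952 * 11520 := by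
    have : N ≤ 209952 * 11520 := Nat.mul_le_mul h9 h4
    exact_mod_cast this
  obtain ⟨ε, hε, hε1, hεK⟩ : ∃ ε : ℝ, 0 < ε ∧ ε ≤ 1 ∧ K * √ε ≤ 1 / 10 ^ 7 := by
    refine ⟨min 1 (1 / (10 ^ 7 * K)) ^ 2, by positivity, ?_, ?_⟩
    · exact pow_le_one₀ (by positivity) (min_le_left _ _)
    · rw [Real.sqrt_sq (by positivity)]
      calc K * min 1 (1 / (10 ^ 7 * K)) ≤ K * (1 / (10 ^ 7 * K)) :=
            mul_le_mul_of_nonneg_left (min_le_right _ _) hK.le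
        _ = 1 / 10 ^ 7 := by field_simp
  obtain ⟨s₀, hlat⟩ := lat_union C9 C4 (RegC ε) (regC_compact ε hε) (1 / 10 ^ 17) (by norm_num)
  refine ⟨⌈|s₀| ^ 8⌉₊ + 1, fun X hX => ?_⟩
  have hX1 : (1 : ℝ) ≤ X := by
    have : 1 ≤ X := by omega
    exact_mod_cast this
  have hXs : |s₀| ^ 8 ≤ X := by
    have h1 : ⌈|s₀| ^ 8⌉₊ ≤ X := by omega
    exact (Nat.le_ceil _).trans (by exact_mod_cast h1)
  set s : ℝ := (1296 * X : ℝ) ^ ((1 : ℝ) / 8) with hs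
  have hs0 : 0 ≤ s := by positivity
  have hs8 : s ^ 8 = 1296 * X := by
    rw [hs, ← Real.rpow_natCast, ← Real.rpow_mul (by positivity)]
    norm_num
  have hs1 : 1 ≤ s := by
    by_contra hlt
    have := pow_lt_one₀ hs0 (not_le.1 hlt) (n := 8) (by norm_num)
    rw [hs8] at this
    linarith
  have hss : s₀ ≤ s := by
    refine (le_abs_self _).trans ?_
    by_contra hlt
    have := pow_lt_pow_left₀ (not_le.1 hlt) hs0 (n := 8) (by norm_num)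
    rw [hs8] at this
    linarith
  obtain ⟨f1, n1⟩ := hlat s hss
  obtain ⟨f2, n2⟩ := hcusp s ε hs1 hε hε1
  set T : Set O4 := {g : O4 | res4 9 g ∈ C9 ∧ res4 4 g ∈ C4} with hTdef
  have hsub : {g : O4 | g ∈ T ∧ emb4 g ∈ Reg s} ⊆
      {g : O4 | (res4 9 g ∈ C9 ∧ res4 4 g ∈ C4) ∧ emb4 g ∈ s • RegC ε} ∪
        {g : O4 | emb4 g ∈ Reg s ∧ ‖emb g.1‖ ≤ ε * s} := by
    rintro g ⟨h1, h2⟩
    rcases le_total (ε * s) ‖emb g.1‖ with h | h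
    · exact Or.inl ⟨h1, reg_scale (by linarith) h2 h⟩
    · exact Or.inr ⟨h2, h⟩
  have hfin : {g : O4 | g ∈ T ∧ emb4 g ∈ Reg s}.Finite := (f1.union f2).subset hsub
  obtain ⟨h1, h2⟩ := twelve T hT X s hs0 hs8 hfin
  refine ⟨h1, ?_⟩
  have h3 : ({g : O4 | g ∈ T ∧ emb4 g ∈ Reg s}.ncard : ℝ) ≤
      N * ((volume.real (RegC ε) / (36 ^ 8 * (9 / 16)) + 1 / 10 ^ 17) * s ^ 8) +
        K * √ε * s ^ 8 := by
    have h4 := (Set.ncard_le_ncard hsub (f1.union f2)).trans (Set.ncard_union_le _ _)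
    calc ({g : O4 | g ∈ T ∧ emb4 g ∈ Reg s}.ncard : ℝ) ≤
        (({g : O4 | (res4 9 g ∈ C9 ∧ res4 4 g ∈ C4) ∧ emb4 g ∈ s • RegC ε}.ncard +
          {g : O4 | emb4 g ∈ Reg s ∧ ‖emb g.1‖ ≤ ε * s}.ncard : ℕ) : ℝ) := Nat.cast_le.2 h4
      _ ≤ _ := by
        push_cast
        push_cast at n1 n2
        rw [hN]
        push_cast
        exact add_le_add n1 n2
  have hvol := regC_vol ε hε
  have h5 : (N : ℝ) * ((volume.real (RegC ε) / (36 ^ 8 * (9 / 16)) + 1 / 10 ^ 17) * s ^ 8) ≤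
      209952 * 11520 * (((√3 * Real.pi ^ 3 / 32) / (36 ^ 8 * (9 / 16)) + 1 / 10 ^ 17) * s ^ 8) := by
    have hv0 : 0 ≤ volume.real (RegC ε) := measureReal_nonneg
    gcongr
  have h6 : K * √ε * s ^ 8 ≤ 1 / 10 ^ 7 * s ^ 8 := by gcongr
  have hc := const_le
  have h2' : 12 * ((SB X).ncard : ℝ) ≤ ({g : O4 | g ∈ T ∧ emb4 g ∈ Reg s}.ncard : ℝ) := by
    exact_mod_cast h2
  have h7 : (10000 : ℝ) * ((SB X).ncard : ℝ) ≤ 2764 * X := by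
    rw [hs8] at h3 h5 h6
    have h8 : 12 * ((SB X).ncard : ℝ) ≤ (12 * 0.27628 + (209952 * 11520 / 10 ^ 17 + 1 / 10 ^ 7) * 1296) * X := by
      calc 12 * ((SB X).ncard : ℝ) ≤ _ := h2'
        _ ≤ _ := h3
        _ ≤ _ := add_le_add h5 h6
        _ = 12 * (108 * ((209952 * 11520 : ℝ) * (√3 * Real.pi ^ 3 / 32 / (36 ^ 8 * (9 / 16))))) * X +
            (209952 * 11520 / 10 ^ 17 + 1 / 10 ^ 7) * 1296 * X := by ring
        _ ≤ _ := by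
          rw [add_mul]
          have hX0 : (0 : ℝ) ≤ X := by linarith
          have := mul_le_mul_of_nonneg_right (mul_le_mul_of_nonneg_left hc (by norm_num : (0 : ℝ) ≤ 12)) hX0
          linarith
    have h9 : (12 * 0.27628 + (209952 * 11520 / 10 ^ 17 + 1 / 10 ^ 7) * 1296 : ℝ) ≤ 12 * 0.2764 := by
      norm_num
    have h10 := h8.trans (mul_le_mul_of_nonneg_right h9 (by linarith : (0 : ℝ) ≤ X))
    linarith
  exact_mod_cast h7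

end JC
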