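import Pool.Agent.JZ.Defs

/-!
# [JC] counting binary cubic forms over `ℤ[ω]`: definitions
-/

set_option autoImplicit false

namespace JC

open CM27 CU JZ

section Forms

variable {R : Type*} [CommRing R]

/-- the value `a x³ + b x² y + c x y² + d y³` -/
def val (a b c d x y : R) : R := a * x ^ 3 + b * x ^ 2 * y + c * x * y ^ 2 + d * y ^ 3

/-- the coefficients of `g(p x + q y, r x + s y)`: `x³` -/
def cA (a b c d p _q r _s : R) : R := val a b c d p r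

/-- the coefficients of `g(p x + q y, r x + s y)`: `x² y` -/
def cB (a b c d p q r s : R) : R :=
  3 * a * p ^ 2 * q + b * (p ^ 2 * s + 2 * p * q * r) + c * (2 * p * r * s + q * r ^ 2) +
    3 * d * r ^ 2 * s

/-- the coefficients of `g(p x + q y, r x + s y)`: `x y²` -/
def cC (a b c d p q r s : R) : R :=
  3 * a * p * q ^ 2 + b * (2 * p * q * s + q ^ 2 * r) + c * (p * s ^ 2 + 2 * q * r * s) +
    3 * d * r * s ^ 2

/-- the coefficients of `g(p x + q y, r x + s y)`: `y³` -/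
def cD (a b c d _p q _r s : R) : R := val a b c d q s

theorem val_act (a b c d p q r s x y : R) :
    val (cA a b c d p q r s) (cB a b c d p q r s) (cC a b c d p q r s) (cD a b c d p q r s) x y =
      val a b c d (p * x + q * y) (r * x + s * y) := by
  simp only [val, cA, cB, cC, cD]
  ring

theorem disc_act (a b c d p q r s : R) :
    disc (cA a b c d p q r s) (cB a b c d p q r s) (cC a b c d p q r s) (cD a b c d p q r s) =
      (p * s - q * r) ^ 6 * disc a b c d := by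
  simp only [val, cA, cB, cC, cD, disc]
  ring

end Forms

open scoped Pointwise

theorem unit_cases {u : Eis} (hu : IsUnit u) :
    u = 1 ∨ u = -1 ∨ u = om ∨ u = -om ∨ u = om ^ 2 ∨ u = -om ^ 2 := by
  rw [eis_isUnit_iff, norm_eq] at hu
  have h1 : u.im ^ 2 ≤ 1 := by nlinarith [sq_nonneg (2 * u.re - u.im)]
  have h2 : u.re ^ 2 ≤ 1 := by nlinarith [sq_nonneg (2 * u.im - u.re)]
  have h3 : -1 ≤ u.im ∧ u.im ≤ 1 := abs_le.1 (by
    rw [← sq_le_one_iff_abs_le_one]; exact h1)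
  have h4 : -1 ≤ u.re ∧ u.re ≤ 1 := abs_le.1 (by
    rw [← sq_le_one_iff_abs_le_one]; exact h2)
  obtain ⟨x, y⟩ := u
  simp only at hu h3 h4
  obtain ⟨h5, h6⟩ := h3
  obtain ⟨h7, h8⟩ := h4
  interval_cases x <;> interval_cases y <;> first | (exfalso; norm_num at hu; done) | decide

theorem unit_six {u : Eis} (hu : IsUnit u) : u ^ 6 = 1 := by
  rcases unit_cases hu with h | h | h | h | h | h <;> subst h <;> decide

/-- `4`-tuples of Eisenstein integers: the binary cubic forms over `ℤ[ω]`. -/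
abbrev O4 := Eis × Eis × Eis × Eis

/-- `4`-tuples of complex numbers: the binary cubic forms over `ℂ`. -/
abbrev V4 := ℂ × ℂ × ℂ × ℂ

/-- the embedding -/
noncomputable def emb4 (g : O4) : V4 := (emb g.1, emb g.2.1, emb g.2.2.1, emb g.2.2.2)

/-- `4`-tuples of residues modulo `n` (a residue of `u + v ω` is `(u, v)`) -/
abbrev Z4 (n : ℕ) :=
  (ZMod n × ZMod n) × (ZMod n × ZMod n) × (ZMod n × ZMod n) × (ZMod n × ZMod n)

/-- the residue modulo `n` -/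
def res (n : ℕ) (x : Eis) : ZMod n × ZMod n := ((x.re : ZMod n), (x.im : ZMod n))

/-- the residue of a form modulo `n` -/
def res4 (n : ℕ) (g : O4) : Z4 n := (res n g.1, res n g.2.1, res n g.2.2.1, res n g.2.2.2)

/-- The reduced parametrisation: the form is `a ∏ (x - r_i y)` with
`r_i = z + ω^i A + ω^(-i) B`, and the Hermitian form of the roots is reduced. -/
def Par (a b c d z A B : ℂ) : Prop :=
  b = -3 * a * z ∧ c = a * (3 * z ^ 2 - 3 * (A * B)) ∧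
    d = a * (-z ^ 3 + 3 * z * (A * B) - A ^ 3 - B ^ 3) ∧
    (‖A‖ ^ 2 + ‖B‖ ^ 2) ^ 2 ≤ 3 / 2 * ‖A ^ 3 - B ^ 3‖ ^ 2 ∧ 2 / 3 ≤ ‖A‖ ^ 2 + ‖B‖ ^ 2

/-- the closed fundamental rectangle of `ℤ[ω]` -/
def Rec : Set ℂ := {z | 0 ≤ z.re ∧ z.re ≤ 1 ∧ 0 ≤ z.im ∧ z.im ≤ √3 / 2}

/-- the region of the reduced forms with `|disc| ≤ s ^ 4` -/
def Reg (s : ℝ) : Set V4 :=
  {v | v.1 ≠ 0 ∧ ∃ z A B : ℂ, z ∈ Rec ∧ Par v.1 v.2.1 v.2.2.1 v.2.2.2 z A B ∧
    27 * ‖v.1‖ ^ 4 * ‖A ^ 3 - B ^ 3‖ ^ 2 ≤ s ^ 4}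

/-- the region of discriminant `≤ 1` in absolute value and leading coefficient `≥ ε` -/
def RegC (ε : ℝ) : Set V4 := {v | v ∈ Reg 1 ∧ ε ≤ ‖v.1‖}

/-- the fibre of `(p, q)` of the reduced forms with leading coefficient `a` and `|disc| ≤ 1` -/
def PQ (a : ℂ) : Set (ℂ × ℂ) :=
  {v | ∃ A B : ℂ, v.1 = -3 * a * (A * B) ∧ v.2 = -a * (A ^ 3 + B ^ 3) ∧
    (‖A‖ ^ 2 + ‖B‖ ^ 2) ^ 2 ≤ 3 / 2 * ‖A ^ 3 - B ^ 3‖ ^ 2 ∧ 2 / 3 ≤ ‖A‖ ^ 2 + ‖B‖ ^ 2 ∧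
    27 * ‖a‖ ^ 4 * ‖A ^ 3 - B ^ 3‖ ^ 2 ≤ 1}

/-- the domain of the parameters `(A, w)`, `B = A w` -/
def Om : Set (ℂ × ℂ) :=
  {x | |Complex.arg x.1| ≤ Real.pi / 3 ∧ ‖x.2‖ ≤ 1 ∧
    (1 + ‖x.2‖ ^ 2) ^ 2 ≤ 3 / 2 * ‖x.1‖ ^ 2 * ‖1 - x.2 ^ 3‖ ^ 2}

/-- the Jacobian, cut off at `|disc| ≤ 1` -/
noncomputable def jac (a : ℂ) (x : ℂ × ℂ) : ENNReal :=
  if 27 * ‖a‖ ^ 4 * ‖x.1‖ ^ 6 * ‖1 - x.2 ^ 3‖ ^ 2 ≤ 1 then
    ENNReal.ofReal (81 * ‖a‖ ^ 4 * ‖x.1‖ ^ 8 * ‖1 - x.2 ^ 3‖ ^ 2) else 0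

/-- the number of `D` -/
def SB (X : ℕ) : Set Eis := {D | Cl D ∧ HasForm D ∧ D.norm ≤ X}

end JC
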