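import Pool.Agent.JC.Base

/-!
# [JC] residues of forms
-/

set_option autoImplicit false

namespace JC

open CM27 CU JZ

/-- `ℤ[ω] / n` -/
abbrev QA (n : ℕ) := QuadraticAlgebra (ZMod n) (-1) (-1)

instance (n : ℕ) [NeZero n] : Fintype (QA n) :=
  Fintype.ofEquiv (ZMod n × ZMod n) (QuadraticAlgebra.equivProd (-1 : ZMod n) (-1)).symm

/-- reduction modulo `n` -/
def rd (n : ℕ) : Eis →+* QA n where
  toFun x := ⟨(x.re : ZMod n), (x.im : ZMod n)⟩
  map_one' := by
    apply QuadraticAlgebra.ext <;> simp [QuadraticAlgebra.re_one, QuadraticAlgebra.im_one]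
  map_mul' x y := by
    apply QuadraticAlgebra.ext
    · simp only [QuadraticAlgebra.re_mul]
      push_cast
      ring
    · simp only [QuadraticAlgebra.im_mul]
      push_cast
      ring
  map_zero' := by
    apply QuadraticAlgebra.ext <;> simp
  map_add' x y := by
    apply QuadraticAlgebra.ext <;> simp

/-- forget the ring structure -/
def toZ (n : ℕ) (v : QA n × QA n × QA n × QA n) : Z4 n :=
  ((v.1.re, v.1.im), (v.2.1.re, v.2.1.im), (v.2.2.1.re, v.2.2.1.im), (v.2.2.2.re, v.2.2.2.im))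

/-- the reduction of a form -/
def rd4 (n : ℕ) (g : O4) : QA n × QA n × QA n × QA n :=
  (rd n g.1, rd n g.2.1, rd n g.2.2.1, rd n g.2.2.2)

theorem res4_eq (n : ℕ) (g : O4) : res4 n g = toZ n (rd4 n g) := rfl

/-- the shift `x ↦ x + t y` -/
def sh {R : Type*} [CommRing R] (t : R) (v : R × R × R × R) : R × R × R × R :=
  (v.1, v.2.1 + 3 * v.1 * t, v.2.2.1 + 2 * v.2.1 * t + 3 * v.1 * t ^ 2,
    v.2.2.2 + v.2.2.1 * t + v.2.1 * t ^ 2 + v.1 * t ^ 3)

theorem sh_sh {R : Type*} [CommRing R] (t : R) (v : R × R × R × R) : sh (-t) (sh t v) = v := by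
  obtain ⟨a, b, c, d⟩ := v
  simp only [sh, Prod.mk.injEq]
  refine ⟨trivial, ?_, ?_, ?_⟩ <;> ring

/-- exchange of `x` and `y` -/
def rv {R : Type*} (v : R × R × R × R) : R × R × R × R := (v.2.2.2, v.2.2.1, v.2.1, v.1)

theorem rv_rv {R : Type*} (v : R × R × R × R) : rv (rv v) = v := rfl

theorem sh_rd4 (n : ℕ) (t : Eis) (g : O4) : sh (rd n t) (rd4 n g) = rd4 n (sh t g) := by
  simp only [sh, rd4, map_add, map_mul, map_pow, map_ofNat]

theorem disc_sh {R : Type*} [CommRing R] (t a b c d : R) :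
    disc (sh t (a, b, c, d)).1 (sh t (a, b, c, d)).2.1 (sh t (a, b, c, d)).2.2.1
      (sh t (a, b, c, d)).2.2.2 = disc a b c d := by
  simp only [sh, disc]
  ring

theorem disc_rv {R : Type*} [CommRing R] (a b c d : R) : disc d c b a = disc a b c d := by
  simp only [disc]
  ring

theorem rd_dvd (n : ℕ) (x : Eis) : rd n x = 0 ↔ (n : Eis) ∣ x := by
  constructor
  · intro h
    have h1 : ((x.re : ZMod n) : ZMod n) = 0 := congrArg QuadraticAlgebra.re h
    have h2 : ((x.im : ZMod n) : ZMod n) = 0 := congrArg QuadraticAlgebra.im h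
    rw [ZMod.intCast_zmod_eq_zero_iff_dvd] at h1 h2
    obtain ⟨u, hu⟩ := h1
    obtain ⟨v, hv⟩ := h2
    refine ⟨⟨u, v⟩, ?_⟩
    have e1 : ((n : Eis)).re = n := by simp
    have e2 : ((n : Eis)).im = 0 := by simp
    apply QuadraticAlgebra.ext
    · rw [QuadraticAlgebra.re_mul, e1, e2, hu]
      ring
    · rw [QuadraticAlgebra.im_mul, e1, e2, hv]
      ring
  · rintro ⟨k, rfl⟩
    rw [map_mul, map_natCast]
    have : ((n : ℕ) : QA n) = 0 := by
      apply QuadraticAlgebra.ext <;> simp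
    rw [this, zero_mul]

end JC
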