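import Pool.Agent.JC.C1
import Pool.Agent.JC.T0

/-!
# [JC] counting the `D`: residue classes
-/

set_option autoImplicit false

namespace JC

open CM27 CU JZ

theorem res_surj (n : ℕ) [NeZero n] (c : ZMod n × ZMod n) : ∃ r : Eis, res n r = c := by
  refine ⟨⟨(c.1.val : ℤ), (c.2.val : ℤ)⟩, ?_⟩
  simp [res]

theorem res_iff (n : ℕ) (x y : Eis) : res n x = res n y ↔ (n : Eis) ∣ x - y := by
  have h : res n x = res n y ↔ rd n x = rd n y := by
    constructor
    · intro h
      simp only [res, Prod.mk.injEq] at h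
      exact QuadraticAlgebra.ext h.1 h.2
    · intro h
      exact Prod.ext (congrArg QuadraticAlgebra.re h) (congrArg QuadraticAlgebra.im h)
  rw [h, ← sub_eq_zero, ← map_sub, rd_dvd]

/-- C1: a residue class modulo `36` and the multiples of `m` -/
theorem count_res (c : ZMod 36 × ZMod 36) (m : Eis) (hm : IsCoprime m 36) : ∃ C : ℝ, ∀ X : ℕ,
    {x : Eis | res 36 x = c ∧ m ∣ x ∧ x.norm ≤ X}.Finite ∧
    |({x : Eis | res 36 x = c ∧ m ∣ x ∧ x.norm ≤ X}.ncard : ℝ) -
      2 * Real.pi / √3 * X / (1296 * m.norm)| ≤ C * (√X + 1) := by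
  have hdom := eis_isDomain
  refine ⟨10, fun X => ⟨(norm_fin X).subset fun x hx => hx.2.2, ?_⟩⟩
  obtain ⟨r, rfl⟩ := res_surj 36 c
  obtain ⟨u, v, huv⟩ := hm
  have hm0 : m ≠ 0 := by
    rintro rfl
    rw [mul_zero, zero_add] at huv
    have h2 : IsUnit (36 : Eis) := IsUnit.of_mul_eq_one v (by rw [mul_comm]; exact huv)
    rw [eis_isUnit_iff] at h2
    revert h2
    decide
  set r' : Eis := r * u * m with hr'
  have hem : emb m ≠ 0 := fun h => hm0 (emb_injective (by rw [h, map_zero]))
  have hm1 : 0 < ‖emb m‖ := norm_pos_iff.2 hem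
  have hmN := norm_one_le hm0
  set κ : ℂ := -emb r' / (36 * emb m) with hκ
  set R : ℝ := √X / (36 * ‖emb m‖) with hR
  have hR0 : 0 ≤ R := by positivity
  have hR2 : R ^ 2 = X / (1296 * m.norm) := by
    rw [hR, div_pow, mul_pow, norm_emb_sq, Real.sq_sqrt (Nat.cast_nonneg _)]
    norm_num
  have hset : {x : Eis | res 36 x = res 36 r ∧ m ∣ x ∧ x.norm ≤ X} =
      (fun y => r' + 36 * m * y) '' {y : Eis | ‖emb y - κ‖ ≤ R} := by
    have hnorm : ∀ y : Eis, ‖emb (r' + 36 * m * y)‖ = 36 * ‖emb m‖ * ‖emb y - κ‖ := fun y => by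
      have : emb (r' + 36 * m * y) = 36 * emb m * (emb y - κ) := by
        have e1 : emb (36 * m * y) = 36 * emb m * emb y := by rw [map_mul, map_mul, map_ofNat]
        rw [hκ, map_add, e1]
        field_simp
        ring
      rw [this, norm_mul, norm_mul]
      norm_num
    ext x
    constructor
    · rintro ⟨h1, ⟨y, rfl⟩, h3⟩
      rw [res_iff] at h1
      obtain ⟨z, hz⟩ := h1
      have hz' : m * y - r = 36 * z := by exact_mod_cast hz
      refine ⟨v * y + u * z, ?_, ?_⟩
      · have e : m * y = r' + 36 * m * (v * y + u * z) := by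
          rw [hr']
          linear_combination -(m * y) * huv + u * m * hz'
        rw [norm_le_iff, e, hnorm] at h3
        show ‖emb (v * y + u * z) - κ‖ ≤ R
        rw [hR, le_div_iff₀ (by positivity), mul_comm]
        exact h3
      · show r' + 36 * m * (v * y + u * z) = m * y
        rw [hr']
        linear_combination (m * y) * huv - u * m * hz'
    · rintro ⟨y, hy, rfl⟩
      refine ⟨?_, ?_, ?_⟩
      · rw [res_iff]
        refine ⟨m * y - v * r, ?_⟩
        rw [hr']
        push_cast
        linear_combination r * huv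
      · exact ⟨r * u + 36 * y, by rw [hr']; ring⟩
      · rw [norm_le_iff, hnorm]
        have hy' : ‖emb y - κ‖ ≤ R := hy
        rw [hR, le_div_iff₀ (by positivity), mul_comm] at hy'
        exact hy'
  rw [hset, Set.ncard_image_of_injective]
  · have h1 := (disc_count κ R hR0).2
    rw [hR2] at h1
    have h2 : R ≤ √X := by
      rw [hR]
      apply div_le_self (Real.sqrt_nonneg _)
      have : 1 ≤ ‖emb m‖ ^ 2 := by rw [norm_emb_sq]; exact hmN
      nlinarith
    have e : 2 * Real.pi / √3 * X / (1296 * m.norm) =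
        2 * Real.pi / √3 * (X / (1296 * m.norm)) := by ring
    rw [e]
    exact h1.trans (by linarith)
  · intro y y' h
    simp only at h
    have h2 : 36 * m * y = 36 * m * y' := add_left_cancel h
    exact mul_left_cancel₀ (mul_ne_zero (by decide) hm0) h2

end JC
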