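import Pool.Agent.JC.C3

/-!
# [JC] primes whose square divides an element of the class; sums over primes
-/

set_option autoImplicit false

namespace JC

open CM27 CU JZ

theorem two_prime : Prime (2 : Eis) := by
  refine ⟨by decide, ?_, ?_⟩
  · rw [eis_isUnit_iff]
    decide
  · intro a b h
    have h1 : rd 2 a * rd 2 b = 0 := by
      rw [← map_mul, rd_dvd]
      exact_mod_cast h
    have h2 : ∀ x y : QA 2, x * y = 0 → x = 0 ∨ y = 0 := by decide
    rcases h2 _ _ h1 with h3 | h3
    · exact Or.inl (by exact_mod_cast (rd_dvd 2 a).1 h3)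
    · exact Or.inr (by exact_mod_cast (rd_dvd 2 b).1 h3)

theorem la_prime' : Prime (la : Eis) :=
  a3_prime_of_norm 3 (by norm_num) la (by decide)

theorem class_prime (D p : Eis) (h1 : CondLa D) (h2 : CondTwo D) (hp : Prime p) (hd : p ^ 2 ∣ D) :
    IsCoprime p 6 := by
  have hdom := eis_isDomain
  have hpid := eis_pid
  rw [Prime.coprime_iff_not_dvd hp]
  intro h6
  have h6' : (6 : Eis) = 2 * (-om ^ 2 * la ^ 2) := by decide
  rw [h6'] at h6
  rcases hp.dvd_or_dvd h6 with h | h
  · have h3 : (2 : Eis) ∣ p := (hp.associated_of_dvd two_prime h).symm.dvd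
    refine h2 0 ?_
    have : (2 : Eis) ^ 2 ∣ D := (pow_dvd_pow_of_dvd h3 2).trans hd
    rw [show (0 : Eis) ^ 2 = 0 by ring, sub_zero]
    have e : (2 : Eis) ^ 2 = 4 := by norm_num
    rwa [e] at this
  · have h3 : p ∣ la := by
      rcases hp.dvd_or_dvd h with h | h
      · exfalso
        apply hp.not_isUnit
        refine isUnit_of_dvd_unit h ?_
        rw [eis_isUnit_iff]
        decide
      · exact hp.dvd_of_dvd_pow h
    have h4 : (la : Eis) ∣ p := (hp.associated_of_dvd la_prime' h3).symm.dvd
    have h5 : (la : Eis) ∣ D := (h4.trans (dvd_pow_self p two_ne_zero)).trans hd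
    obtain ⟨η, hη, ⟨k, hk⟩, -⟩ := h1
    have h7 : (la : Eis) ∣ η := by
      have e : η = D - 3 * k := by rw [← hk]; ring
      rw [e]
      refine dvd_sub h5 ?_
      have e3 : (3 : Eis) = la * (-om ^ 2 * la) := by decide
      rw [e3, mul_assoc]
      exact dvd_mul_right _ _
    apply la_prime'.not_isUnit
    refine isUnit_of_dvd_unit h7 ?_
    rcases hη with rfl | rfl
    · exact isUnit_one
    · exact isUnit_one.neg

end JC
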