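import Pool.Agent.JC.C4

/-!
# [JC] sums of `1 / N(x)²`
-/

set_option autoImplicit false

namespace JC

open CM27 CU JZ

/-- the maximum norm -/
def mx (x : Eis) : ℕ := max x.re.natAbs x.im.natAbs

theorem mx_norm (x : Eis) : 3 / 4 * (mx x : ℝ) ^ 2 ≤ (x.norm : ℝ) := by
  have hnR : (x.norm : ℝ) = (x.re : ℝ) ^ 2 - x.re * x.im + (x.im : ℝ) ^ 2 := by
    rw [norm_eq]
    push_cast
    ring
  rw [hnR, mx]
  rcases le_total x.re.natAbs x.im.natAbs with h | h
  · rw [max_eq_right h, Nat.cast_natAbs]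
    push_cast
    rw [sq_abs]
    nlinarith [sq_nonneg (2 * (x.re : ℝ) - x.im)]
  · rw [max_eq_left h, Nat.cast_natAbs]
    push_cast
    rw [sq_abs]
    nlinarith [sq_nonneg (2 * (x.im : ℝ) - x.re)]

/-- the box -/
noncomputable def bx (m : ℕ) : Finset (ℤ × ℤ) := Finset.Icc (-(m : ℤ)) m ×ˢ Finset.Icc (-(m : ℤ)) m

theorem bx_card (m : ℕ) : (bx m).card = (2 * m + 1) ^ 2 := by
  rw [bx, Finset.card_product, Int.card_Icc, sq]
  congr 1 <;> omega

theorem mem_bx (m : ℕ) (x : Eis) : (x.re, x.im) ∈ bx m ↔ mx x ≤ m := by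
  rw [bx, Finset.mem_product, Finset.mem_Icc, Finset.mem_Icc, mx, max_le_iff]
  dsimp only
  omega

/-- the shells -/
theorem shell (m : ℕ) (hm : 1 ≤ m) (S : Finset Eis) (hS : ∀ x ∈ S, mx x = m) : S.card ≤ 8 * m := by
  have h1 : S.card ≤ (bx m \ bx (m - 1)).card := by
    refine Finset.card_le_card_of_injOn (fun x => (x.re, x.im)) (fun x hx => ?_) ?_
    · refine Finset.mem_coe.2 (Finset.mem_sdiff.2 ⟨(mem_bx m x).2 (hS x hx).le, fun h => ?_⟩)
      have := (mem_bx (m - 1) x).1 h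
      have := hS x hx
      omega
    · intro x _ y _ h
      simp only [Prod.mk.injEq] at h
      exact QuadraticAlgebra.ext h.1 h.2
  have h2 : bx (m - 1) ⊆ bx m := by
    intro p hp
    rw [bx, Finset.mem_product, Finset.mem_Icc, Finset.mem_Icc] at hp ⊢
    omega
  rw [Finset.card_sdiff_of_subset h2, bx_card, bx_card] at h1
  obtain ⟨k, rfl⟩ : ∃ k, m = k + 1 := ⟨m - 1, by omega⟩
  rw [Nat.add_sub_cancel] at h1
  have : (2 * (k + 1) + 1) ^ 2 - (2 * k + 1) ^ 2 = 8 * (k + 1) := by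
    have : (2 * (k + 1) + 1) ^ 2 = (2 * k + 1) ^ 2 + 8 * (k + 1) := by ring
    omega
  omega

/-- outside a box -/
theorem sum_shell (k : ℕ) (hk : 1 ≤ k) (S : Finset Eis) (hS : ∀ x ∈ S, k < mx x) :
    ∑ x ∈ S, (1 : ℝ) / (x.norm : ℝ) ^ 2 ≤ 64 / 9 / (k * (k + 1)) := by
  classical
  set M : ℕ := S.sup mx with hM
  have hmaps : ∀ x ∈ S, mx x ∈ Finset.Ico (k + 1) (M + 1) := fun x hx => by
    rw [Finset.mem_Ico]
    exact ⟨hS x hx, Nat.lt_succ_of_le (Finset.le_sup hx)⟩
  rw [← Finset.sum_fiberwise_of_maps_to hmaps]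
  have h1 : ∀ m ∈ Finset.Ico (k + 1) (M + 1), ∑ x ∈ S with mx x = m, (1 : ℝ) / (x.norm : ℝ) ^ 2 ≤
      64 / 9 * (1 / (((m - 1 : ℕ) : ℝ) * m) - 1 / ((m : ℝ) * (m + 1))) := by
    intro m hm
    rw [Finset.mem_Ico] at hm
    have hm2 : 2 ≤ m := by omega
    have hm0 : (2 : ℝ) ≤ m := by exact_mod_cast hm2
    have h2 : ∀ x ∈ S.filter (fun x => mx x = m), (1 : ℝ) / (x.norm : ℝ) ^ 2 ≤ 16 / 9 / (m : ℝ) ^ 4 := by
      intro x hx
      have h3 := mx_norm x
      rw [(Finset.mem_filter.1 hx).2] at h3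
      have h4 : (3 / 4 * (m : ℝ) ^ 2) ^ 2 ≤ (x.norm : ℝ) ^ 2 := pow_le_pow_left₀ (by positivity) h3 2
      rw [div_le_div_iff₀ (by
        have : 0 < 3 / 4 * (m : ℝ) ^ 2 := by positivity
        have := this.trans_le h3
        positivity) (by positivity)]
      nlinarith
    have h3 := Finset.sum_le_card_nsmul _ _ _ h2
    have h4 : ((S.filter fun x => mx x = m).card : ℝ) ≤ 8 * m := by
      exact_mod_cast shell m (by omega) _ fun x hx => (Finset.mem_filter.1 hx).2
    refine h3.trans ?_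
    rw [nsmul_eq_mul]
    have e : ((m - 1 : ℕ) : ℝ) = (m : ℝ) - 1 := by
      rw [Nat.cast_sub (by omega), Nat.cast_one]
    rw [e]
    calc ((S.filter fun x => mx x = m).card : ℝ) * (16 / 9 / (m : ℝ) ^ 4) ≤
          8 * m * (16 / 9 / (m : ℝ) ^ 4) := by gcongr
      _ = 64 / 9 * (2 / (m : ℝ) ^ 3) := by
        field_simp
        ring
      _ ≤ 64 / 9 * (1 / (((m : ℝ) - 1) * m) - 1 / ((m : ℝ) * (m + 1))) := by
        have h5 : (0 : ℝ) < (m : ℝ) - 1 := by linarith
        have h6 : 1 / (((m : ℝ) - 1) * m) - 1 / ((m : ℝ) * (m + 1)) =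
            2 / (((m : ℝ) - 1) * m * (m + 1)) := by
          field_simp
          ring
        rw [h6]
        gcongr
        nlinarith
  refine (Finset.sum_le_sum h1).trans ?_
  rw [← Finset.mul_sum]
  have h2 : ∀ n : ℕ, k ≤ n → ∑ m ∈ Finset.Ico (k + 1) (n + 1), (1 / (((m - 1 : ℕ) : ℝ) * m) -
      1 / ((m : ℝ) * (m + 1))) = 1 / ((k : ℝ) * (k + 1)) - 1 / ((n : ℝ) * (n + 1)) := by
    intro n hn
    induction n, hn using Nat.le_induction with
    | base => simp
    | succ n hn ih =>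
      rw [Finset.sum_Ico_succ_top (by omega), ih]
      push_cast
      ring
  have hk0 : (1 : ℝ) ≤ k := by exact_mod_cast hk
  rcases le_total k M with h | h
  · rw [h2 M h]
    have : (0 : ℝ) ≤ 1 / ((M : ℝ) * (M + 1)) := by positivity
    have e : (64 : ℝ) / 9 / (k * (k + 1)) = 64 / 9 * (1 / ((k : ℝ) * (k + 1))) := by ring
    rw [e]
    gcongr
    linarith
  · rw [Finset.Ico_eq_empty (by omega), Finset.sum_empty, mul_zero]
    positivity

/-! ### the box `30` -/

/-- sum of a function over `{0, …, n - 1}` -/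
def sN (f : ℕ → ℕ) : ℕ → ℕ
  | 0 => 0
  | n + 1 => sN f n + f n

theorem sN_eq (f : ℕ → ℕ) (n : ℕ) : sN f n = ∑ i ∈ Finset.range n, f i := by
  induction n with
  | zero => rfl
  | succ n ih => rw [sN, ih, Finset.sum_range_succ]

/-- a necessary condition for a norm of a prime prime to `6` -/
def okp (n : ℕ) : Bool :=
  n % 2 != 0 && n % 3 != 0 && n != 1 &&
    [5, 7, 11, 13, 17, 19, 23, 29, 31, 37, 41, 43, 47].all fun d => n % d != 0 || n == d || n == d * d

/-- the summand -/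
def gN (i j : ℕ) : ℕ :=
  let n := (i * i + j * j + 900) - (i * j + 30 * (i + j))
  if okp n then 10 ^ 8 / (n * n) + 1 else 0

theorem gN_sum : sN (fun i => sN (fun j => gN i j) 61) 61 = 41610448 := by decide +kernel

/-- the norm of a prime is a prime or the square of a prime -/
theorem prime_norm {p : Eis} (hp : Prime p) : ∃ l : ℕ, l.Prime ∧ (p.norm = l ∨ p.norm = (l : ℤ) ^ 2) := by
  have hdom := eis_isDomain
  have hnn := norm_nonneg' p
  set N : ℕ := p.norm.toNat with hN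
  have hNe : (N : ℤ) = p.norm := Int.toNat_of_nonneg hnn
  have h1 : p ∣ ((N : ℕ) : Eis) := by
    refine ⟨star p, ?_⟩
    have h2 := QuadraticAlgebra.algebraMap_norm_eq_mul_star p
    rw [← h2, ← hNe]
    simp
  have hN0 : N ≠ 0 := by
    intro h0
    rw [h0] at hNe
    exact hp.ne_zero (a2_norm_zero hNe.symm)
  have h2 : ∃ l : ℕ, l.Prime ∧ p ∣ ((l : ℕ) : Eis) := by
    have key : ∀ n : ℕ, n ≠ 0 → p ∣ ((n : ℕ) : Eis) → ∃ l : ℕ, l.Prime ∧ p ∣ ((l : ℕ) : Eis) := by
      intro n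
      induction n using Nat.recOnMul with
      | zero => intro h; exact absurd rfl h
      | one =>
        intro _ h
        rw [Nat.cast_one] at h
        exact absurd (isUnit_of_dvd_one h) hp.not_isUnit
      | prime q hq => intro _ h; exact ⟨q, hq, h⟩
      | mul a b iha ihb =>
        intro h0 h
        rw [Nat.cast_mul] at h
        rcases hp.dvd_or_dvd h with h | h
        · exact iha (fun h1 => h0 (by rw [h1, zero_mul])) h
        · exact ihb (fun h1 => h0 (by rw [h1, mul_zero])) h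
    exact key N hN0 h1
  obtain ⟨l, hl, k, hk⟩ := h2
  refine ⟨l, hl, ?_⟩
  have h3 : p.norm * k.norm = (l : ℤ) ^ 2 := by
    rw [← map_mul, ← hk, norm_eq]
    simp
  have hkn := norm_nonneg' k
  have h4 : p.norm.natAbs ∣ l ^ 2 := by
    refine ⟨k.norm.natAbs, ?_⟩
    have := congrArg Int.natAbs h3
    rw [Int.natAbs_mul, Int.natAbs_pow, Int.natAbs_natCast] at this
    exact this.symm
  obtain ⟨j, hj, hj2⟩ := (Nat.dvd_prime_pow hl).1 h4
  have h5 : (p.norm.natAbs : ℤ) = p.norm := by omega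
  interval_cases j
  · exfalso
    rw [pow_zero] at hj2
    apply hp.not_isUnit
    rw [eis_isUnit_iff]
    omega
  · left
    rw [pow_one] at hj2
    rw [← h5, hj2]
  · right
    rw [← h5, hj2, Nat.cast_pow]

theorem coprime_six {p : Eis} (hp : Prime p) (h6 : IsCoprime p 6) : p.norm % 2 ≠ 0 ∧ p.norm % 3 ≠ 0 := by
  have hdom := eis_isDomain
  have hpid := eis_pid
  rw [Prime.coprime_iff_not_dvd hp] at h6
  obtain ⟨l, hl, h⟩ := prime_norm hp
  have h1 : p ∣ ((l : ℕ) : Eis) := by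
    have h2 := QuadraticAlgebra.algebraMap_norm_eq_mul_star p
    rcases h with h | h
    · refine ⟨star p, ?_⟩
      rw [← h2, h]
      simp
    · have h3 : p ∣ ((l : ℕ) : Eis) ^ 2 := by
        refine ⟨star p, ?_⟩
        rw [← h2, h]
        simp
      exact hp.dvd_of_dvd_pow h3
  have key : ∀ q : ℕ, q.Prime → q ∣ 6 → p.norm % q ≠ 0 := by
    intro q hq hq6 h0
    have h2 : (q : ℤ) ∣ p.norm := Int.dvd_of_emod_eq_zero h0
    have h3 : q ∣ l := by
      rcases h with h | h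
      · rw [h] at h2
        exact_mod_cast h2
      · rw [h] at h2
        have : q ∣ l ^ 2 := by exact_mod_cast h2
        exact hq.dvd_of_dvd_pow this
    have h4 : q = l := (Nat.prime_dvd_prime_iff_eq hq hl).1 h3
    subst h4
    apply h6
    obtain ⟨t, ht⟩ := hq6
    refine h1.trans ⟨(t : Eis), ?_⟩
    have : ((6 : ℕ) : Eis) = (q : Eis) * (t : Eis) := by rw [ht]; push_cast; rfl
    exact_mod_cast this
  exact ⟨key 2 Nat.prime_two (by norm_num), key 3 Nat.prime_three (by norm_num)⟩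

theorem okp_of_prime {p : Eis} (hp : Prime p) (h6 : IsCoprime p 6) {n : ℕ} (hn : p.norm = n) :
    okp n = true := by
  obtain ⟨h2, h3⟩ := coprime_six hp h6
  obtain ⟨l, hl, h⟩ := prime_norm hp
  rw [hn] at h2 h3 h
  have h' : n = l ∨ n = l * l := by
    rcases h with h | h
    · exact Or.inl (by exact_mod_cast h)
    · exact Or.inr (by rw [← sq]; exact_mod_cast h)
  have h1 : n ≠ 1 := by
    rintro rfl
    rcases h' with h | h
    · exact hl.one_lt.ne h
    · have := hl.one_lt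
      nlinarith
  have key : ∀ d : ℕ, d.Prime → n % d ≠ 0 ∨ n = d ∨ n = d * d := by
    intro d hd
    by_cases h0 : n % d = 0
    · right
      have h4 : d ∣ n := Nat.dvd_of_mod_eq_zero h0
      rcases h' with h | h
      · rw [h] at h4 ⊢
        exact Or.inl ((Nat.prime_dvd_prime_iff_eq hd hl).1 h4).symm
      · rw [h] at h4 ⊢
        have h5 : d ∣ l := by
          rcases (hd.dvd_mul).1 h4 with h6 | h6 <;> exact h6
        have h6 : d = l := (Nat.prime_dvd_prime_iff_eq hd hl).1 h5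
        rw [h6]
        exact Or.inr rfl
    · exact Or.inl h0
  have h2' : n % 2 ≠ 0 := by omega
  have h3' : n % 3 ≠ 0 := by omega
  simp only [okp, Bool.and_eq_true, bne_iff_ne, ne_eq, List.all_cons, List.all_nil,
    Bool.or_eq_true, beq_iff_eq, and_true]
  refine ⟨⟨⟨h2', h3'⟩, h1⟩, ?_, ?_, ?_, ?_, ?_, ?_, ?_, ?_, ?_, ?_, ?_, ?_, ?_⟩ <;>
    rw [or_assoc] <;> exact key _ (by norm_num)

theorem img_sub [DecidableEq (ℕ × ℕ)] (T : Finset Eis) (φ : Eis → ℕ × ℕ) (n : ℕ)
    (h : ∀ x ∈ T, (φ x).1 < n ∧ (φ x).2 < n) :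
    T.image φ ⊆ Finset.range n ×ˢ Finset.range n :=
  Finset.image_subset_iff.2 fun x hx => Finset.mem_product.2
    ⟨Finset.mem_range.2 (h x hx).1, Finset.mem_range.2 (h x hx).2⟩

theorem sum_primes (S : Finset Eis) (hS : ∀ p ∈ S, Prime p ∧ IsCoprime p 6) :
    ∑ p ∈ S, (1 : ℝ) / (p.norm : ℝ) ^ 2 ≤ 429 / 1000 := by
  classical
  rw [← Finset.sum_filter_add_sum_filter_not S (fun x => 30 < mx x)]
  have h1 := sum_shell 30 (by norm_num) (S.filter fun x => 30 < mx x)
    (fun x hx => (Finset.mem_filter.1 hx).2)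
  have h2 : ∑ p ∈ S.filter (fun x => ¬ 30 < mx x), (1 : ℝ) / (p.norm : ℝ) ^ 2 ≤
      41610448 / 10 ^ 8 := by
    set T := S.filter (fun x => ¬ 30 < mx x) with hT
    set φ : Eis → ℕ × ℕ := fun x => ((x.re + 30).toNat, (x.im + 30).toNat) with hφ
    have hbox : ∀ x ∈ T, -30 ≤ x.re ∧ x.re ≤ 30 ∧ -30 ≤ x.im ∧ x.im ≤ 30 := by
      intro x hx
      have h3 := (Finset.mem_filter.1 hx).2
      rw [not_lt, mx, max_le_iff] at h3
      omega
    have hinj : Set.InjOn φ T := by
      intro x hx y hy h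
      have hx' := hbox x hx
      have hy' := hbox y hy
      simp only [hφ, Prod.mk.injEq] at h
      exact QuadraticAlgebra.ext (by omega) (by omega)
    have hterm : ∀ x ∈ T, (1 : ℝ) / (x.norm : ℝ) ^ 2 ≤ (gN (φ x).1 (φ x).2 : ℝ) / 10 ^ 8 := by
      intro x hx
      obtain ⟨b1, b2, b3, b4⟩ := hbox x hx
      obtain ⟨hp, h6⟩ := hS x (Finset.mem_filter.1 hx).1
      set i := (x.re + 30).toNat with hi
      set j := (x.im + 30).toNat with hj
      have hi' : (i : ℤ) = x.re + 30 := Int.toNat_of_nonneg (by omega)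
      have hj' : (j : ℤ) = x.im + 30 := Int.toNat_of_nonneg (by omega)
      set n : ℕ := (i * i + j * j + 900) - (i * j + 30 * (i + j)) with hn
      have hnn := norm_nonneg' x
      have hnorm : x.norm = n := by
        have h3 : x.norm = ((i * i + j * j + 900 : ℕ) : ℤ) - ((i * j + 30 * (i + j) : ℕ) : ℤ) := by
          rw [norm_eq]
          have e1 : x.re = i - 30 := by omega
          have e2 : x.im = j - 30 := by omega
          rw [e1, e2]
          push_cast
          ring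
        omega
      have hok := okp_of_prime hp h6 hnorm
      have hg : gN (φ x).1 (φ x).2 = 10 ^ 8 / (n * n) + 1 := by
        show gN i j = _
        unfold gN
        simp only [← hn, hok, if_true]
      rw [hg, hnorm]
      have hn0 : 0 < n := by
        rcases Nat.eq_zero_or_pos n with h | h
        · rw [h] at hok
          exact absurd hok (by decide)
        · exact h
      have hn0' : (0 : ℝ) < n := by exact_mod_cast hn0
      have h4 : 10 ^ 8 < (10 ^ 8 / (n * n) + 1) * (n * n) := by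
        have e1 := Nat.div_add_mod (10 ^ 8) (n * n)
        have e2 := Nat.mod_lt (10 ^ 8) (show 0 < n * n by positivity)
        calc 10 ^ 8 = n * n * (10 ^ 8 / (n * n)) + 10 ^ 8 % (n * n) := e1.symm
          _ < n * n * (10 ^ 8 / (n * n)) + n * n := Nat.add_lt_add_left e2 _
          _ = (10 ^ 8 / (n * n) + 1) * (n * n) := by ring
      have h5 : (10 : ℝ) ^ 8 ≤ ((10 ^ 8 / (n * n) + 1 : ℕ) : ℝ) * (n * n) := by exact_mod_cast h4.le
      rw [div_le_div_iff₀ (by positivity) (by positivity), one_mul]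
      push_cast at h5 ⊢
      rw [sq]
      exact h5
    have hsub : T.image φ ⊆ Finset.range 61 ×ˢ Finset.range 61 := by
      have e : ∀ x ∈ T, (φ x).1 < 61 ∧ (φ x).2 < 61 := by
        intro x hx
        have hb := hbox x hx
        simp only [hφ]
        constructor <;> omega
      exact img_sub T φ 61 e
    calc ∑ x ∈ T, (1 : ℝ) / (x.norm : ℝ) ^ 2 ≤ ∑ x ∈ T, (gN (φ x).1 (φ x).2 : ℝ) / 10 ^ 8 :=
          Finset.sum_le_sum hterm
      _ = (∑ x ∈ T, (gN (φ x).1 (φ x).2 : ℝ)) / 10 ^ 8 := by rw [Finset.sum_div]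
      _ = (∑ q ∈ T.image φ, (gN q.1 q.2 : ℝ)) / 10 ^ 8 := by
        rw [Finset.sum_image hinj]
      _ ≤ (∑ q ∈ Finset.range 61 ×ˢ Finset.range 61, (gN q.1 q.2 : ℝ)) / 10 ^ 8 := by
        exact div_le_div_of_nonneg_right (Finset.sum_le_sum_of_subset_of_nonneg hsub
          (fun _ _ _ => Nat.cast_nonneg _)) (by norm_num)
      _ = ((sN (fun i => sN (fun j => gN i j) 61) 61 : ℕ) : ℝ) / 10 ^ 8 := by
        rw [Finset.sum_product, sN_eq]
        simp only [sN_eq]
        push_cast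
        rfl
      _ = 41610448 / 10 ^ 8 := by
        rw [gN_sum]
        norm_num
  have h3 : (64 : ℝ) / 9 / ((30 : ℕ) * ((30 : ℕ) + 1)) + 41610448 / 10 ^ 8 ≤ 429 / 1000 := by
    norm_num
  linarith

end JC
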