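import Pool.Agent.JC.Base

/-!
# [JC] the rectangular cells of `ℤ[ω]` and the points of `ℤ[ω]` in a disc
-/

set_option autoImplicit false

namespace JC

open CM27 CU MeasureTheory

/-- The half open rectangle with the lower left corner `κ`, scaled by `k`. -/
def rect (k : ℝ) (κ : ℂ) : Set ℂ :=
  {z | κ.re ≤ z.re ∧ z.re < κ.re + k ∧ κ.im ≤ z.im ∧ z.im < κ.im + k * (√3 / 2)}

theorem sqrt3_pos : 0 < √3 := Real.sqrt_pos.2 (by norm_num)

theorem rect_eq (k : ℝ) (κ : ℂ) : rect k κ =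
    Complex.measurableEquivRealProd ⁻¹' (Set.Ico κ.re (κ.re + k) ×ˢ
      Set.Ico κ.im (κ.im + k * (√3 / 2))) := by
  ext z
  simp only [rect, Set.mem_preimage, Set.mem_prod, Complex.measurableEquivRealProd_apply,
    Set.mem_Ico, and_assoc]
  rfl

theorem rect_meas (k : ℝ) (κ : ℂ) : MeasurableSet (rect k κ) := by
  rw [rect_eq]
  exact Complex.measurableEquivRealProd.measurable (measurableSet_Ico.prod measurableSet_Ico)

theorem rect_vol (k : ℝ) (hk : 0 ≤ k) (κ : ℂ) :
    volume (rect k κ) = ENNReal.ofReal (k ^ 2 * (√3 / 2)) := by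
  rw [rect_eq, Complex.volume_preserving_equiv_real_prod.measure_preimage
    (measurableSet_Ico.prod measurableSet_Ico).nullMeasurableSet, Measure.volume_eq_prod,
    Measure.prod_prod, Real.volume_Ico, Real.volume_Ico, add_sub_cancel_left, add_sub_cancel_left,
    ← ENNReal.ofReal_mul hk]
  congr 1
  ring

/-- The cells of two integers are disjoint. -/
theorem rect_disj {k : ℝ} (hk : 0 < k) {x y : Eis} (κ : ℂ) {z : ℂ}
    (hx : z ∈ rect k (κ + k * emb x)) (hy : z ∈ rect k (κ + k * emb y)) : x = y := by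
  have h3 := sqrt3_pos
  obtain ⟨a1, a2, a3, a4⟩ := hx
  obtain ⟨b1, b2, b3, b4⟩ := hy
  have hre : ∀ v : Eis, (κ + k * emb v).re = κ.re + k * ((v.re : ℝ) - v.im / 2) := fun v => by
    rw [Complex.add_re, Complex.re_ofReal_mul, emb_re]
  have him : ∀ v : Eis, (κ + k * emb v).im = κ.im + k * (v.im * (√3 / 2)) := fun v => by
    rw [Complex.add_im, Complex.im_ofReal_mul, emb_im]
  rw [hre] at a1 a2 b1 b2
  rw [him] at a3 a4 b3 b4
  have hk3 : 0 < k * (√3 / 2) := by positivity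
  have h1 : (x.im : ℝ) < y.im + 1 := by
    have : k * (√3 / 2) * x.im < k * (√3 / 2) * (y.im + 1) := by nlinarith
    exact lt_of_mul_lt_mul_left this hk3.le
  have h2 : (y.im : ℝ) < x.im + 1 := by
    have : k * (√3 / 2) * y.im < k * (√3 / 2) * (x.im + 1) := by nlinarith
    exact lt_of_mul_lt_mul_left this hk3.le
  have h4 : x.im = y.im := by
    have h1' : x.im < y.im + 1 := by exact_mod_cast h1
    have h2' : y.im < x.im + 1 := by exact_mod_cast h2
    omega
  rw [h4] at a1 a2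
  have h5 : (x.re : ℝ) < y.re + 1 := by
    have : k * x.re < k * (y.re + 1) := by nlinarith
    exact lt_of_mul_lt_mul_left this hk.le
  have h6 : (y.re : ℝ) < x.re + 1 := by
    have : k * y.re < k * (x.re + 1) := by nlinarith
    exact lt_of_mul_lt_mul_left this hk.le
  have h7 : x.re = y.re := by
    have h1' : x.re < y.re + 1 := by exact_mod_cast h5
    have h2' : y.re < x.re + 1 := by exact_mod_cast h6
    omega
  exact QuadraticAlgebra.ext h7 h4

/-- The cells cover the plane. -/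
theorem rect_cover {k : ℝ} (hk : 0 < k) (κ z : ℂ) : ∃ x : Eis, z ∈ rect k (κ + k * emb x) := by
  have h3 := sqrt3_pos
  have hk3 : 0 < k * (√3 / 2) := by positivity
  set v : ℤ := ⌊(z.im - κ.im) / (k * (√3 / 2))⌋ with hv
  set u : ℤ := ⌊(z.re - κ.re) / k + v / 2⌋ with hu
  have v1 := Int.floor_le ((z.im - κ.im) / (k * (√3 / 2)))
  have v2 := Int.lt_floor_add_one ((z.im - κ.im) / (k * (√3 / 2)))
  have u1 := Int.floor_le ((z.re - κ.re) / k + v / 2)
  have u2 := Int.lt_floor_add_one ((z.re - κ.re) / k + v / 2)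
  rw [← hv] at v1 v2
  rw [← hu] at u1 u2
  rw [le_div_iff₀ hk3] at v1
  rw [div_lt_iff₀ hk3] at v2
  have e : (z.re - κ.re) / k * k = z.re - κ.re := by field_simp
  have u1' := mul_le_mul_of_nonneg_right u1 hk.le
  have u2' := mul_lt_mul_of_pos_right u2 hk
  rw [add_mul, e] at u1' u2'
  refine ⟨⟨u, v⟩, ?_, ?_, ?_, ?_⟩
  · rw [Complex.add_re, Complex.re_ofReal_mul, emb_re]
    dsimp only
    nlinarith
  · rw [Complex.add_re, Complex.re_ofReal_mul, emb_re]
    dsimp only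
    nlinarith
  · rw [Complex.add_im, Complex.im_ofReal_mul, emb_im]
    dsimp only
    nlinarith
  · rw [Complex.add_im, Complex.im_ofReal_mul, emb_im]
    dsimp only
    nlinarith

/-- The diameter of a cell. -/
theorem rect_norm {k : ℝ} (hk : 0 ≤ k) {κ z : ℂ} (hz : z ∈ rect k κ) : ‖z - κ‖ ≤ k * (√7 / 2) := by
  obtain ⟨a1, a2, a3, a4⟩ := hz
  have h3 := sqrt3_pos
  have h33 : √3 ^ 2 = 3 := Real.sq_sqrt (by norm_num)
  have h77 : √7 ^ 2 = 7 := Real.sq_sqrt (by norm_num)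
  have hsq : ‖z - κ‖ ^ 2 ≤ (k * (√7 / 2)) ^ 2 := by
    rw [Complex.sq_norm, Complex.normSq_apply, Complex.sub_re, Complex.sub_im, mul_pow, div_pow,
      h77]
    have h1 : (z.re - κ.re) * (z.re - κ.re) ≤ k * k := by
      apply mul_self_le_mul_self <;> linarith
    have h2 : (z.im - κ.im) * (z.im - κ.im) ≤ (k * (√3 / 2)) * (k * (√3 / 2)) := by
      apply mul_self_le_mul_self <;> linarith
    have h4 : (k * (√3 / 2)) * (k * (√3 / 2)) = k ^ 2 * (√3 ^ 2 / 4) := by ring
    rw [h4, h33] at h2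
    nlinarith
  exact le_of_sq_le_sq hsq (by positivity)

/-- Finitely many integers in a disc. -/
theorem disc_fin (κ : ℂ) (R : ℝ) : {x : Eis | ‖emb x - κ‖ ≤ R}.Finite := by
  have h3 := sqrt3_pos
  have h33 : √3 ^ 2 = 3 := Real.sq_sqrt (by norm_num)
  set B : ℝ := ‖κ‖ + |R| with hB
  have hB0 : 0 ≤ B := by positivity
  refine Set.Finite.of_finite_image (f := fun x : Eis => (x.re, x.im)) ?_ ?_
  · refine ((Set.finite_Icc (-⌈2 * B⌉) ⌈2 * B⌉).prod (Set.finite_Icc (-⌈2 * B⌉) ⌈2 * B⌉)).subset ?_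
    rintro _ ⟨x, hx, rfl⟩
    have h1 : ‖emb x‖ ≤ B := by
      calc ‖emb x‖ = ‖(emb x - κ) + κ‖ := by rw [sub_add_cancel]
        _ ≤ ‖emb x - κ‖ + ‖κ‖ := norm_add_le _ _
        _ ≤ |R| + ‖κ‖ := by
          have : ‖emb x - κ‖ ≤ R := hx
          linarith [le_abs_self R]
        _ = B := by ring
    have h2 : (x.norm : ℝ) ≤ B ^ 2 := by
      rw [← norm_emb_sq]
      exact pow_le_pow_left₀ (norm_nonneg _) h1 2
    rw [norm_eq] at h2
    push_cast at h2
    have h5 : |(x.im : ℝ)| ≤ 2 * B := by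
      apply abs_le_of_sq_le_sq _ (by positivity)
      nlinarith [sq_nonneg (2 * (x.re : ℝ) - x.im), sq_nonneg (x.im : ℝ)]
    have h6 : |(x.re : ℝ)| ≤ 2 * B := by
      apply abs_le_of_sq_le_sq _ (by positivity)
      nlinarith [sq_nonneg (2 * (x.im : ℝ) - x.re), sq_nonneg (x.re : ℝ)]
    have h7 : ∀ n : ℤ, |(n : ℝ)| ≤ 2 * B → -⌈2 * B⌉ ≤ n ∧ n ≤ ⌈2 * B⌉ := fun n hn => by
      obtain ⟨h8, h9⟩ := abs_le.1 hn
      have h10 := Int.le_ceil (2 * B)
      constructor
      · have : (-(⌈2 * B⌉ : ℤ) : ℝ) ≤ (n : ℝ) := by linarith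
        exact_mod_cast this
      · exact_mod_cast h9.trans h10
    exact ⟨h7 _ h6, h7 _ h5⟩
  · intro x _ y _ h
    simp only [Prod.mk.injEq] at h
    exact QuadraticAlgebra.ext h.1 h.2

theorem disc_vol (S : Finset Eis) : volume.real (⋃ x ∈ S, rect 1 (0 + (1 : ℝ) * emb x)) =
    S.card * (√3 / 2) := by
  rw [measureReal_biUnion_finset (fun x hx y hy hxy => ?_) (fun x _ => rect_meas _ _)
    (fun x _ => ?_)]
  · rw [Finset.sum_congr rfl (fun x _ => show volume.real (rect 1 (0 + (1 : ℝ) * emb x)) = √3 / 2 by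
      rw [measureReal_def, rect_vol 1 (by norm_num), one_pow, one_mul,
        ENNReal.toReal_ofReal (by positivity)]), Finset.sum_const, nsmul_eq_mul]
  · exact Set.disjoint_left.2 fun z hz1 hz2 => hxy (rect_disj one_pos 0 hz1 hz2)
  · rw [rect_vol 1 (by norm_num)]
    exact ENNReal.ofReal_ne_top

theorem ball_vol (κ : ℂ) (R : ℝ) (hR : 0 ≤ R) :
    volume.real (Metric.closedBall κ R) = Real.pi * R ^ 2 := by
  rw [measureReal_def, Complex.volume_closedBall, ENNReal.toReal_mul, ENNReal.toReal_pow,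
    ENNReal.toReal_ofReal hR, ENNReal.coe_toReal, NNReal.coe_real_pi]
  ring

/-- The number of the points of `ℤ[ω]` in a disc. -/
theorem disc_count (κ : ℂ) (R : ℝ) (hR : 0 ≤ R) : {x : Eis | ‖emb x - κ‖ ≤ R}.Finite ∧
    |({x : Eis | ‖emb x - κ‖ ≤ R}.ncard : ℝ) - 2 * Real.pi / √3 * R ^ 2| ≤ 10 * (R + 1) := by
  have h3 := sqrt3_pos
  have h33 : √3 ^ 2 = 3 := Real.sq_sqrt (by norm_num)
  have h77 : √7 ^ 2 = 7 := Real.sq_sqrt (by norm_num)
  have h7 : 0 < √7 := Real.sqrt_pos.2 (by norm_num)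
  have hpi := Real.pi_pos
  have hf := disc_fin κ R
  refine ⟨hf, ?_⟩
  set S := hf.toFinset with hS
  have hmem : ∀ x, x ∈ S ↔ ‖emb x - κ‖ ≤ R := fun x => by
    rw [hS, Set.Finite.mem_toFinset]
    exact Iff.rfl
  have hcard : {x : Eis | ‖emb x - κ‖ ≤ R}.ncard = S.card := Set.ncard_eq_toFinset_card _ hf
  rw [hcard]
  have hcell : ∀ x z, z ∈ rect 1 (0 + (1 : ℝ) * emb x) → ‖z - emb x‖ ≤ √7 / 2 := fun x z hz => by
    have := rect_norm zero_le_one hz
    simpa using this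
  -- upper bound
  have hup : (S.card : ℝ) * (√3 / 2) ≤ Real.pi * (R + √7 / 2) ^ 2 := by
    rw [← disc_vol, ← ball_vol κ (R + √7 / 2) (by positivity)]
    refine measureReal_mono ?_ (by
      rw [Complex.volume_closedBall]
      exact ENNReal.mul_ne_top (ENNReal.pow_ne_top ENNReal.ofReal_ne_top) ENNReal.coe_ne_top)
    intro z hz
    simp only [Set.mem_iUnion, exists_prop] at hz
    obtain ⟨x, hx, hz⟩ := hz
    rw [Metric.mem_closedBall, dist_eq_norm]
    calc ‖z - κ‖ = ‖(z - emb x) + (emb x - κ)‖ := by congr 1; ring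
      _ ≤ ‖z - emb x‖ + ‖emb x - κ‖ := norm_add_le _ _
      _ ≤ R + √7 / 2 := by
        have := hcell x z hz
        have := (hmem x).1 hx
        linarith
  -- lower bound
  have hlow : √7 / 2 ≤ R → Real.pi * (R - √7 / 2) ^ 2 ≤ (S.card : ℝ) * (√3 / 2) := by
    intro hR7
    rw [← disc_vol, ← ball_vol κ (R - √7 / 2) (by linarith)]
    refine measureReal_mono ?_ ?_
    · intro z hz
      rw [Metric.mem_closedBall, dist_eq_norm] at hz
      obtain ⟨x, hx⟩ := rect_cover one_pos 0 z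
      simp only [Set.mem_iUnion, exists_prop]
      refine ⟨x, (hmem x).2 ?_, hx⟩
      calc ‖emb x - κ‖ = ‖(z - κ) - (z - emb x)‖ := by congr 1; ring
        _ ≤ ‖z - κ‖ + ‖z - emb x‖ := norm_sub_le _ _
        _ ≤ R := by
          have := hcell x z hx
          linarith
    · exact ((measure_biUnion_lt_top S.finite_toSet (fun x _ => by
        rw [rect_vol 1 (by norm_num)]
        exact ENNReal.ofReal_lt_top)).ne)
  have e1 : 2 * Real.pi / √3 * R ^ 2 = (2 / √3) * (Real.pi * R ^ 2) := by ring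
  have h37 : √7 ≤ 2.6458 := by
    rw [Real.sqrt_le_left (by norm_num)]
    norm_num
  have h3l : 1.732 ≤ √3 := Real.le_sqrt_of_sq_le (by norm_num)
  have hpi4 := Real.pi_lt_d4
  have h2s : 2 / √3 * Real.pi ≤ 3.628 := by
    rw [div_mul_eq_mul_div, div_le_iff₀ h3]
    nlinarith
  have hs0 : (0 : ℝ) < 2 / √3 := by positivity
  have ec : (S.card : ℝ) = 2 / √3 * ((S.card : ℝ) * (√3 / 2)) := by
    field_simp
  have hc0 : (0 : ℝ) ≤ S.card := Nat.cast_nonneg _
  rw [abs_le]
  constructor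
  · rcases le_total (√7 / 2) R with h | h
    · have h1 := mul_le_mul_of_nonneg_left (hlow h) hs0.le
      rw [← ec] at h1
      have h2 : 2 / √3 * (Real.pi * (R - √7 / 2) ^ 2) =
          2 * Real.pi / √3 * R ^ 2 - (2 / √3 * Real.pi) * (√7 * R - √7 ^ 2 / 4) := by ring
      rw [h2, h77] at h1
      have h4 : (2 / √3 * Real.pi) * (√7 * R - 7 / 4) ≤ 10 * (R + 1) := by
        have h5 : √7 * R - 7 / 4 ≤ 2.6458 * R := by nlinarith
        calc (2 / √3 * Real.pi) * (√7 * R - 7 / 4) ≤ (2 / √3 * Real.pi) * (2.6458 * R) :=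
              mul_le_mul_of_nonneg_left h5 (by positivity)
          _ ≤ 3.628 * (2.6458 * R) := mul_le_mul_of_nonneg_right h2s (by positivity)
          _ ≤ _ := by nlinarith
      linarith
    · have h2 : 2 * Real.pi / √3 * R ^ 2 ≤ 10 := by
        calc 2 * Real.pi / √3 * R ^ 2 = (2 / √3 * Real.pi) * R ^ 2 := by ring
          _ ≤ 3.628 * (√7 / 2) ^ 2 := by
            apply mul_le_mul h2s (pow_le_pow_left₀ hR h 2) (by positivity) (by norm_num)
          _ = 3.628 * (√7 ^ 2 / 4) := by ring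
          _ ≤ 10 := by rw [h77]; norm_num
      nlinarith
  · have h1 := mul_le_mul_of_nonneg_left hup hs0.le
    rw [← ec] at h1
    have h2 : 2 / √3 * (Real.pi * (R + √7 / 2) ^ 2) =
        2 * Real.pi / √3 * R ^ 2 + (2 / √3 * Real.pi) * (√7 * R + √7 ^ 2 / 4) := by ring
    rw [h2, h77] at h1
    have h4 : (2 / √3 * Real.pi) * (√7 * R + 7 / 4) ≤ 10 * (R + 1) := by
      have h5 : √7 * R + 7 / 4 ≤ 2.6458 * R + 7 / 4 := by nlinarith
      calc (2 / √3 * Real.pi) * (√7 * R + 7 / 4) ≤ (2 / √3 * Real.pi) * (2.6458 * R + 7 / 4) :=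
            mul_le_mul_of_nonneg_left h5 (by positivity)
        _ ≤ 3.628 * (2.6458 * R + 7 / 4) := mul_le_mul_of_nonneg_right h2s (by positivity)
        _ ≤ _ := by nlinarith
    linarith

end JC
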