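import Pool.Agent.JC.R1

/-!
# [JC] the cusp: counting `d`, and `(b, c, d)` for given `a`
-/

set_option autoImplicit false

namespace JC

open CM27 CU JZ

theorem disc_le (κ : ℂ) (R : ℝ) (hR : 0 ≤ R) :
    ({x : Eis | ‖emb x - κ‖ ≤ R}.ncard : ℝ) ≤ 15 * (1 + R ^ 2) := by
  have h := (abs_le.1 (disc_count κ R hR).2).2
  have h3 := sqrt3_pos
  have h3l : 1.732 ≤ √3 := Real.le_sqrt_of_sq_le (by norm_num)
  have hpi4 := Real.pi_lt_d4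
  have h2s : 2 * Real.pi / √3 ≤ 3.628 := by
    rw [div_le_iff₀ h3]
    nlinarith
  have := mul_le_mul_of_nonneg_right h2s (sq_nonneg R)
  nlinarith [sq_nonneg (R - 1)]

/-- fibrewise counting -/
theorem fib_card {α β : Type*} (F : Finset α) (G : α → Set β) (f : α → ℝ) (S : Set (α × β))
    (hS : ∀ p ∈ S, p.1 ∈ F ∧ p.2 ∈ G p.1)
    (hG : ∀ x ∈ F, (G x).Finite ∧ ((G x).ncard : ℝ) ≤ f x) :
    S.Finite ∧ (S.ncard : ℝ) ≤ ∑ x ∈ F, f x := by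
  classical
  set U : Set (α × β) := ⋃ x ∈ F, (Prod.mk x '' G x) with hU
  have hsub : S ⊆ U := fun p hp => by
    simp only [hU, Set.mem_iUnion, exists_prop]
    exact ⟨p.1, (hS p hp).1, p.2, (hS p hp).2, rfl⟩
  have hUf : U.Finite := F.finite_toSet.biUnion fun x hx => (hG x hx).1.image _
  refine ⟨hUf.subset hsub, ?_⟩
  have h1 : S.ncard ≤ ∑ x ∈ F, (Prod.mk x '' G x).ncard :=
    (Set.ncard_le_ncard hsub hUf).trans (Finset.set_ncard_biUnion_le _ _)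
  calc (S.ncard : ℝ) ≤ ((∑ x ∈ F, (Prod.mk x '' G x).ncard : ℕ) : ℝ) := by exact_mod_cast h1
    _ = ∑ x ∈ F, ((Prod.mk x '' G x).ncard : ℝ) := by push_cast; rfl
    _ ≤ ∑ x ∈ F, f x := Finset.sum_le_sum fun x hx => by
      rw [Set.ncard_image_of_injective _ (Prod.mk_right_injective x)]
      exact (hG x hx).2

theorem count_d (κ w : ℂ) (δ : ℝ) (hδ : 0 ≤ δ) :
    {x : Eis | ‖(emb x - κ) ^ 2 - w‖ ≤ δ}.Finite ∧
    ({x : Eis | ‖(emb x - κ) ^ 2 - w‖ ≤ δ}.ncard : ℝ) ≤ 100 * (1 + δ) ∧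
    (w ≠ 0 → ({x : Eis | ‖(emb x - κ) ^ 2 - w‖ ≤ δ}.ncard : ℝ) ≤ 100 * (1 + δ ^ 2 / ‖w‖)) := by
  obtain ⟨w₁, hw₁⟩ := IsAlgClosed.exists_pow_nat_eq w (n := 2) (by norm_num)
  have hfac : ∀ x : Eis, ‖(emb x - κ) ^ 2 - w‖ =
      ‖emb x - (κ + w₁)‖ * ‖emb x - (κ - w₁)‖ := fun x => by
    rw [← norm_mul, ← hw₁]
    congr 1
    ring
  have key : ∀ R : ℝ, 0 ≤ R → (∀ x : Eis, ‖(emb x - κ) ^ 2 - w‖ ≤ δ →
      ‖emb x - (κ + w₁)‖ ≤ R ∨ ‖emb x - (κ - w₁)‖ ≤ R) →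
      {x : Eis | ‖(emb x - κ) ^ 2 - w‖ ≤ δ}.Finite ∧
      ({x : Eis | ‖(emb x - κ) ^ 2 - w‖ ≤ δ}.ncard : ℝ) ≤ 30 * (1 + R ^ 2) := by
    intro R hR h
    have hsub : {x : Eis | ‖(emb x - κ) ^ 2 - w‖ ≤ δ} ⊆
        {x : Eis | ‖emb x - (κ + w₁)‖ ≤ R} ∪ {x : Eis | ‖emb x - (κ - w₁)‖ ≤ R} :=
      fun x hx => h x hx
    have hf := (disc_fin (κ + w₁) R).union (disc_fin (κ - w₁) R)
    refine ⟨hf.subset hsub, ?_⟩
    have h1 := (Set.ncard_le_ncard hsub hf).trans (Set.ncard_union_le _ _)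
    have h2 := disc_le (κ + w₁) R hR
    have h3 := disc_le (κ - w₁) R hR
    have h4 : ({x : Eis | ‖(emb x - κ) ^ 2 - w‖ ≤ δ}.ncard : ℝ) ≤
        ({x : Eis | ‖emb x - (κ + w₁)‖ ≤ R}.ncard : ℝ) +
          ({x : Eis | ‖emb x - (κ - w₁)‖ ≤ R}.ncard : ℝ) := by exact_mod_cast h1
    linarith
  have h1 := key (√δ) (Real.sqrt_nonneg _) (fun x hx => by
    rw [hfac] at hx
    by_contra hcon
    rw [not_or, not_le, not_le] at hcon
    have h5 : √δ * √δ < ‖emb x - (κ + w₁)‖ * ‖emb x - (κ - w₁)‖ :=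
      mul_lt_mul'' hcon.1 hcon.2 (Real.sqrt_nonneg _) (Real.sqrt_nonneg _)
    rw [Real.mul_self_sqrt hδ] at h5
    linarith)
  refine ⟨h1.1, ?_, fun hw => ?_⟩
  · have h2 := h1.2
    rw [Real.sq_sqrt hδ] at h2
    linarith
  · have hw1 : 0 < ‖w₁‖ := by
      rw [norm_pos_iff]
      rintro rfl
      exact hw (by rw [← hw₁]; ring)
    have h2 := (key (δ / ‖w₁‖) (by positivity) (fun x hx => by
      rw [hfac] at hx
      by_contra hcon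
      rw [not_or, not_le, not_le] at hcon
      have h5 : 2 * ‖w₁‖ ≤ ‖emb x - (κ + w₁)‖ + ‖emb x - (κ - w₁)‖ := by
        calc 2 * ‖w₁‖ = ‖(emb x - (κ - w₁)) - (emb x - (κ + w₁))‖ := by
              rw [show (emb x - (κ - w₁)) - (emb x - (κ + w₁)) = 2 * w₁ by ring, norm_mul]
              norm_num
          _ ≤ ‖emb x - (κ - w₁)‖ + ‖emb x - (κ + w₁)‖ := norm_sub_le _ _
          _ = _ := add_comm _ _
      have h6 : 0 ≤ δ / ‖w₁‖ := by positivity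
      have h7 : δ / ‖w₁‖ * ‖w₁‖ = δ := by field_simp
      obtain ⟨h8, h9⟩ := hcon
      rcases le_total ‖w₁‖ ‖emb x - (κ + w₁)‖ with h10 | h10
      · nlinarith
      · have h11 : ‖w₁‖ ≤ ‖emb x - (κ - w₁)‖ := by linarith
        nlinarith)).2
    have h3 : (δ / ‖w₁‖) ^ 2 = δ ^ 2 / ‖w‖ := by
      rw [← hw₁, norm_pow, div_pow]
    rw [h3] at h2
    have : 0 ≤ δ ^ 2 / ‖w‖ := by positivity
    linarith

end JC
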