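import Pool.Agent.JC.K1

/-!
# [JC] the cusp: the number of `(b, c, d)` for given `a`
-/

set_option autoImplicit false

namespace JC

open CM27 CU JZ

theorem rec_norm {z : ℂ} (hz : z ∈ Rec) : ‖z‖ ≤ 4 / 3 := by
  obtain ⟨h1, h2, h3, h4⟩ := hz
  have h33 : √3 ^ 2 = 3 := Real.sq_sqrt (by norm_num)
  have h5 : ‖z‖ ^ 2 ≤ (4 / 3) ^ 2 := by
    rw [Complex.sq_norm, Complex.normSq_apply]
    have a1 : z.re * z.re ≤ 1 * 1 := mul_self_le_mul_self h1 h2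
    have a2 : z.im * z.im ≤ (√3 / 2) * (√3 / 2) := mul_self_le_mul_self h3 h4
    have a3 : (√3 / 2) * (√3 / 2) = 3 / 4 := by
      rw [show (√3 / 2) * (√3 / 2) = √3 ^ 2 / 4 by ring, h33]
    rw [a3] at a2
    linarith
  exact le_of_sq_le_sq h5 (by norm_num)

/-- What is used of the region near the cusp. -/
theorem reg_bounds {s : ℝ} (hs : 0 < s) {a b c d : ℂ} (h : ((a, b, c, d) : V4) ∈ Reg s) :
    a ≠ 0 ∧ ‖b‖ ≤ 4 * ‖a‖ ∧ ‖c - b ^ 2 / (3 * a)‖ ≤ s ^ 2 / ‖a‖ ∧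
    ‖(d - (b * c / (3 * a) - 2 * b ^ 3 / (27 * a ^ 2))) ^ 2 -
      (-4 * (c - b ^ 2 / (3 * a)) ^ 3 / (27 * a))‖ ≤ s ^ 4 / (27 * ‖a‖ ^ 2) := by
  obtain ⟨h0, z, A, B, hz, ⟨hb, hc, hd, h1, h2⟩, h3⟩ := h
  dsimp only at h0 hb hc hd h3
  have ha : 0 < ‖a‖ := norm_pos_iff.2 h0
  have hp : c - b ^ 2 / (3 * a) = -3 * a * (A * B) := by
    rw [hc, hb]
    field_simp
    ring
  have hq : d - (b * c / (3 * a) - 2 * b ^ 3 / (27 * a ^ 2)) = -a * (A ^ 3 + B ^ 3) := by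
    rw [hd, hc, hb]
    field_simp
    ring
  have hw : (-a * (A ^ 3 + B ^ 3)) ^ 2 - (-4 * (-3 * a * (A * B)) ^ 3 / (27 * a)) =
      a ^ 2 * (A ^ 3 - B ^ 3) ^ 2 := by
    field_simp
    ring
  refine ⟨h0, ?_, ?_, ?_⟩
  · rw [hb, norm_mul, norm_mul, norm_neg]
    have := rec_norm hz
    have e : ‖(3 : ℂ)‖ = 3 := by norm_num
    rw [e]
    nlinarith
  · rw [hp]
    have e : ‖-3 * a * (A * B)‖ = 3 * ‖a‖ * (‖A‖ * ‖B‖) := by
      rw [norm_mul, norm_mul, norm_neg, norm_mul]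
      norm_num
    rw [e, le_div_iff₀ ha]
    refine le_of_sq_le_sq ?_ (by positivity)
    set t := ‖A‖ ^ 2 + ‖B‖ ^ 2 with ht
    have h4 : ‖A‖ * ‖B‖ ≤ t / 2 := by nlinarith [sq_nonneg (‖A‖ - ‖B‖)]
    have h5 : t ^ 2 * (18 * ‖a‖ ^ 4) ≤ s ^ 4 := by
      calc t ^ 2 * (18 * ‖a‖ ^ 4) ≤ (3 / 2 * ‖A ^ 3 - B ^ 3‖ ^ 2) * (18 * ‖a‖ ^ 4) := by gcongr
        _ = 27 * ‖a‖ ^ 4 * ‖A ^ 3 - B ^ 3‖ ^ 2 := by ring
        _ ≤ s ^ 4 := h3
    have h6 : (‖A‖ * ‖B‖) ^ 2 ≤ (t / 2) ^ 2 := pow_le_pow_left₀ (by positivity) h4 2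
    calc (3 * ‖a‖ * (‖A‖ * ‖B‖) * ‖a‖) ^ 2 = 9 * ‖a‖ ^ 4 * (‖A‖ * ‖B‖) ^ 2 := by ring
      _ ≤ 9 * ‖a‖ ^ 4 * (t / 2) ^ 2 := by gcongr
      _ = t ^ 2 * (18 * ‖a‖ ^ 4) / 8 := by ring
      _ ≤ (s ^ 2) ^ 2 := by
        have : 0 ≤ s ^ 4 := by positivity
        rw [← pow_mul]
        linarith
  · rw [hq, hp, hw, norm_mul, norm_pow, norm_pow, le_div_iff₀ (by positivity)]
    calc ‖a‖ ^ 2 * ‖A ^ 3 - B ^ 3‖ ^ 2 * (27 * ‖a‖ ^ 2) = 27 * ‖a‖ ^ 4 * ‖A ^ 3 - B ^ 3‖ ^ 2 := by ring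
      _ ≤ s ^ 4 := h3

/-- for fixed `a`, `b`: the number of `(c, d)`, with `s = r²`, `|a| = α²` -/
theorem count_cd {r α : ℝ} (hα : 1 ≤ α) (hr : α ≤ r) {a b : ℂ} (ha : ‖a‖ = α ^ 2) :
    {g : Eis × Eis | ((a, b, emb g.1, emb g.2) : V4) ∈ Reg (r ^ 2)}.Finite ∧
    ({g : Eis × Eis | ((a, b, emb g.1, emb g.2) : V4) ∈ Reg (r ^ 2)}.ncard : ℝ) ≤
      12000 * (r ^ 15 / α ^ 7) := by
  classical
  have hα0 : 0 < α := by linarith
  have hr0 : 0 < r := by linarith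
  have hr1 : 1 ≤ r := by linarith
  have ha0 : a ≠ 0 := by
    rw [← norm_pos_iff, ha]
    positivity
  set κ : ℂ := b ^ 2 / (3 * a) with hκ
  set δ : ℝ := (r ^ 2) ^ 4 / (27 * ‖a‖ ^ 2) with hδ
  have hδ0 : 0 ≤ δ := by positivity
  have hδe : δ = r ^ 8 / (27 * α ^ 4) := by
    rw [hδ, ha]
    ring
  set R : ℝ := (r ^ 2) ^ 2 / ‖a‖ with hR
  have hRe : R = r ^ 4 / α ^ 2 := by
    rw [hR, ha]
    ring
  have hR0 : 0 ≤ R := by positivity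
  set F : Finset Eis := (disc_fin κ R).toFinset with hF
  have hmem : ∀ x, x ∈ F ↔ ‖emb x - κ‖ ≤ R := fun x => by
    rw [hF, Set.Finite.mem_toFinset]
    exact Iff.rfl
  set V : ℝ := r ^ 3 / α with hV
  have hV0 : 0 < V := by positivity
  set G : Eis → Set Eis := fun c => {x : Eis | ‖(emb x - (b * emb c / (3 * a) -
    2 * b ^ 3 / (27 * a ^ 2))) ^ 2 - (-4 * (emb c - κ) ^ 3 / (27 * a))‖ ≤ δ} with hG
  set f₁ : ℝ := 200 * (r ^ 8 / α ^ 4) with hf1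
  set f₂ : ℝ := 200 * (r ^ 7 / α ^ 3) with hf2
  have hf10 : 0 ≤ f₁ := by positivity
  have hf20 : 0 ≤ f₂ := by positivity
  have hrα : 1 ≤ r / α := by rwa [le_div_iff₀ hα0, one_mul]
  have hG1 : ∀ c ∈ F, (G c).Finite ∧ ((G c).ncard : ℝ) ≤ if ‖emb c - κ‖ ≤ V then f₁ else f₂ := by
    intro c hc
    obtain ⟨c1, c2, c3⟩ := count_d (b * emb c / (3 * a) - 2 * b ^ 3 / (27 * a ^ 2))
      (-4 * (emb c - κ) ^ 3 / (27 * a)) δ hδ0
    refine ⟨c1, ?_⟩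
    split_ifs with hc4
    · refine c2.trans ?_
      have h1 : 1 ≤ r ^ 8 / α ^ 4 := by
        rw [le_div_iff₀ (by positivity), one_mul]
        calc α ^ 4 ≤ r ^ 4 := pow_le_pow_left₀ hα0.le hr 4
          _ ≤ r ^ 8 := pow_le_pow_right₀ hr1 (by norm_num)
      have h2 : δ ≤ r ^ 8 / α ^ 4 := by
        rw [hδe]
        gcongr
        nlinarith [pow_pos hα0 4]
      rw [hf1]
      linarith
    · rw [not_le] at hc4
      have hp0 : 0 < ‖emb c - κ‖ := hV0.trans hc4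
      have hw : -4 * (emb c - κ) ^ 3 / (27 * a) ≠ 0 := by
        have := norm_pos_iff.1 hp0
        exact div_ne_zero (mul_ne_zero (by norm_num) (pow_ne_zero 3 this))
          (mul_ne_zero (by norm_num) ha0)
      refine (c3 hw).trans ?_
      have hwn : ‖-4 * (emb c - κ) ^ 3 / (27 * a)‖ = 4 * ‖emb c - κ‖ ^ 3 / (27 * α ^ 2) := by
        rw [norm_div, norm_mul, norm_mul, norm_neg, norm_pow, ha]
        norm_num
      have h1 : 1 ≤ r ^ 7 / α ^ 3 := by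
        rw [le_div_iff₀ (by positivity), one_mul]
        calc α ^ 3 ≤ r ^ 3 := pow_le_pow_left₀ hα0.le hr 3
          _ ≤ r ^ 7 := pow_le_pow_right₀ hr1 (by norm_num)
      have h2 : δ ^ 2 / ‖-4 * (emb c - κ) ^ 3 / (27 * a)‖ ≤ r ^ 7 / α ^ 3 := by
        have h3 : V ^ 3 ≤ ‖emb c - κ‖ ^ 3 := pow_le_pow_left₀ hV0.le hc4.le 3
        have h4 : 4 * V ^ 3 / (27 * α ^ 2) ≤ ‖-4 * (emb c - κ) ^ 3 / (27 * a)‖ := by
          rw [hwn]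
          gcongr
        calc δ ^ 2 / ‖-4 * (emb c - κ) ^ 3 / (27 * a)‖ ≤ δ ^ 2 / (4 * V ^ 3 / (27 * α ^ 2)) :=
              div_le_div_of_nonneg_left (by positivity) (by positivity) h4
          _ = (1 / 108) * (r ^ 7 / α ^ 3) := by
            rw [hδe, hV]
            field_simp
            norm_num
          _ ≤ r ^ 7 / α ^ 3 := by
            have : 0 ≤ r ^ 7 / α ^ 3 := by positivity
            linarith
      rw [hf2]
      linarith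
  obtain ⟨h1, h2⟩ := fib_card F G (fun c => if ‖emb c - κ‖ ≤ V then f₁ else f₂)
    {g : Eis × Eis | ((a, b, emb g.1, emb g.2) : V4) ∈ Reg (r ^ 2)} (fun g hg => by
      obtain ⟨b1, b2, b3, b4⟩ := reg_bounds (by positivity) hg
      exact ⟨(hmem _).2 b3, b4⟩) hG1
  refine ⟨h1, h2.trans ?_⟩
  rw [Finset.sum_ite, Finset.sum_const, Finset.sum_const, nsmul_eq_mul, nsmul_eq_mul]
  have n1 : (((F.filter fun c => ‖emb c - κ‖ ≤ V).card : ℕ) : ℝ) ≤ 30 * (r ^ 6 / α ^ 2) := by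
    have h3 : (F.filter fun c => ‖emb c - κ‖ ≤ V).card ≤ {x : Eis | ‖emb x - κ‖ ≤ V}.ncard := by
      rw [← Set.ncard_coe_finset]
      refine Set.ncard_le_ncard (fun x hx => ?_) (disc_fin κ V)
      exact (Finset.mem_filter.1 hx).2
    calc (((F.filter fun c => ‖emb c - κ‖ ≤ V).card : ℕ) : ℝ) ≤
          ({x : Eis | ‖emb x - κ‖ ≤ V}.ncard : ℝ) := by exact_mod_cast h3
      _ ≤ 15 * (1 + V ^ 2) := disc_le κ V hV0.le
      _ ≤ _ := by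
        have h4 : V ^ 2 = r ^ 6 / α ^ 2 := by rw [hV]; ring
        have h5 : 1 ≤ r ^ 6 / α ^ 2 := by
          rw [le_div_iff₀ (by positivity), one_mul]
          calc α ^ 2 ≤ r ^ 2 := pow_le_pow_left₀ hα0.le hr 2
            _ ≤ r ^ 6 := pow_le_pow_right₀ hr1 (by norm_num)
        rw [h4]
        linarith
  have n2 : (((F.filter fun c => ¬ ‖emb c - κ‖ ≤ V).card : ℕ) : ℝ) ≤ 30 * (r ^ 8 / α ^ 4) := by
    have h3 : (F.filter fun c => ¬ ‖emb c - κ‖ ≤ V).card ≤ {x : Eis | ‖emb x - κ‖ ≤ R}.ncard := by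
      rw [← Set.ncard_coe_finset]
      refine Set.ncard_le_ncard (fun x hx => ?_) (disc_fin κ R)
      exact (hmem x).1 (Finset.mem_filter.1 hx).1
    calc (((F.filter fun c => ¬ ‖emb c - κ‖ ≤ V).card : ℕ) : ℝ) ≤
          ({x : Eis | ‖emb x - κ‖ ≤ R}.ncard : ℝ) := by exact_mod_cast h3
      _ ≤ 15 * (1 + R ^ 2) := disc_le κ R hR0
      _ ≤ _ := by
        have h4 : R ^ 2 = r ^ 8 / α ^ 4 := by rw [hRe]; ring
        have h5 : 1 ≤ r ^ 8 / α ^ 4 := by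
          rw [le_div_iff₀ (by positivity), one_mul]
          calc α ^ 4 ≤ r ^ 4 := pow_le_pow_left₀ hα0.le hr 4
            _ ≤ r ^ 8 := pow_le_pow_right₀ hr1 (by norm_num)
        rw [h4]
        linarith
  calc _ ≤ 30 * (r ^ 6 / α ^ 2) * f₁ + 30 * (r ^ 8 / α ^ 4) * f₂ := by gcongr
    _ = 6000 * (r ^ 14 / α ^ 6) + 6000 * (r ^ 15 / α ^ 7) := by
      rw [hf1, hf2]
      field_simp
      ring
    _ ≤ 6000 * (r ^ 15 / α ^ 7) + 6000 * (r ^ 15 / α ^ 7) := by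
      have h3 : r ^ 14 / α ^ 6 ≤ r ^ 15 / α ^ 7 := by
        calc r ^ 14 / α ^ 6 = r ^ 14 / α ^ 6 * 1 := (mul_one _).symm
          _ ≤ r ^ 14 / α ^ 6 * (r / α) := by gcongr
          _ = r ^ 15 / α ^ 7 := by ring
      linarith
    _ = _ := by ring

end JC
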