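import Pool.Agent.JC.K2

/-!
# [JC] the cusp: the sum over `a`
-/

set_option autoImplicit false

namespace JC

open CM27 CU JZ

/-- the fourth root -/
noncomputable def qr (x : ℝ) : ℝ := √(√x)

theorem qr_pow {x : ℝ} (hx : 0 ≤ x) : qr x ^ 4 = x := by
  rw [qr, show (4 : ℕ) = 2 * 2 by norm_num, pow_mul, Real.sq_sqrt (Real.sqrt_nonneg _),
    Real.sq_sqrt hx]

theorem qr_nonneg (x : ℝ) : 0 ≤ qr x := Real.sqrt_nonneg _

theorem qr_pos {x : ℝ} (hx : 0 < x) : 0 < qr x := Real.sqrt_pos.2 (Real.sqrt_pos.2 hx)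

theorem qr_mono {x y : ℝ} (h : x ≤ y) : qr x ≤ qr y := Real.sqrt_le_sqrt (Real.sqrt_le_sqrt h)

theorem qr_mul {x : ℝ} (hx : 0 ≤ x) (y : ℝ) : qr (x * y) = qr x * qr y := by
  rw [qr, qr, qr, Real.sqrt_mul hx, Real.sqrt_mul (Real.sqrt_nonneg _)]

/-- `∑_{k = 1}^n k ^ (-3/4) ≤ 4 n ^ (1/4)` -/
theorem sum_qr (n : ℕ) : ∑ k ∈ Finset.range n, 1 / qr (k + 1) ^ 3 ≤ 4 * qr n := by
  induction n with
  | zero => simp [qr]
  | succ n ih =>
    rw [Finset.sum_range_succ]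
    have h0 : (0 : ℝ) ≤ n := Nat.cast_nonneg n
    set a := qr (n + 1) with ha
    set b := qr n with hb
    have ha0 : 0 < a := qr_pos (by linarith)
    have hb0 : 0 ≤ b := qr_nonneg _
    have hab : b ≤ a := qr_mono (by linarith)
    have h4 : a ^ 4 - b ^ 4 = 1 := by
      rw [ha, hb, qr_pow (by linarith), qr_pow h0]
      ring
    have h5 : 1 ≤ 4 * a ^ 3 * (a - b) := by
      have h6 : a ^ 2 * b ≤ a ^ 3 := by
        calc a ^ 2 * b ≤ a ^ 2 * a := by gcongr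
          _ = a ^ 3 := by ring
      have h7 : a * b ^ 2 ≤ a ^ 3 := by
        calc a * b ^ 2 ≤ a * a ^ 2 := by gcongr
          _ = a ^ 3 := by ring
      have h8 : b ^ 3 ≤ a ^ 3 := by gcongr
      calc 1 = (a - b) * (a ^ 3 + a ^ 2 * b + a * b ^ 2 + b ^ 3) := by rw [← h4]; ring
        _ ≤ (a - b) * (4 * a ^ 3) := by
          apply mul_le_mul_of_nonneg_left _ (by linarith)
          linarith
        _ = _ := by ring
    have h6 : 1 / a ^ 3 ≤ 4 * (a - b) := by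
      rw [div_le_iff₀ (by positivity)]
      linarith
    push_cast
    linarith

/-- the weight of a coordinate -/
noncomputable def wt (u : ℤ) : ℝ := 1 / qr (max 1 (|u| : ℤ) : ℤ) ^ 3

theorem wt_nonneg (u : ℤ) : 0 ≤ wt u := by
  unfold wt
  have := qr_nonneg (max 1 (|u| : ℤ) : ℤ)
  positivity

theorem sum_wt (B : ℕ) : ∑ u ∈ Finset.Icc (-(B : ℤ)) B, wt u ≤ 1 + 8 * qr B := by
  have hsub : Finset.Icc (-(B : ℤ)) B ⊆ {0} ∪ ((Finset.range B).image (fun k : ℕ => (k : ℤ) + 1) ∪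
      (Finset.range B).image (fun k : ℕ => -((k : ℤ) + 1))) := by
    intro u hu
    rw [Finset.mem_Icc] at hu
    simp only [Finset.mem_union, Finset.mem_singleton, Finset.mem_image, Finset.mem_range]
    rcases lt_trichotomy u 0 with h | h | h
    · exact Or.inr (Or.inr ⟨(-u - 1).toNat, by omega, by omega⟩)
    · exact Or.inl h
    · exact Or.inr (Or.inl ⟨(u - 1).toNat, by omega, by omega⟩)
  have hun : ∀ s t : Finset ℤ, ∑ u ∈ s ∪ t, wt u ≤ ∑ u ∈ s, wt u + ∑ u ∈ t, wt u := fun s t => by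
    have h1 := Finset.sum_union_inter (s₁ := s) (s₂ := t) (f := wt)
    have h2 : 0 ≤ ∑ u ∈ s ∩ t, wt u := Finset.sum_nonneg fun u _ => wt_nonneg u
    linarith
  have e1 : ∑ u ∈ (Finset.range B).image (fun k : ℕ => (k : ℤ) + 1), wt u ≤ 4 * qr B := by
    rw [Finset.sum_image (by intro x _ y _ h; simp only [] at h; omega)]
    refine le_trans (le_of_eq (Finset.sum_congr rfl fun k _ => ?_)) (sum_qr B)
    rw [wt]
    have : max 1 |(k : ℤ) + 1| = (k : ℤ) + 1 := by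
      rw [abs_of_nonneg (by positivity)]
      omega
    rw [this]
    push_cast
    rfl
  have e2 : ∑ u ∈ (Finset.range B).image (fun k : ℕ => -((k : ℤ) + 1)), wt u ≤ 4 * qr B := by
    rw [Finset.sum_image (by intro x _ y _ h; simp only [] at h; omega)]
    refine le_trans (le_of_eq (Finset.sum_congr rfl fun k _ => ?_)) (sum_qr B)
    rw [wt]
    have : max 1 |-((k : ℤ) + 1)| = (k : ℤ) + 1 := by
      rw [abs_neg, abs_of_nonneg (by positivity)]
      omega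
    rw [this]
    push_cast
    rfl
  have e0 : ∑ u ∈ ({0} : Finset ℤ), wt u = 1 := by
    rw [Finset.sum_singleton, wt]
    simp [qr]
  calc ∑ u ∈ Finset.Icc (-(B : ℤ)) B, wt u ≤ _ :=
        Finset.sum_le_sum_of_subset_of_nonneg hsub fun u _ _ => wt_nonneg u
    _ ≤ _ := hun _ _
    _ ≤ 1 + (4 * qr B + 4 * qr B) := by
      rw [e0]
      have := hun ((Finset.range B).image (fun k : ℕ => (k : ℤ) + 1))
        ((Finset.range B).image (fun k : ℕ => -((k : ℤ) + 1)))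
      linarith
    _ = _ := by ring

/-- `|a| ^ (-3/2) ≤ 2 wt(u) wt(v)` -/
theorem wt_le {a : Eis} (ha : a ≠ 0) : 1 / (√‖emb a‖) ^ 3 ≤ 2 * (wt a.re * wt a.im) := by
  have hN : (1 : ℝ) ≤ (a.norm : ℝ) := by
    have h2 := norm_nonneg' a
    have h3 : a.norm ≠ 0 := fun h => ha (a2_norm_zero h)
    have : 1 ≤ a.norm := by omega
    exact_mod_cast this
  have hn := norm_eq a
  have hnR : (a.norm : ℝ) = (a.re : ℝ) ^ 2 - a.re * a.im + (a.im : ℝ) ^ 2 := by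
    rw [hn]
    push_cast
    ring
  set u' : ℝ := ((max 1 (|a.re| : ℤ) : ℤ) : ℝ) with hu
  set v' : ℝ := ((max 1 (|a.im| : ℤ) : ℤ) : ℝ) with hv
  have hu1 : 1 ≤ u' := by
    rw [hu]
    exact_mod_cast le_max_left _ _
  have hv1 : 1 ≤ v' := by
    rw [hv]
    exact_mod_cast le_max_left _ _
  have hu2 : 3 / 4 * u' ^ 2 ≤ (a.norm : ℝ) := by
    rw [hu]
    push_cast
    rcases le_total (1 : ℝ) |(a.re : ℝ)| with h | h
    · rw [max_eq_right h, sq_abs, hnR]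
      nlinarith [sq_nonneg (2 * (a.im : ℝ) - a.re)]
    · rw [max_eq_left h]
      linarith
  have hv2 : 3 / 4 * v' ^ 2 ≤ (a.norm : ℝ) := by
    rw [hv]
    push_cast
    rcases le_total (1 : ℝ) |(a.im : ℝ)| with h | h
    · rw [max_eq_right h, sq_abs, hnR]
      nlinarith [sq_nonneg (2 * (a.re : ℝ) - a.im)]
    · rw [max_eq_left h]
      linarith
  have h3 : 3 / 4 * (u' * v') ≤ ‖emb a‖ ^ 2 := by
    rw [norm_emb_sq]
    nlinarith [sq_nonneg (u' - v')]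
  have hna : 0 < ‖emb a‖ := by
    have : 0 < ‖emb a‖ ^ 2 := by rw [norm_emb_sq]; linarith
    refine (norm_nonneg _).lt_of_ne' fun h => ?_
    rw [h] at this
    simp at this
  set α := √‖emb a‖ with hα
  have hα0 : 0 < α := Real.sqrt_pos.2 hna
  have hα4 : α ^ 4 = ‖emb a‖ ^ 2 := by
    rw [show (4 : ℕ) = 2 * 2 by norm_num, pow_mul, hα, Real.sq_sqrt hna.le]
  have hqu := qr_pos (lt_of_lt_of_le one_pos hu1)
  have hqv := qr_pos (lt_of_lt_of_le one_pos hv1)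
  have h4 : 3 / 4 * (qr u' * qr v') ^ 4 ≤ α ^ 4 := by
    rw [hα4, mul_pow, qr_pow (by linarith), qr_pow (by linarith)]
    exact h3
  set y := qr u' * qr v' with hy
  have hy0 : 0 < y := by positivity
  have h5 : y ^ 3 ≤ 2 * α ^ 3 := by
    by_contra hcon
    rw [not_le] at hcon
    have h6 : (2 * α ^ 3) ^ 4 < (y ^ 3) ^ 4 := pow_lt_pow_left₀ hcon (by positivity) (by norm_num)
    have h7 : (3 / 4 * y ^ 4) ^ 3 ≤ (α ^ 4) ^ 3 := pow_le_pow_left₀ (by positivity) h4 3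
    have h8 : (2 * α ^ 3) ^ 4 = 16 * (α ^ 4) ^ 3 := by ring
    have h9 : (y ^ 3) ^ 4 = (64 / 27) * (3 / 4 * y ^ 4) ^ 3 := by ring
    rw [h8, h9] at h6
    have h10 : 0 ≤ (α ^ 4) ^ 3 := by positivity
    nlinarith
  have h6 : wt a.re * wt a.im = 1 / y ^ 3 := by
    rw [wt, wt, hy, mul_pow, ← hu, ← hv, one_div_mul_one_div]
  rw [h6, mul_one_div, div_le_div_iff₀ (by positivity) (by positivity), one_mul]
  exact h5

theorem sum_a : ∃ C : ℝ, 0 < C ∧ ∀ R : ℝ, 0 ≤ R → ∀ S : Finset Eis,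
    (∀ a ∈ S, a ≠ 0 ∧ ‖emb a‖ ≤ R) → ∑ a ∈ S, 1 / (√‖emb a‖) ^ 3 ≤ C * √R := by
  refine ⟨1000, by norm_num, fun R hR S hS => ?_⟩
  rcases S.eq_empty_or_nonempty with rfl | ⟨a₀, ha₀⟩
  · simp only [Finset.sum_empty]
    positivity
  have hnorm : ∀ a : Eis, a ≠ 0 → 1 ≤ ‖emb a‖ := fun a ha => by
    have h2 := norm_nonneg' a
    have h3 : a.norm ≠ 0 := fun h => ha (a2_norm_zero h)
    have h4 : 1 ≤ a.norm := by omega
    have h5 : (1 : ℝ) ^ 2 ≤ ‖emb a‖ ^ 2 := by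
      rw [norm_emb_sq, one_pow]
      exact_mod_cast h4
    exact le_of_sq_le_sq h5 (norm_nonneg _)
  have hR1 : 1 ≤ R := (hnorm a₀ (hS a₀ ha₀).1).trans (hS a₀ ha₀).2
  set B : ℕ := ⌈2 * R⌉₊ with hB
  have hB1 : 2 * R ≤ B := Nat.le_ceil _
  have hB2 : (B : ℝ) ≤ 3 * R := by
    have := Nat.ceil_lt_add_one (by positivity : 0 ≤ 2 * R)
    linarith
  have hbox : ∀ a ∈ S, a.re ∈ Finset.Icc (-(B : ℤ)) B ∧ a.im ∈ Finset.Icc (-(B : ℤ)) B := by
    intro a ha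
    obtain ⟨h1, h2⟩ := hS a ha
    have h3 : (a.norm : ℝ) ≤ R ^ 2 := by
      rw [← norm_emb_sq]
      exact pow_le_pow_left₀ (norm_nonneg _) h2 2
    rw [norm_eq] at h3
    push_cast at h3
    have h5 : |(a.im : ℝ)| ≤ 2 * R := by
      apply abs_le_of_sq_le_sq _ (by positivity)
      nlinarith [sq_nonneg (2 * (a.re : ℝ) - a.im), sq_nonneg (a.im : ℝ)]
    have h6 : |(a.re : ℝ)| ≤ 2 * R := by
      apply abs_le_of_sq_le_sq _ (by positivity)
      nlinarith [sq_nonneg (2 * (a.im : ℝ) - a.re), sq_nonneg (a.re : ℝ)]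
    have h7 : ∀ n : ℤ, |(n : ℝ)| ≤ 2 * R → n ∈ Finset.Icc (-(B : ℤ)) B := fun n hn => by
      have h8 : |(n : ℝ)| ≤ (B : ℝ) := hn.trans hB1
      have h9 : |n| ≤ (B : ℤ) := by exact_mod_cast h8
      rw [Finset.mem_Icc]
      exact abs_le.1 h9
    exact ⟨h7 _ h6, h7 _ h5⟩
  have h1 : ∑ a ∈ S, 1 / (√‖emb a‖) ^ 3 ≤ 2 * ((∑ u ∈ Finset.Icc (-(B : ℤ)) B, wt u) *
      ∑ v ∈ Finset.Icc (-(B : ℤ)) B, wt v) := by
    calc ∑ a ∈ S, 1 / (√‖emb a‖) ^ 3 ≤ ∑ a ∈ S, 2 * (wt a.re * wt a.im) :=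
          Finset.sum_le_sum fun a ha => wt_le (hS a ha).1
      _ = 2 * ∑ a ∈ S, wt a.re * wt a.im := by rw [Finset.mul_sum]
      _ = 2 * ∑ p ∈ S.image (fun a : Eis => (a.re, a.im)), wt p.1 * wt p.2 := by
        rw [Finset.sum_image]
        intro x _ y _ h
        simp only [Prod.mk.injEq] at h
        exact QuadraticAlgebra.ext h.1 h.2
      _ ≤ 2 * ∑ p ∈ Finset.Icc (-(B : ℤ)) B ×ˢ Finset.Icc (-(B : ℤ)) B, wt p.1 * wt p.2 := by
        apply mul_le_mul_of_nonneg_left _ (by norm_num)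
        refine Finset.sum_le_sum_of_subset_of_nonneg ?_ fun p _ _ =>
          mul_nonneg (wt_nonneg _) (wt_nonneg _)
        intro p hp
        obtain ⟨a, ha, rfl⟩ := Finset.mem_image.1 hp
        exact Finset.mem_product.2 (hbox a ha)
      _ = _ := by
        rw [Finset.sum_product, Finset.sum_mul_sum]
  have h2 := sum_wt B
  have hBR : (1 : ℝ) ≤ B := by linarith
  have hq1 : 1 ≤ qr B := by
    have := qr_mono hBR
    rwa [show qr 1 = 1 by simp [qr]] at this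
  have h3 : ∑ u ∈ Finset.Icc (-(B : ℤ)) B, wt u ≤ 9 * qr B := by linarith
  have h0 : 0 ≤ ∑ u ∈ Finset.Icc (-(B : ℤ)) B, wt u := Finset.sum_nonneg fun u _ => wt_nonneg u
  calc ∑ a ∈ S, 1 / (√‖emb a‖) ^ 3 ≤ _ := h1
    _ ≤ 2 * ((9 * qr B) * (9 * qr B)) := by gcongr
    _ = 162 * √B := by
      rw [qr, show 9 * √√(B : ℝ) * (9 * √√(B : ℝ)) = 81 * (√√(B : ℝ) * √√(B : ℝ)) by ring,
        Real.mul_self_sqrt (Real.sqrt_nonneg _)]
      ring
    _ ≤ 162 * √(4 * R) := by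
      gcongr
      linarith
    _ = 324 * √R := by
      rw [Real.sqrt_mul (by norm_num), show √4 = 2 by
        rw [show (4 : ℝ) = 2 ^ 2 by norm_num, Real.sqrt_sq (by norm_num)]]
      ring
    _ ≤ 1000 * √R := by
      have := Real.sqrt_nonneg R
      linarith

end JC
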