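import Pool.Agent.JC.R2

/-!
# [JC] roots of a cubic form, Lagrange resolvents
-/

set_option autoImplicit false

namespace JC

open CM27 CU JZ

/-- The roots. -/
theorem exists_roots (a b c d : ℂ) (ha : a ≠ 0) : ∃ r₀ r₁ r₂ : ℂ, b = -a * (r₀ + r₁ + r₂) ∧
    c = a * (r₀ * r₁ + r₀ * r₂ + r₁ * r₂) ∧ d = -a * (r₀ * r₁ * r₂) := by
  set P : Cubic ℂ := ⟨a, b, c, d⟩ with hP
  obtain ⟨x, y, z, h3⟩ := (Cubic.splits_iff_roots_eq_three (F := ℂ) (K := ℂ) (φ := RingHom.id ℂ)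
    (P := P) ha).1 (IsAlgClosed.splits _)
  refine ⟨x, y, z, ?_, ?_, ?_⟩
  · have := Cubic.b_eq_three_roots ha h3
    simp only [hP, RingHom.id_apply] at this
    rw [this]
    ring
  · have := Cubic.c_eq_three_roots ha h3
    simpa [hP] using this
  · have := Cubic.d_eq_three_roots ha h3
    simpa [hP] using this

theorem norm_w : ‖w‖ = 1 := by
  have h33 : √3 ^ 2 = 3 := Real.sq_sqrt (by norm_num)
  have : ‖w‖ ^ 2 = 1 := by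
    rw [Complex.sq_norm, Complex.normSq_apply, w_re, w_im]
    nlinarith
  exact (pow_eq_one_iff_of_nonneg (norm_nonneg _) two_ne_zero).1 this

theorem norm_sum (A B : ℂ) : ‖A - B‖ ^ 2 + ‖A - w * B‖ ^ 2 + ‖A - w ^ 2 * B‖ ^ 2 =
    3 * (‖A‖ ^ 2 + ‖B‖ ^ 2) := by
  have h33 : √3 ^ 2 = 3 := Real.sq_sqrt (by norm_num)
  have e : w ^ 2 = -1 - w := by rw [sq, w_sq]
  rw [e]
  simp only [Complex.sq_norm, Complex.normSq_apply, Complex.sub_re, Complex.sub_im,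
    Complex.mul_re, Complex.mul_im, Complex.neg_re, Complex.neg_im, Complex.one_re, Complex.one_im,
    w_re, w_im]
  linear_combination (1 / 2 * (B.re ^ 2 + B.im ^ 2)) * h33

/-- the three differences -/
theorem norm_diff (z A B : ℂ) :
    ‖(z + w * A + w ^ 2 * B) - (z + w ^ 2 * A + w * B)‖ ^ 2 = 3 * ‖A - B‖ ^ 2 ∧
    ‖(z + w ^ 2 * A + w * B) - (z + A + B)‖ ^ 2 = 3 * ‖A - w * B‖ ^ 2 ∧
    ‖(z + A + B) - (z + w * A + w ^ 2 * B)‖ ^ 2 = 3 * ‖A - w ^ 2 * B‖ ^ 2 := by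
  have h33 : √3 ^ 2 = 3 := Real.sq_sqrt (by norm_num)
  have e : w ^ 2 = -1 - w := by rw [sq, w_sq]
  have n1 : ‖w - w ^ 2‖ ^ 2 = 3 := by
    rw [e, Complex.sq_norm, Complex.normSq_apply]
    simp only [Complex.sub_re, Complex.sub_im, Complex.neg_re, Complex.neg_im, Complex.one_re,
      Complex.one_im, w_re, w_im]
    nlinarith
  have n2 : ‖w ^ 2 - 1‖ ^ 2 = 3 := by
    rw [e, Complex.sq_norm, Complex.normSq_apply]
    simp only [Complex.sub_re, Complex.sub_im, Complex.neg_re, Complex.neg_im, Complex.one_re,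
      Complex.one_im, w_re, w_im]
    nlinarith
  have n3 : ‖1 - w‖ ^ 2 = 3 := by
    rw [Complex.sq_norm, Complex.normSq_apply]
    simp only [Complex.sub_re, Complex.sub_im, Complex.one_re,
      Complex.one_im, w_re, w_im]
    nlinarith
  refine ⟨?_, ?_, ?_⟩
  · rw [← n1, ← mul_pow, ← norm_mul]
    congr 2
    ring
  · rw [← n2, ← mul_pow, ← norm_mul]
    congr 2
    linear_combination (B * (w - 1)) * w_sq
  · rw [← n3, ← mul_pow, ← norm_mul]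
    congr 2
    linear_combination (-B * (w - 1)) * w_sq

theorem w_cube : w ^ 3 = 1 := by
  linear_combination (w - 1) * w_sq

theorem prod_AB (A B : ℂ) : (A - B) * (A - w * B) * (A - w ^ 2 * B) = A ^ 3 - B ^ 3 := by
  linear_combination (-A ^ 2 * B + A * B ^ 2 * w - B ^ 3 * (w - 1)) * w_sq

theorem cube_ineq {A B : ℂ} (h : A ^ 3 ≠ B ^ 3)
    (h1 : (‖A‖ ^ 2 + ‖B‖ ^ 2) ^ 2 ≤ 3 / 2 * ‖A ^ 3 - B ^ 3‖ ^ 2) : 2 / 3 ≤ ‖A‖ ^ 2 + ‖B‖ ^ 2 := by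
  have p1 := norm_nonneg A
  have p2 := norm_nonneg B
  have h2 : ‖A ^ 3 - B ^ 3‖ ≤ ‖A‖ ^ 3 + ‖B‖ ^ 3 := by
    rw [← norm_pow, ← norm_pow]
    exact norm_sub_le _ _
  have h3 : ‖A ^ 3 - B ^ 3‖ ^ 2 ≤ (‖A‖ ^ 3 + ‖B‖ ^ 3) ^ 2 := pow_le_pow_left₀ (norm_nonneg _) h2 2
  have h4 : (‖A‖ ^ 3 + ‖B‖ ^ 3) ^ 2 ≤ (‖A‖ ^ 2 + ‖B‖ ^ 2) ^ 3 := by
    have : 0 ≤ ‖A‖ ^ 2 * ‖B‖ ^ 2 * (2 * (‖A‖ ^ 2 + ‖B‖ ^ 2) + (‖A‖ - ‖B‖) ^ 2) := by positivity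
    nlinarith
  have ht : 0 < ‖A‖ ^ 2 + ‖B‖ ^ 2 := by
    by_contra hle
    have hA : ‖A‖ = 0 := by nlinarith
    have hB : ‖B‖ = 0 := by nlinarith
    exact h (by rw [norm_eq_zero.1 hA, norm_eq_zero.1 hB])
  set t := ‖A‖ ^ 2 + ‖B‖ ^ 2 with htdef
  have h5 : t ^ 2 * 1 ≤ t ^ 2 * (3 / 2 * t) := by nlinarith
  have h6 := le_of_mul_le_mul_left h5 (by positivity)
  linarith

theorem sym_two (z A B : ℂ) : (z + A + B) * (z + w * A + w ^ 2 * B) +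
    (z + A + B) * (z + w ^ 2 * A + w * B) + (z + w * A + w ^ 2 * B) * (z + w ^ 2 * A + w * B) =
    3 * z ^ 2 - 3 * (A * B) := by
  linear_combination (2 * z * (A + B) + (A + B) ^ 2 + (w - 1) * (A ^ 2 + B ^ 2) +
    (w ^ 2 - w + 1) * (A * B)) * w_sq

theorem sym_three (z A B : ℂ) : (z + A + B) * (z + w * A + w ^ 2 * B) *
    (z + w ^ 2 * A + w * B) = z ^ 3 + A ^ 3 + B ^ 3 - 3 * z * (A * B) := by
  linear_combination ((z + A + B) * (z * (A + B) + (w - 1) * (A ^ 2 + B ^ 2) +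
    (w ^ 2 - w + 1) * (A * B))) * w_sq

/-- The reduced parametrisation from reduced roots. -/
theorem par_of_roots {a b c d r₀ r₁ r₂ : ℂ} (hb : b = -a * (r₀ + r₁ + r₂))
    (hc : c = a * (r₀ * r₁ + r₀ * r₂ + r₁ * r₂)) (hd : d = -a * (r₀ * r₁ * r₂))
    (h0 : r₁ ≠ r₂) (h1 : r₂ ≠ r₀) (h2 : r₀ ≠ r₁)
    (h : 2 * (‖r₁ - r₂‖ ^ 2 + ‖r₂ - r₀‖ ^ 2 + ‖r₀ - r₁‖ ^ 2) ^ 2 ≤
      9 * (‖r₁ - r₂‖ ^ 2 * ‖r₂ - r₀‖ ^ 2 * ‖r₀ - r₁‖ ^ 2)) : ∃ z A B : ℂ, Par a b c d z A B := by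
  set z : ℂ := (r₀ + r₁ + r₂) / 3 with hz
  set A : ℂ := (r₀ + w ^ 2 * r₁ + w * r₂) / 3 with hA
  set B : ℂ := (r₀ + w * r₁ + w ^ 2 * r₂) / 3 with hB
  have e0 : r₀ = z + A + B := by
    rw [hz, hA, hB]
    linear_combination (-(r₁ + r₂) / 3) * w_sq
  have e1 : r₁ = z + w * A + w ^ 2 * B := by
    rw [hz, hA, hB]
    linear_combination (-(r₁ * (2 * (w - 1)) + r₂ * (w ^ 2 - w + 1) + r₀) / 3) * w_sq
  have e2 : r₂ = z + w ^ 2 * A + w * B := by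
    rw [hz, hA, hB]
    linear_combination (-(r₂ * (2 * (w - 1)) + r₁ * (w ^ 2 - w + 1) + r₀) / 3) * w_sq
  obtain ⟨n0, n1, n2⟩ := norm_diff z A B
  rw [← e1, ← e2] at n0
  rw [← e2, ← e0] at n1
  rw [← e0, ← e1] at n2
  have hs := norm_sum A B
  have hp : ‖A - B‖ ^ 2 * ‖A - w * B‖ ^ 2 * ‖A - w ^ 2 * B‖ ^ 2 = ‖A ^ 3 - B ^ 3‖ ^ 2 := by
    rw [← prod_AB, norm_mul, norm_mul]
    ring
  have hne : A ^ 3 ≠ B ^ 3 := by
    intro he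
    rw [← sub_eq_zero, ← prod_AB] at he
    rcases mul_eq_zero.1 he with he | he
    · rcases mul_eq_zero.1 he with he | he
      · rw [he] at n0
        simp [sub_eq_zero, h0] at n0
      · rw [he] at n1
        simp [sub_eq_zero, h1] at n1
    · rw [he] at n2
      simp [sub_eq_zero, h2] at n2
  have h1' : (‖A‖ ^ 2 + ‖B‖ ^ 2) ^ 2 ≤ 3 / 2 * ‖A ^ 3 - B ^ 3‖ ^ 2 := by
    rw [n0, n1, n2] at h
    rw [← hp]
    have e3 : 3 * ‖A - B‖ ^ 2 + 3 * ‖A - w * B‖ ^ 2 + 3 * ‖A - w ^ 2 * B‖ ^ 2 =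
        9 * (‖A‖ ^ 2 + ‖B‖ ^ 2) := by linarith
    rw [e3] at h
    nlinarith
  refine ⟨z, A, B, ?_, ?_, ?_, h1', cube_ineq hne h1'⟩
  · rw [hb, hz]
    ring
  · rw [hc, ← sym_two z A B, ← e0, ← e1, ← e2]
  · rw [hd, show a * (-z ^ 3 + 3 * z * (A * B) - A ^ 3 - B ^ 3) =
      -a * (z ^ 3 + A ^ 3 + B ^ 3 - 3 * z * (A * B)) by ring, ← sym_three z A B, ← e0, ← e1, ← e2]

end JC
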