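import Pool.Agent.JC.Cell

/-!
# [JC] covering radius of `ℤ[ω]` and the reduction inequality
-/

set_option autoImplicit false

namespace JC

open CM27 CU

theorem cover_aux {d y : ℝ} (h0 : 0 ≤ d) (h1 : d ≤ 1 / 2) (hy : 0 ≤ y) (h : d + √3 * y ≤ 1) :
    d ^ 2 + y ^ 2 ≤ 1 / 3 := by
  have h33 : √3 ^ 2 = 3 := Real.sq_sqrt (by norm_num)
  have h3 := sqrt3_pos
  have h2 : √3 * y ≤ 1 - d := by linarith
  have h4 : (√3 * y) ^ 2 ≤ (1 - d) ^ 2 := pow_le_pow_left₀ (by positivity) h2 2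
  rw [mul_pow, h33] at h4
  nlinarith

/-- The covering radius of `ℤ[ω]` is `1 / √3`. -/
theorem exists_near (z : ℂ) : ∃ n : Eis, ‖emb n - z‖ ^ 2 ≤ 1 / 3 := by
  have h33 : √3 ^ 2 = 3 := Real.sq_sqrt (by norm_num)
  have h3 := sqrt3_pos
  set v : ℤ := ⌊z.im / (√3 / 2)⌋ with hv
  have v1 := Int.floor_le (z.im / (√3 / 2))
  have v2 := Int.lt_floor_add_one (z.im / (√3 / 2))
  rw [← hv] at v1 v2
  rw [le_div_iff₀ (by positivity)] at v1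
  rw [div_lt_iff₀ (by positivity)] at v2
  set t : ℝ := z.re + v / 2 with ht
  set u : ℤ := round t with hu
  have hu1 : |t - u| ≤ 1 / 2 := abs_sub_round t
  have hn : ∀ n : Eis, ‖emb n - z‖ ^ 2 =
      (z.re - n.re + n.im / 2) ^ 2 + (z.im - n.im * (√3 / 2)) ^ 2 := fun n => by
    rw [Complex.sq_norm, Complex.normSq_apply, Complex.sub_re, Complex.sub_im, emb_re, emb_im]
    ring
  set y : ℝ := z.im - v * (√3 / 2) with hy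
  have hy0 : 0 ≤ y := by linarith
  have hy1 : y ≤ √3 / 2 := by
    rw [hy]
    linarith
  set d : ℝ := |t - u| with hd
  have hd0 : 0 ≤ d := abs_nonneg _
  by_cases h : d + √3 * y ≤ 1
  · refine ⟨⟨u, v⟩, ?_⟩
    rw [hn]
    have := cover_aux hd0 hu1 hy0 h
    rw [hd, sq_abs] at this
    calc _ = (t - u) ^ 2 + y ^ 2 := by rw [ht, hy]; ring
      _ ≤ _ := this
  · have h5 : (1 / 2 - d) + √3 * (√3 / 2 - y) ≤ 1 := by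
      have : √3 * (√3 / 2) = 3 / 2 := by
        have : √3 * (√3 / 2) = √3 ^ 2 / 2 := by ring
        rw [this, h33]
      rw [mul_sub, this]
      linarith
    have h6 := cover_aux (by linarith : 0 ≤ 1 / 2 - d) (by linarith) (by linarith) h5
    rcases abs_cases (t - u) with ⟨h7, _⟩ | ⟨h7, _⟩
    · refine ⟨⟨u + 1, v + 1⟩, ?_⟩
      rw [hn]
      rw [hd, h7] at h6
      calc _ = (1 / 2 - (t - u)) ^ 2 + (√3 / 2 - y) ^ 2 := by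
            rw [ht, hy]
            push_cast
            ring
        _ ≤ _ := h6
    · refine ⟨⟨u, v + 1⟩, ?_⟩
      rw [hn]
      rw [hd, h7] at h6
      calc _ = (1 / 2 - -(t - u)) ^ 2 + (√3 / 2 - y) ^ 2 := by
            rw [ht, hy]
            push_cast
            ring
        _ ≤ _ := h6

theorem lagr (w₀ w₁ w₂ : ℝ) (n r₀ r₁ r₂ : ℂ) :
    (w₀ + w₁ + w₂) * (w₀ * ‖n - r₀‖ ^ 2 + w₁ * ‖n - r₁‖ ^ 2 + w₂ * ‖n - r₂‖ ^ 2) =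
      ‖((w₀ + w₁ + w₂ : ℝ) : ℂ) * n - (w₀ * r₀ + w₁ * r₁ + w₂ * r₂)‖ ^ 2 +
        (w₀ * w₁ * ‖r₀ - r₁‖ ^ 2 + w₁ * w₂ * ‖r₁ - r₂‖ ^ 2 + w₂ * w₀ * ‖r₂ - r₀‖ ^ 2) := by
  simp only [Complex.sq_norm, Complex.normSq_apply, Complex.sub_re, Complex.sub_im,
    Complex.add_re, Complex.add_im, Complex.re_ofReal_mul, Complex.im_ofReal_mul]
  ring

/-- The reduction inequality. -/
theorem red_ineq (r₀ r₁ r₂ : ℂ) (h : ∀ n : Eis,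
    ‖r₁ - r₂‖ ^ 2 + ‖r₂ - r₀‖ ^ 2 + ‖r₀ - r₁‖ ^ 2 ≤
      ‖r₁ - r₂‖ ^ 2 * ‖emb n - r₀‖ ^ 2 + ‖r₂ - r₀‖ ^ 2 * ‖emb n - r₁‖ ^ 2 +
        ‖r₀ - r₁‖ ^ 2 * ‖emb n - r₂‖ ^ 2) :
    2 * (‖r₁ - r₂‖ ^ 2 + ‖r₂ - r₀‖ ^ 2 + ‖r₀ - r₁‖ ^ 2) ^ 2 ≤
      9 * (‖r₁ - r₂‖ ^ 2 * ‖r₂ - r₀‖ ^ 2 * ‖r₀ - r₁‖ ^ 2) := by
  set w₀ := ‖r₁ - r₂‖ ^ 2 with hw0
  set w₁ := ‖r₂ - r₀‖ ^ 2 with hw1
  set w₂ := ‖r₀ - r₁‖ ^ 2 with hw2
  have p0 : 0 ≤ w₀ := by positivity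
  have p1 : 0 ≤ w₁ := by positivity
  have p2 : 0 ≤ w₂ := by positivity
  have pm : 0 ≤ w₀ + w₁ + w₂ := by positivity
  rcases pm.eq_or_lt with hm | hm
  · rw [← hm]
    have : 0 ≤ 9 * (w₀ * w₁ * w₂) := by positivity
    linarith
  set m := w₀ + w₁ + w₂ with hmdef
  obtain ⟨n, hn⟩ := exists_near ((w₀ * r₀ + w₁ * r₁ + w₂ * r₂) / m)
  have h1 := h n
  have hmC : (m : ℂ) ≠ 0 := by exact_mod_cast hm.ne'
  have key : m * (w₀ * ‖emb n - r₀‖ ^ 2 + w₁ * ‖emb n - r₁‖ ^ 2 + w₂ * ‖emb n - r₂‖ ^ 2) =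
      m ^ 2 * ‖emb n - (w₀ * r₀ + w₁ * r₁ + w₂ * r₂) / m‖ ^ 2 + 3 * (w₀ * w₁ * w₂) := by
    have e1 : m ^ 2 * ‖emb n - (w₀ * r₀ + w₁ * r₁ + w₂ * r₂) / m‖ ^ 2 =
        ‖(m : ℂ) * emb n - (w₀ * r₀ + w₁ * r₁ + w₂ * r₂)‖ ^ 2 := by
      have e : (m : ℂ) * emb n - (w₀ * r₀ + w₁ * r₁ + w₂ * r₂) =
          (m : ℂ) * (emb n - (w₀ * r₀ + w₁ * r₁ + w₂ * r₂) / m) := by
        field_simp
      rw [e, norm_mul, mul_pow, Complex.norm_real, Real.norm_eq_abs, sq_abs]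
    have e2 : 3 * (w₀ * w₁ * w₂) = w₀ * w₁ * ‖r₀ - r₁‖ ^ 2 + w₁ * w₂ * ‖r₁ - r₂‖ ^ 2 +
        w₂ * w₀ * ‖r₂ - r₀‖ ^ 2 := by
      rw [← hw0, ← hw1, ← hw2]
      ring
    rw [e1, e2, hmdef]
    exact lagr w₀ w₁ w₂ _ _ _ _
  have h2 : m * m ≤ m ^ 2 * (1 / 3) + 3 * (w₀ * w₁ * w₂) := by
    calc m * m ≤ _ := mul_le_mul_of_nonneg_left h1 hm.le
      _ = _ := key
      _ ≤ _ := by
        gcongr
  nlinarith

end JC
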