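import Pool.Agent.JC.R1

/-!
# [JC] reduction of binary cubic forms over `ℤ[ω]`
-/

set_option autoImplicit false

namespace JC

open CM27 CU JZ

/-- The Hermitian form of three points. -/
noncomputable def HF (r₀ r₁ r₂ x y : ℂ) : ℝ :=
  ‖r₁ - r₂‖ ^ 2 * ‖x - r₀ * y‖ ^ 2 + ‖r₂ - r₀‖ ^ 2 * ‖x - r₁ * y‖ ^ 2 +
    ‖r₀ - r₁‖ ^ 2 * ‖x - r₂ * y‖ ^ 2

theorem HF_fin {r₀ r₁ r₂ : ℂ} (h0 : r₁ ≠ r₂) (h1 : r₂ ≠ r₀) (h2 : r₀ ≠ r₁) (C : ℝ) :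
    {v : Eis × Eis | HF r₀ r₁ r₂ (emb v.1) (emb v.2) ≤ C}.Finite := by
  have k0 : 0 < ‖r₁ - r₂‖ ^ 2 := by
    have := norm_pos_iff.2 (sub_ne_zero.2 h0)
    positivity
  have k1 : 0 < ‖r₂ - r₀‖ ^ 2 := by
    have := norm_pos_iff.2 (sub_ne_zero.2 h1)
    positivity
  have k2 : 0 < ‖r₀ - r₁‖ := norm_pos_iff.2 (sub_ne_zero.2 h2)
  set R₀ : ℝ := √(C / ‖r₁ - r₂‖ ^ 2) with hR0
  set R₁ : ℝ := √(C / ‖r₂ - r₀‖ ^ 2) with hR1
  set Y : ℝ := (R₀ + R₁) / ‖r₀ - r₁‖ with hY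
  set X : ℝ := R₀ + ‖r₀‖ * Y with hX
  refine ((disc_fin 0 X).prod (disc_fin 0 Y)).subset ?_
  rintro ⟨x, y⟩ hv
  have hv' : HF r₀ r₁ r₂ (emb x) (emb y) ≤ C := hv
  unfold HF at hv'
  have p0 : 0 ≤ ‖r₁ - r₂‖ ^ 2 * ‖emb x - r₀ * emb y‖ ^ 2 := by positivity
  have p1 : 0 ≤ ‖r₂ - r₀‖ ^ 2 * ‖emb x - r₁ * emb y‖ ^ 2 := by positivity
  have p2 : 0 ≤ ‖r₀ - r₁‖ ^ 2 * ‖emb x - r₂ * emb y‖ ^ 2 := by positivity
  have a0 : ‖emb x - r₀ * emb y‖ ≤ R₀ := by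
    rw [hR0]
    apply Real.le_sqrt_of_sq_le
    rw [le_div_iff₀ k0]
    linarith
  have a1 : ‖emb x - r₁ * emb y‖ ≤ R₁ := by
    rw [hR1]
    apply Real.le_sqrt_of_sq_le
    rw [le_div_iff₀ k1]
    linarith
  have ay : ‖emb y‖ ≤ Y := by
    rw [hY, le_div_iff₀ k2, ← norm_mul]
    calc ‖emb y * (r₀ - r₁)‖ = ‖(emb x - r₁ * emb y) - (emb x - r₀ * emb y)‖ := by
          congr 1
          ring
      _ ≤ ‖emb x - r₁ * emb y‖ + ‖emb x - r₀ * emb y‖ := norm_sub_le _ _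
      _ ≤ R₀ + R₁ := by linarith
  have ax : ‖emb x‖ ≤ X := by
    calc ‖emb x‖ = ‖(emb x - r₀ * emb y) + r₀ * emb y‖ := by rw [sub_add_cancel]
      _ ≤ ‖emb x - r₀ * emb y‖ + ‖r₀ * emb y‖ := norm_add_le _ _
      _ ≤ R₀ + ‖r₀‖ * Y := by
        rw [norm_mul]
        gcongr
  constructor
  · show ‖emb x - 0‖ ≤ X
    rwa [sub_zero]
  · show ‖emb y - 0‖ ≤ Y
    rwa [sub_zero]

theorem HF_mul (r₀ r₁ r₂ k x y : ℂ) : HF r₀ r₁ r₂ (k * x) (k * y) = ‖k‖ ^ 2 * HF r₀ r₁ r₂ x y := by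
  unfold HF
  rw [show k * x - r₀ * (k * y) = k * (x - r₀ * y) by ring,
    show k * x - r₁ * (k * y) = k * (x - r₁ * y) by ring,
    show k * x - r₂ * (k * y) = k * (x - r₂ * y) by ring, norm_mul, norm_mul, norm_mul]
  ring

theorem HF_nonneg (r₀ r₁ r₂ x y : ℂ) : 0 ≤ HF r₀ r₁ r₂ x y := by
  unfold HF
  positivity

/-- A coprime minimal vector. -/
theorem exists_min {r₀ r₁ r₂ : ℂ} (h0 : r₁ ≠ r₂) (h1 : r₂ ≠ r₀) (h2 : r₀ ≠ r₁) :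
    ∃ p q r s : Eis, p * s - q * r = 1 ∧ ∀ x y : Eis, ¬ (x = 0 ∧ y = 0) →
      HF r₀ r₁ r₂ (emb p) (emb r) ≤ HF r₀ r₁ r₂ (emb x) (emb y) := by
  have hdom := eis_isDomain
  have hpid := eis_pid
  have hfin := HF_fin h0 h1 h2 (HF r₀ r₁ r₂ (emb 1) (emb 0))
  obtain ⟨⟨x, y⟩, ⟨hxy1, hxy⟩, hmin⟩ := Set.exists_min_image
    {v : Eis × Eis | HF r₀ r₁ r₂ (emb v.1) (emb v.2) ≤ HF r₀ r₁ r₂ (emb 1) (emb 0) ∧
      ¬ (v.1 = 0 ∧ v.2 = 0)} (fun v => HF r₀ r₁ r₂ (emb v.1) (emb v.2))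
    (hfin.subset fun v hv => hv.1) ⟨(1, 0), le_refl _, fun h => one_ne_zero h.1⟩
  have hall : ∀ x' y' : Eis, ¬ (x' = 0 ∧ y' = 0) →
      HF r₀ r₁ r₂ (emb x) (emb y) ≤ HF r₀ r₁ r₂ (emb x') (emb y') := fun x' y' hne => by
    by_cases h : HF r₀ r₁ r₂ (emb x') (emb y') ≤ HF r₀ r₁ r₂ (emb 1) (emb 0)
    · exact hmin (x', y') ⟨h, hne⟩
    · exact hxy1.trans (not_le.1 h).le
  obtain ⟨δ, hδ⟩ := (IsPrincipalIdealRing.principal (Ideal.span {x, y} : Ideal Eis)).principal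
  have hx : x ∈ Ideal.span {δ} := by
    have : x ∈ (Ideal.span {x, y} : Ideal Eis) := Ideal.subset_span (by simp)
    rw [hδ] at this
    exact this
  have hy : y ∈ Ideal.span {δ} := by
    have : y ∈ (Ideal.span {x, y} : Ideal Eis) := Ideal.subset_span (by simp)
    rw [hδ] at this
    exact this
  have hδ' : δ ∈ (Ideal.span {x, y} : Ideal Eis) := by
    rw [hδ]
    exact Submodule.mem_span_singleton_self δ
  obtain ⟨u, v, huv⟩ := Ideal.mem_span_pair.1 hδ'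
  obtain ⟨x', hx'⟩ := Ideal.mem_span_singleton.1 hx
  obtain ⟨y', hy'⟩ := Ideal.mem_span_singleton.1 hy
  have hδ0 : δ ≠ 0 := by
    rintro rfl
    rw [zero_mul] at hx' hy'
    exact hxy ⟨hx', hy'⟩
  have h1' : u * x' + v * y' = 1 := by
    apply mul_left_cancel₀ hδ0
    rw [mul_one]
    conv_rhs => rw [← huv, hx', hy']
    ring
  refine ⟨x', -v, y', u, by linear_combination h1', fun x₁ y₁ hne => ?_⟩
  refine le_trans ?_ (hall x₁ y₁ hne)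
  rw [hx', hy', map_mul, map_mul, HF_mul, norm_emb_sq]
  have hN : (1 : ℝ) ≤ (δ.norm : ℝ) := by
    have h2 := norm_nonneg' δ
    have h3 : δ.norm ≠ 0 := fun h => hδ0 (a2_norm_zero h)
    have : 1 ≤ δ.norm := by omega
    exact_mod_cast this
  nlinarith [HF_nonneg r₀ r₁ r₂ (emb x') (emb y')]

/-- Every binary cubic form over `ℤ[ω]` without a zero is equivalent to a reduced one. -/
theorem red (a b c d : Eis) (hd : disc a b c d ≠ 0)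
    (hz : ∀ x y : Eis, val a b c d x y = 0 → x = 0 ∧ y = 0) :
    ∃ p q r s : Eis, p * s - q * r = 1 ∧ cA a b c d p q r s ≠ 0 ∧
      ∃ z A B : ℂ, Par (emb (cA a b c d p q r s)) (emb (cB a b c d p q r s))
        (emb (cC a b c d p q r s)) (emb (cD a b c d p q r s)) z A B := by
  have ha : a ≠ 0 := by
    rintro rfl
    exact one_ne_zero (hz 1 0 (by simp [val])).1
  have hea : emb a ≠ 0 := fun h => ha (emb_injective (by rw [h, map_zero]))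
  obtain ⟨r₀, r₁, r₂, eb, ec, ed⟩ := exists_roots (emb a) (emb b) (emb c) (emb d) hea
  have hdisc : emb (disc a b c d) = (emb a) ^ 4 * ((r₁ - r₂) * (r₂ - r₀) * (r₀ - r₁)) ^ 2 := by
    simp only [disc, map_sub, map_add, map_mul, map_pow, map_ofNat, eb, ec, ed]
    ring
  have hdisc0 : emb (disc a b c d) ≠ 0 := fun h => hd (emb_injective (by rw [h, map_zero]))
  rw [hdisc] at hdisc0
  have h0 : r₁ ≠ r₂ := by
    rintro rfl
    simp at hdisc0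
  have h1 : r₂ ≠ r₀ := by
    rintro rfl
    simp at hdisc0
  have h2 : r₀ ≠ r₁ := by
    rintro rfl
    simp at hdisc0
  obtain ⟨p, q, r, s, hdet, hmin⟩ := exists_min h0 h1 h2
  have hdet' : emb p * emb s - emb q * emb r = 1 := by
    rw [← map_mul, ← map_mul, ← map_sub, hdet, map_one]
  have hne : ¬ (p = 0 ∧ r = 0) := by
    rintro ⟨rfl, rfl⟩
    simp at hdet
  have hA0 : cA a b c d p q r s ≠ 0 := fun h => hne (hz p r h)
  have hA0' : emb (cA a b c d p q r s) ≠ 0 := fun h => hA0 (emb_injective (by rw [h, map_zero]))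
  set P₀ : ℂ := emb p - r₀ * emb r with hP0
  set P₁ : ℂ := emb p - r₁ * emb r with hP1
  set P₂ : ℂ := emb p - r₂ * emb r with hP2
  set Q₀ : ℂ := r₀ * emb s - emb q with hQ0
  set Q₁ : ℂ := r₁ * emb s - emb q with hQ1
  set Q₂ : ℂ := r₂ * emb s - emb q with hQ2
  have eA : emb (cA a b c d p q r s) = emb a * (P₀ * P₁ * P₂) := by
    simp only [cA, val, map_add, map_mul, map_pow, eb, ec, ed, hP0, hP1, hP2]
    ring
  have eB : emb (cB a b c d p q r s) = -emb a * (Q₀ * P₁ * P₂ + P₀ * Q₁ * P₂ + P₀ * P₁ * Q₂) := by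
    simp only [cB, map_add, map_mul, map_pow, map_ofNat, eb, ec, ed, hP0, hP1, hP2, hQ0, hQ1, hQ2]
    ring
  have eC : emb (cC a b c d p q r s) = emb a * (Q₀ * Q₁ * P₂ + Q₀ * P₁ * Q₂ + P₀ * Q₁ * Q₂) := by
    simp only [cC, map_add, map_mul, map_pow, map_ofNat, eb, ec, ed, hP0, hP1, hP2, hQ0, hQ1, hQ2]
    ring
  have eD : emb (cD a b c d p q r s) = -emb a * (Q₀ * Q₁ * Q₂) := by
    simp only [cD, val, map_add, map_mul, map_pow, eb, ec, ed, hQ0, hQ1, hQ2]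
    ring
  rw [eA] at hA0'
  have n0 : P₀ ≠ 0 := fun h => hA0' (by rw [h]; ring)
  have n1 : P₁ ≠ 0 := fun h => hA0' (by rw [h]; ring)
  have n2 : P₂ ≠ 0 := fun h => hA0' (by rw [h]; ring)
  have d0 : Q₁ / P₁ - Q₂ / P₂ = (r₁ - r₂) / (P₁ * P₂) := by
    rw [div_sub_div _ _ n1 n2]
    congr 1
    rw [hP1, hP2, hQ1, hQ2]
    linear_combination (r₁ - r₂) * hdet'
  have d1 : Q₂ / P₂ - Q₀ / P₀ = (r₂ - r₀) / (P₂ * P₀) := by
    rw [div_sub_div _ _ n2 n0]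
    congr 1
    rw [hP0, hP2, hQ0, hQ2]
    linear_combination (r₂ - r₀) * hdet'
  have d2 : Q₀ / P₀ - Q₁ / P₁ = (r₀ - r₁) / (P₀ * P₁) := by
    rw [div_sub_div _ _ n0 n1]
    congr 1
    rw [hP0, hP1, hQ0, hQ1]
    linear_combination (r₀ - r₁) * hdet'
  refine ⟨p, q, r, s, hdet, hA0, ?_⟩
  refine par_of_roots (r₀ := Q₀ / P₀) (r₁ := Q₁ / P₁) (r₂ := Q₂ / P₂) ?_ ?_ ?_ ?_ ?_ ?_ ?_
  · rw [eA, eB]
    field_simp
  · rw [eA, eC]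
    field_simp
  · rw [eA, eD]
    field_simp
  · rw [← sub_ne_zero, d0]
    exact div_ne_zero (sub_ne_zero.2 h0) (mul_ne_zero n1 n2)
  · rw [← sub_ne_zero, d1]
    exact div_ne_zero (sub_ne_zero.2 h1) (mul_ne_zero n2 n0)
  · rw [← sub_ne_zero, d2]
    exact div_ne_zero (sub_ne_zero.2 h2) (mul_ne_zero n0 n1)
  · apply red_ineq
    intro n
    have hne' : ¬ (n * p + q = 0 ∧ n * r + s = 0) := by
      rintro ⟨e1, e2⟩
      have : p * s - q * r = 0 := by linear_combination p * e2 - r * e1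
      rw [this] at hdet
      exact zero_ne_one hdet
    have hm := hmin _ _ hne'
    unfold HF at hm
    rw [← hP0, ← hP1, ← hP2] at hm
    have m0 : emb (n * p + q) - r₀ * emb (n * r + s) = emb n * P₀ - Q₀ := by
      rw [map_add, map_add, map_mul, map_mul, hP0, hQ0]
      ring
    have m1 : emb (n * p + q) - r₁ * emb (n * r + s) = emb n * P₁ - Q₁ := by
      rw [map_add, map_add, map_mul, map_mul, hP1, hQ1]
      ring
    have m2 : emb (n * p + q) - r₂ * emb (n * r + s) = emb n * P₂ - Q₂ := by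
      rw [map_add, map_add, map_mul, map_mul, hP2, hQ2]
      ring
    rw [m0, m1, m2] at hm
    have f0 : emb n - Q₀ / P₀ = (emb n * P₀ - Q₀) / P₀ := by field_simp
    have f1 : emb n - Q₁ / P₁ = (emb n * P₁ - Q₁) / P₁ := by field_simp
    have f2 : emb n - Q₂ / P₂ = (emb n * P₂ - Q₂) / P₂ := by field_simp
    rw [d0, d1, d2, f0, f1, f2]
    simp only [norm_div, norm_mul]
    have g0 := norm_pos_iff.2 n0
    have g1 := norm_pos_iff.2 n1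
    have g2 := norm_pos_iff.2 n2
    set N₀ := ‖P₀‖
    set N₁ := ‖P₁‖
    set N₂ := ‖P₂‖
    have e1 : (‖r₁ - r₂‖ / (N₁ * N₂)) ^ 2 + (‖r₂ - r₀‖ / (N₂ * N₀)) ^ 2 +
        (‖r₀ - r₁‖ / (N₀ * N₁)) ^ 2 =
        (‖r₁ - r₂‖ ^ 2 * N₀ ^ 2 + ‖r₂ - r₀‖ ^ 2 * N₁ ^ 2 + ‖r₀ - r₁‖ ^ 2 * N₂ ^ 2) /
          (N₀ * N₁ * N₂) ^ 2 := by
      field_simp
    have e2 : (‖r₁ - r₂‖ / (N₁ * N₂)) ^ 2 * (‖emb n * P₀ - Q₀‖ / N₀) ^ 2 +
        (‖r₂ - r₀‖ / (N₂ * N₀)) ^ 2 * (‖emb n * P₁ - Q₁‖ / N₁) ^ 2 +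
        (‖r₀ - r₁‖ / (N₀ * N₁)) ^ 2 * (‖emb n * P₂ - Q₂‖ / N₂) ^ 2 =
        (‖r₁ - r₂‖ ^ 2 * ‖emb n * P₀ - Q₀‖ ^ 2 + ‖r₂ - r₀‖ ^ 2 * ‖emb n * P₁ - Q₁‖ ^ 2 +
          ‖r₀ - r₁‖ ^ 2 * ‖emb n * P₂ - Q₂‖ ^ 2) / (N₀ * N₁ * N₂) ^ 2 := by
      field_simp
    rw [e1, e2]
    exact div_le_div_of_nonneg_right hm (by positivity)

end JC
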