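import Pool.Agent.JC.R3

/-!
# [JC] the twelve forms
-/

set_option autoImplicit false

namespace JC

open CM27 CU JZ

section Ring

variable {R : Type*} [CommRing R]

/-- the seminvariant `3 a c - b²` -/
def kP (a b c : R) : R := 3 * a * c - b ^ 2

/-- the seminvariant `27 a² d - 9 a b c + 2 b³` -/
def kQ (a b c d : R) : R := 27 * a ^ 2 * d - 9 * a * b * c + 2 * b ^ 3

theorem kP_tri (a b c d p q s : R) :
    kP (cA a b c d p q 0 s) (cB a b c d p q 0 s) (cC a b c d p q 0 s) =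
      p ^ 4 * s ^ 2 * kP a b c := by
  simp only [kP, cA, cB, cC, val]
  ring

theorem kQ_tri (a b c d p q s : R) :
    kQ (cA a b c d p q 0 s) (cB a b c d p q 0 s) (cC a b c d p q 0 s) (cD a b c d p q 0 s) =
      p ^ 6 * s ^ 3 * kQ a b c d := by
  simp only [kQ, cA, cB, cC, cD, val]
  ring

theorem key_disc (a b c d : R) : 27 * a ^ 2 * disc a b c d = -(kQ a b c d ^ 2 + 4 * kP a b c ^ 3) := by
  simp only [kQ, kP, disc]
  ring

theorem kQ_val (a b c d : R) : val a b c d (-b) (3 * a) = a * kQ a b c d := by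
  simp only [kQ, val]
  ring

/-- composition -/
theorem act_act (a b c d p q r s p' q' r' s' : R) :
    cA (cA a b c d p q r s) (cB a b c d p q r s) (cC a b c d p q r s) (cD a b c d p q r s)
      p' q' r' s' = cA a b c d (p * p' + q * r') (p * q' + q * s') (r * p' + s * r')
        (r * q' + s * s') ∧
    cB (cA a b c d p q r s) (cB a b c d p q r s) (cC a b c d p q r s) (cD a b c d p q r s)
      p' q' r' s' = cB a b c d (p * p' + q * r') (p * q' + q * s') (r * p' + s * r')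
        (r * q' + s * s') ∧
    cC (cA a b c d p q r s) (cB a b c d p q r s) (cC a b c d p q r s) (cD a b c d p q r s)
      p' q' r' s' = cC a b c d (p * p' + q * r') (p * q' + q * s') (r * p' + s * r')
        (r * q' + s * s') ∧
    cD (cA a b c d p q r s) (cB a b c d p q r s) (cC a b c d p q r s) (cD a b c d p q r s)
      p' q' r' s' = cD a b c d (p * p' + q * r') (p * q' + q * s') (r * p' + s * r')
        (r * q' + s * s') := by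
  refine ⟨?_, ?_, ?_, ?_⟩ <;>
  · simp only [cA, cB, cC, cD, val]
    ring

end Ring

theorem la_six : (la : Eis) ^ 6 = -27 := by decide

theorem la_ne : (la : Eis) ≠ 0 := by decide

theorem not_sq {D : Eis} (hD : CondTwo D) {u v : Eis} (hu : u ≠ 0) : u ^ 2 * D ≠ v ^ 2 := by
  have hdom := eis_isDomain
  have hpid := eis_pid
  intro h
  have h1 : u ^ 2 ∣ v ^ 2 := ⟨D, h.symm⟩
  have h2 : u ∣ v := by
    exact (UniqueFactorizationMonoid.pow_dvd_pow_iff_dvd two_ne_zero).1 h1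
  obtain ⟨m, rfl⟩ := h2
  rw [mul_pow] at h
  have h3 : D = m ^ 2 := mul_left_cancel₀ (pow_ne_zero 2 hu) h
  exact hD m (by rw [h3, sub_self]; exact dvd_zero _)

/-- What is used of the reduced form of `D`. -/
structure Good (T : Set O4) (D : Eis) (g : O4) : Prop where
  disc_eq : disc g.1 g.2.1 g.2.2.1 g.2.2.2 = 4 * la ^ 4 * D
  a_ne : g.1 ≠ 0
  P_ne : kP g.1 g.2.1 g.2.2.1 ≠ 0
  Q_ne : kQ g.1 g.2.1 g.2.2.1 g.2.2.2 ≠ 0
  par : ∃ z A B : ℂ, Par (emb g.1) (emb g.2.1) (emb g.2.2.1) (emb g.2.2.2) z A B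
  mem : ∀ p q r s : Eis, IsUnit (p * s - q * r) →
    (cA g.1 g.2.1 g.2.2.1 g.2.2.2 p q r s, cB g.1 g.2.1 g.2.2.1 g.2.2.2 p q r s,
      cC g.1 g.2.1 g.2.2.1 g.2.2.2 p q r s, cD g.1 g.2.1 g.2.2.1 g.2.2.2 p q r s) ∈ T

theorem exists_good (T : Set O4)
    (hT : ∀ a b c d D p q r s : Eis, Cl D → disc a (la * b) (la ^ 2 * c) (la * d) = 4 * la ^ 4 * D →
      IsUnit (p * s - q * r) →
      (cA a (la * b) (la ^ 2 * c) (la * d) p q r s, cB a (la * b) (la ^ 2 * c) (la * d) p q r s,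
        cC a (la * b) (la ^ 2 * c) (la * d) p q r s, cD a (la * b) (la ^ 2 * c) (la * d) p q r s) ∈ T)
    {D : Eis} (hD : Cl D) (hF : HasForm D) : ∃ g : O4, Good T D g := by
  have hdom := eis_isDomain
  obtain ⟨a, b, c, d, hdisc, hz⟩ := hF
  have hD0 : D ≠ 0 := by
    rintro rfl
    exact hD.2.2 0 (by simp)
  have hz' : ∀ x y : Eis, val a (la * b) (la ^ 2 * c) (la * d) x y = 0 → x = 0 ∧ y = 0 :=
    fun x y h => hz x y h
  have hd0 : disc a (la * b) (la ^ 2 * c) (la * d) ≠ 0 := by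
    rw [hdisc]
    exact mul_ne_zero (mul_ne_zero (by decide) (pow_ne_zero 4 la_ne)) hD0
  obtain ⟨p, q, r, s, hdet, hA, hpar⟩ := red _ _ _ _ hd0 hz'
  set A' := cA a (la * b) (la ^ 2 * c) (la * d) p q r s with hA'
  set B' := cB a (la * b) (la ^ 2 * c) (la * d) p q r s with hB'
  set C' := cC a (la * b) (la ^ 2 * c) (la * d) p q r s with hC'
  set D' := cD a (la * b) (la ^ 2 * c) (la * d) p q r s with hD'
  have e1 : disc A' B' C' D' = 4 * la ^ 4 * D := by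
    rw [hA', hB', hC', hD', disc_act, hdet, one_pow, one_mul, hdisc]
  have hz2 : ∀ x y : Eis, val A' B' C' D' x y = 0 → x = 0 ∧ y = 0 := fun x y h => by
    rw [hA', hB', hC', hD', val_act] at h
    obtain ⟨h1, h2⟩ := hz' _ _ h
    constructor
    · linear_combination s * h1 - q * h2 - x * hdet
    · linear_combination p * h2 - r * h1 - y * hdet
  refine ⟨(A', B', C', D'), e1, hA, fun hP => ?_, fun hQ => ?_, hpar, fun p' q' r' s' hu => ?_⟩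
  · have hk := key_disc A' B' C' D'
    have hP' : kP A' B' C' = 0 := hP
    rw [hP', e1] at hk
    refine not_sq hD.2.2 (u := 2 * la ^ 5 * A') (v := kQ A' B' C' D')
      (mul_ne_zero (mul_ne_zero (by decide) (pow_ne_zero 5 la_ne)) hA) ?_
    have h6 : (27 : Eis) = -la ^ 6 := by rw [la_six]; ring
    rw [h6] at hk
    linear_combination -hk
  · have hv := kQ_val A' B' C' D'
    have hQ' : kQ A' B' C' D' = 0 := hQ
    rw [hQ', mul_zero] at hv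
    have := (hz2 _ _ hv).2
    exact mul_ne_zero (by decide) hA this
  · obtain ⟨f1, f2, f3, f4⟩ := act_act a (la * b) (la ^ 2 * c) (la * d) p q r s p' q' r' s'
    rw [f1, f2, f3, f4]
    refine hT a b c d D _ _ _ _ hD hdisc ?_
    have : (p * p' + q * r') * (r * q' + s * s') - (p * q' + q * s') * (r * p' + s * r') =
        p' * s' - q' * r' := by
      linear_combination (p' * s' - q' * r') * hdet
    rw [this]
    exact hu

/-- the twelve pairs of a unit and a sign -/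
def U12 : Finset (Eis × Eis) :=
  ({1, -1, om, -om, om ^ 2, -om ^ 2} : Finset Eis) ×ˢ ({1, -1} : Finset Eis)

theorem U12_card : U12.card = 12 := by decide

theorem U12_prop : ∀ u ∈ U12, u.1 ^ 6 = 1 ∧ u.2 ^ 2 = 1 := by decide

/-- the twisted form -/
def tw (g : O4) (u : Eis × Eis) (n : Eis) : O4 :=
  (cA g.1 g.2.1 g.2.2.1 g.2.2.2 u.1 (u.1 * n) 0 (u.2 * u.1 ^ 5),
    cB g.1 g.2.1 g.2.2.1 g.2.2.2 u.1 (u.1 * n) 0 (u.2 * u.1 ^ 5),
    cC g.1 g.2.1 g.2.2.1 g.2.2.2 u.1 (u.1 * n) 0 (u.2 * u.1 ^ 5),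
    cD g.1 g.2.1 g.2.2.1 g.2.2.2 u.1 (u.1 * n) 0 (u.2 * u.1 ^ 5))

theorem tw_key (g : O4) {u : Eis × Eis} (hu : u.1 ^ 6 = 1 ∧ u.2 ^ 2 = 1) (n : Eis) :
    disc (tw g u n).1 (tw g u n).2.1 (tw g u n).2.2.1 (tw g u n).2.2.2 =
      disc g.1 g.2.1 g.2.2.1 g.2.2.2 ∧ (tw g u n).1 = u.1 ^ 3 * g.1 ∧
    kP (tw g u n).1 (tw g u n).2.1 (tw g u n).2.2.1 = u.1 ^ 2 * kP g.1 g.2.1 g.2.2.1 ∧
    kQ (tw g u n).1 (tw g u n).2.1 (tw g u n).2.2.1 (tw g u n).2.2.2 =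
      u.2 * u.1 ^ 3 * kQ g.1 g.2.1 g.2.2.1 g.2.2.2 := by
  obtain ⟨h6, h2⟩ := hu
  refine ⟨?_, ?_, ?_, ?_⟩
  · simp only [tw]
    rw [disc_act]
    have : (u.1 * (u.2 * u.1 ^ 5) - u.1 * n * 0) ^ 6 = 1 := by
      calc (u.1 * (u.2 * u.1 ^ 5) - u.1 * n * 0) ^ 6 = (u.1 ^ 6) ^ 6 * (u.2 ^ 2) ^ 3 := by ring
        _ = 1 := by rw [h6, h2]; ring
    rw [this, one_mul]
  · simp only [tw, cA, val]
    ring
  · simp only [tw]
    rw [kP_tri]
    have : u.1 ^ 4 * (u.2 * u.1 ^ 5) ^ 2 = u.1 ^ 2 := by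
      calc u.1 ^ 4 * (u.2 * u.1 ^ 5) ^ 2 = u.1 ^ 2 * (u.1 ^ 6) ^ 2 * u.2 ^ 2 := by ring
        _ = _ := by rw [h6, h2]; ring
    rw [this]
  · simp only [tw]
    rw [kQ_tri]
    have : u.1 ^ 6 * (u.2 * u.1 ^ 5) ^ 3 = u.2 * u.1 ^ 3 := by
      calc u.1 ^ 6 * (u.2 * u.1 ^ 5) ^ 3 = u.1 ^ 3 * (u.1 ^ 6) ^ 3 * (u.2 ^ 2) * u.2 := by ring
        _ = _ := by rw [h6, h2]; ring
    rw [this]

theorem tw_inj {T : Set O4} {D₁ D₂ : Eis} {g₁ g₂ : O4} (h₁ : Good T D₁ g₁) (h₂ : Good T D₂ g₂)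
    (hg : D₁ = D₂ → g₁ = g₂) {u₁ u₂ : Eis × Eis} (hu₁ : u₁.1 ^ 6 = 1 ∧ u₁.2 ^ 2 = 1)
    (hu₂ : u₂.1 ^ 6 = 1 ∧ u₂.2 ^ 2 = 1) {n₁ n₂ : Eis} (h : tw g₁ u₁ n₁ = tw g₂ u₂ n₂) :
    D₁ = D₂ ∧ u₁ = u₂ := by
  have hdom := eis_isDomain
  obtain ⟨a1, a2, a3, a4⟩ := tw_key g₁ hu₁ n₁
  obtain ⟨b1, b2, b3, b4⟩ := tw_key g₂ hu₂ n₂
  rw [h] at a1 a2 a3 a4
  have hD : D₁ = D₂ := by
    have h1 : 4 * la ^ 4 * D₁ = 4 * la ^ 4 * D₂ := by
      rw [← h₁.disc_eq, ← h₂.disc_eq, ← a1, ← b1]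
    exact mul_left_cancel₀ (mul_ne_zero (by decide) (pow_ne_zero 4 la_ne)) h1
  have hgg := hg hD
  subst hgg
  rw [b2] at a2
  rw [b3] at a3
  rw [b4] at a4
  have c1 : u₂.1 ^ 3 = u₁.1 ^ 3 := mul_right_cancel₀ h₁.a_ne a2
  have c2 : u₂.1 ^ 2 = u₁.1 ^ 2 := mul_right_cancel₀ h₁.P_ne a3
  have hu0 : u₁.1 ≠ 0 := by
    intro h0
    rw [h0] at hu₁
    simp at hu₁
  have c3 : u₁.1 = u₂.1 := by
    apply mul_left_cancel₀ (pow_ne_zero 2 hu0)
    linear_combination u₂.1 * c2 - c1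
  have c4 : u₁.2 = u₂.2 := by
    have c5 := mul_right_cancel₀ h₁.Q_ne a4
    rw [c1] at c5
    exact (mul_right_cancel₀ (pow_ne_zero 3 hu0) c5).symm
  exact ⟨hD, Prod.ext c3 c4⟩

theorem par_disc {a b c d z A B : ℂ} (h : Par a b c d z A B) :
    disc a b c d = -27 * a ^ 4 * (A ^ 3 - B ^ 3) ^ 2 := by
  obtain ⟨hb, hc, hd, -, -⟩ := h
  simp only [disc, hb, hc, hd]
  ring

theorem tw_reg {T : Set O4} {D : Eis} {g : O4} (hg : Good T D g) {u : Eis × Eis}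
    (hu : u.1 ^ 6 = 1 ∧ u.2 ^ 2 = 1) {s : ℝ} (hs : 36 * ‖emb D‖ ≤ s ^ 4) :
    ∃ n : Eis, emb4 (tw g u n) ∈ Reg s := by
  obtain ⟨z, A, B, hpar⟩ := hg.par
  obtain ⟨h6, h2⟩ := hu
  have e6 : emb u.1 ^ 6 = 1 := by rw [← map_pow, h6, map_one]
  have e2 : emb u.2 ^ 2 = 1 := by rw [← map_pow, h2, map_one]
  have hn1 : ‖emb u.1‖ = 1 := by
    have : ‖emb u.1‖ ^ 6 = 1 := by rw [← norm_pow, e6, norm_one]
    exact (pow_eq_one_iff_of_nonneg (norm_nonneg _) (by norm_num)).1 this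
  have hn2 : ‖emb u.2‖ = 1 := by
    have : ‖emb u.2‖ ^ 2 = 1 := by rw [← norm_pow, e2, norm_one]
    exact (pow_eq_one_iff_of_nonneg (norm_nonneg _) (by norm_num)).1 this
  obtain ⟨n, hn⟩ := rect_cover one_pos 0 (emb u.2 * emb u.1 ^ 4 * z)
  have hdisc := par_disc hpar
  obtain ⟨hb, hc, hd, hr1, hr2⟩ := hpar
  set ζ := emb u.1 with hζ
  set ε := emb u.2 with hε
  refine ⟨n, ?_, ε * ζ ^ 4 * z - emb n, ε * ζ ^ 4 * A, ε * ζ ^ 4 * B, ?_, ⟨?_, ?_, ?_, ?_, ?_⟩, ?_⟩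
  · intro h0
    have h0' : emb (tw g u n).1 = 0 := h0
    rw [(tw_key g ⟨h6, h2⟩ n).2.1, map_mul, map_pow, ← hζ] at h0'
    have hdom := eis_isDomain
    rcases mul_eq_zero.1 h0' with h | h
    · have := pow_eq_zero_iff (by norm_num) |>.1 h
      rw [this, norm_zero] at hn1
      exact zero_ne_one hn1
    · exact hg.a_ne (emb_injective (by rw [h, map_zero]))
  · obtain ⟨a1, a2, a3, a4⟩ := hn
    simp only [Complex.zero_re, Complex.zero_im, Complex.ofReal_one, one_mul, zero_add] at a1 a2 a3 a4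
    refine ⟨?_, ?_, ?_, ?_⟩
    · rw [Complex.sub_re]; linarith
    · rw [Complex.sub_re]; linarith
    · rw [Complex.sub_im]; linarith
    · rw [Complex.sub_im]; linarith
  · show emb (cB g.1 g.2.1 g.2.2.1 g.2.2.2 u.1 (u.1 * n) 0 (u.2 * u.1 ^ 5)) =
      -3 * emb (cA g.1 g.2.1 g.2.2.1 g.2.2.2 u.1 (u.1 * n) 0 (u.2 * u.1 ^ 5)) * _
    simp only [cA, cB, val, map_add, map_mul, map_pow, map_ofNat, map_zero, hb, hc, hd, ← hζ, ← hε]
    ring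
  · show emb (cC g.1 g.2.1 g.2.2.1 g.2.2.2 u.1 (u.1 * n) 0 (u.2 * u.1 ^ 5)) =
      emb (cA g.1 g.2.1 g.2.2.1 g.2.2.2 u.1 (u.1 * n) 0 (u.2 * u.1 ^ 5)) * _
    simp only [cA, cC, val, map_add, map_mul, map_pow, map_ofNat, map_zero, hb, hc, hd, ← hζ, ← hε]
    ring
  · show emb (cD g.1 g.2.1 g.2.2.1 g.2.2.2 u.1 (u.1 * n) 0 (u.2 * u.1 ^ 5)) =
      emb (cA g.1 g.2.1 g.2.2.1 g.2.2.2 u.1 (u.1 * n) 0 (u.2 * u.1 ^ 5)) * _
    simp only [cA, cD, val, map_add, map_mul, map_pow, map_ofNat, map_zero, hb, hc, hd, ← hζ, ← hε]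
    ring
  · have e3 : (ε * ζ ^ 4 * A) ^ 3 - (ε * ζ ^ 4 * B) ^ 3 = (ε * ζ ^ 4) ^ 3 * (A ^ 3 - B ^ 3) := by ring
    rw [e3]
    simp only [norm_mul, norm_pow, hn1, hn2, one_pow, one_mul, mul_one]
    exact hr1
  · simp only [norm_mul, norm_pow, hn1, hn2, one_pow, one_mul, mul_one]
    exact hr2
  · have e3 : (ε * ζ ^ 4 * A) ^ 3 - (ε * ζ ^ 4 * B) ^ 3 = (ε * ζ ^ 4) ^ 3 * (A ^ 3 - B ^ 3) := by ring
    rw [e3]
    have e4 : ‖(emb4 (tw g u n)).1‖ = ‖emb g.1‖ := by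
      show ‖emb (tw g u n).1‖ = _
      rw [(tw_key g ⟨h6, h2⟩ n).2.1, map_mul, map_pow, ← hζ, norm_mul, norm_pow, hn1, one_pow,
        one_mul]
    rw [e4]
    simp only [norm_mul, norm_pow, hn1, hn2, one_pow, one_mul]
    have e5 : emb (disc g.1 g.2.1 g.2.2.1 g.2.2.2) = disc (emb g.1) (emb g.2.1) (emb g.2.2.1)
        (emb g.2.2.2) := by
      simp only [disc, map_sub, map_add, map_mul, map_pow, map_ofNat]
    have e7 : ‖emb (disc g.1 g.2.1 g.2.2.1 g.2.2.2)‖ =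
        27 * ‖emb g.1‖ ^ 4 * ‖A ^ 3 - B ^ 3‖ ^ 2 := by
      rw [e5, hdisc, norm_mul, norm_mul, norm_neg, norm_pow, norm_pow]
      norm_num
    rw [← e7, hg.disc_eq, map_mul, map_mul, norm_mul, norm_mul]
    have e8 : ‖emb (4 : Eis)‖ * ‖emb (la ^ 4)‖ = 36 := by
      have h9 : emb (la ^ 4) = 9 * w ^ 2 := by
        have : (la : Eis) ^ 4 = 9 * om ^ 2 := by decide
        rw [this, map_mul, map_pow, map_ofNat]
        have : emb om = w := by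
          rw [emb_apply]
          simp [om]
        rw [this]
      rw [h9, map_ofNat, norm_mul, norm_pow, norm_w]
      norm_num
    rw [e8]
    exact hs

theorem tw_mem {T : Set O4} {D : Eis} {g : O4} (hg : Good T D g) {u : Eis × Eis}
    (hu : u.1 ^ 6 = 1 ∧ u.2 ^ 2 = 1) (n : Eis) : tw g u n ∈ T := by
  refine hg.mem _ _ _ _ ?_
  apply IsUnit.of_pow_eq_one (n := 2) _ two_ne_zero
  calc (u.1 * (u.2 * u.1 ^ 5) - u.1 * n * 0) ^ 2 = (u.1 ^ 6) ^ 2 * u.2 ^ 2 := by ring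
    _ = 1 := by rw [hu.1, hu.2]; ring

theorem SB_fin (X : ℕ) : (SB X).Finite := by
  refine (disc_fin 0 (√X)).subset fun D hD => ?_
  show ‖emb D - 0‖ ≤ √X
  rw [sub_zero]
  apply Real.le_sqrt_of_sq_le
  rw [norm_emb_sq]
  exact_mod_cast hD.2.2

/-- Twelve forms for every `D`. -/
theorem twelve (T : Set O4)
    (hT : ∀ a b c d D p q r s : Eis, Cl D → disc a (la * b) (la ^ 2 * c) (la * d) = 4 * la ^ 4 * D →
      IsUnit (p * s - q * r) →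
      (cA a (la * b) (la ^ 2 * c) (la * d) p q r s, cB a (la * b) (la ^ 2 * c) (la * d) p q r s,
        cC a (la * b) (la ^ 2 * c) (la * d) p q r s, cD a (la * b) (la ^ 2 * c) (la * d) p q r s) ∈ T)
    (X : ℕ) (s : ℝ) (hs : 0 ≤ s) (hX : s ^ 8 = 1296 * X)
    (hfin : {g : O4 | g ∈ T ∧ emb4 g ∈ Reg s}.Finite) :
    (SB X).Finite ∧ 12 * (SB X).ncard ≤ {g : O4 | g ∈ T ∧ emb4 g ∈ Reg s}.ncard := by
  classical
  have hS := SB_fin X
  refine ⟨hS, ?_⟩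
  have hex : ∀ D : Eis, ∃ g : O4, D ∈ SB X → Good T D g := fun D => by
    by_cases hD : D ∈ SB X
    · obtain ⟨g, hg⟩ := exists_good T hT hD.1 hD.2.1
      exact ⟨g, fun _ => hg⟩
    · exact ⟨(0, 0, 0, 0), fun h => absurd h hD⟩
  choose g hg using hex
  have hbd : ∀ D ∈ SB X, 36 * ‖emb D‖ ≤ s ^ 4 := fun D hD => by
    refine le_of_sq_le_sq ?_ (by positivity)
    rw [mul_pow, norm_emb_sq, ← pow_mul, hX]
    have : ((D.norm : ℤ) : ℝ) ≤ X := by exact_mod_cast hD.2.2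
    linarith
  have hex2 : ∀ (D : Eis) (u : Eis × Eis), ∃ n : Eis, D ∈ SB X → u ∈ U12 →
      emb4 (tw (g D) u n) ∈ Reg s := fun D u => by
    by_cases hD : D ∈ SB X
    · by_cases hu : u ∈ U12
      · obtain ⟨n, hn⟩ := tw_reg (hg D hD) (U12_prop u hu) (hbd D hD)
        exact ⟨n, fun _ _ => hn⟩
      · exact ⟨0, fun _ h => absurd h hu⟩
    · exact ⟨0, fun h => absurd h hD⟩
  choose n hn using hex2
  have hcard : 12 * (SB X).ncard = ((SB X) ×ˢ (U12 : Set (Eis × Eis))).ncard := by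
    rw [Set.ncard_prod, Set.ncard_coe_finset, U12_card, mul_comm]
  rw [hcard]
  refine Set.ncard_le_ncard_of_injOn (fun x => tw (g x.1) x.2 (n x.1 x.2)) ?_ ?_ hfin
  · rintro ⟨D, u⟩ ⟨hD, hu⟩
    exact ⟨tw_mem (hg D hD) (U12_prop u hu) _, hn D u hD hu⟩
  · rintro ⟨D₁, u₁⟩ ⟨hD₁, hu₁⟩ ⟨D₂, u₂⟩ ⟨hD₂, hu₂⟩ h
    obtain ⟨h1, h2⟩ := tw_inj (hg D₁ hD₁) (hg D₂ hD₂) (fun h => congrArg g h) (U12_prop u₁ hu₁)
      (U12_prop u₂ hu₂) h
    exact Prod.ext h1 h2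

end JC
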