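import Pool.Agent.JC.T0

/-!
# [JC] the local condition at `λ`
-/

set_option autoImplicit false

namespace JC

open CM27 CU JZ

/-- `λ` modulo `9` -/
def el : QA 9 := ⟨1, -1⟩

theorem rd_la : rd 9 la = el := rfl

theorem el_four : el ^ 4 = 0 := by decide

theorem el_cube (x : QA 9) : el ^ 3 * x ^ 3 = el ^ 3 * x := by
  revert x
  decide +kernel

theorem el_sq (x : QA 9) : el ^ 3 * x ≠ 0 → el ^ 3 * x ^ 2 = el ^ 3 := by
  revert x
  decide +kernel

theorem unit_inv (x : QA 9) : el ^ 3 * x ≠ 0 → x * x ^ 5 = 1 := by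
  revert x
  decide +kernel

/-- representatives modulo `λ³` -/
def B3 : Finset (QA 9) := Finset.univ.filter fun x => x.im.val < 3

/-- representatives modulo `λ²` -/
def B2 : Finset (QA 9) := Finset.univ.filter fun x => x.re.val < 3 ∧ x.im.val < 3

theorem B3_ex (x : QA 9) : ∃ y ∈ B3, el * x = el * y := by
  revert x
  decide +kernel

theorem B3_inj : ∀ x ∈ B3, ∀ y ∈ B3, el * x = el * y → x = y := by
  decide +kernel

theorem B2_ex (x : QA 9) : ∃ y ∈ B2, el ^ 2 * x = el ^ 2 * y := by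
  revert x
  decide +kernel

/-- units -/
def UA : Finset (QA 9) := Finset.univ.filter fun x => el ^ 3 * x ≠ 0

/-- unit representatives modulo `λ³` -/
def UB : Finset (QA 9) := B3.filter fun x => el ^ 3 * x ≠ 0

/-- non-unit representatives modulo `λ³` -/
def NB : Finset (QA 9) := B3.filter fun x => el ^ 3 * x = 0

theorem mem_UA (x : QA 9) : x ∈ UA ↔ el ^ 3 * x ≠ 0 := by
  rw [UA, Finset.mem_filter]
  exact ⟨fun h => h.2, fun h => ⟨Finset.mem_univ _, h⟩⟩

theorem mem_UB (x : QA 9) : x ∈ UB ↔ x ∈ B3 ∧ el ^ 3 * x ≠ 0 := by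
  rw [UB, Finset.mem_filter]

theorem mem_NB (x : QA 9) : x ∈ NB ↔ x ∈ B3 ∧ el ^ 3 * x = 0 := by
  rw [NB, Finset.mem_filter]

theorem card_UA : UA.card = 54 := by decide +kernel

theorem card_UB : UB.card = 18 := by decide +kernel

theorem card_B3 : B3.card = 27 := by decide +kernel

theorem card_B2 : B2.card = 9 := by decide +kernel

theorem card_NB : NB.card = 9 := by decide +kernel

/-- the values of `λ D` -/
def W9 : Finset (QA 9) := {el, -el, el - el ^ 3, -el - el ^ 3}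

theorem W9_card : W9.card ≤ 4 := by decide +kernel

/-- the values of `4 λ D` -/
def V9 : Finset (QA 9) := W9.image fun x => 4 * x

theorem V9_card : V9.card ≤ 4 := Finset.card_image_le.trans W9_card

theorem V9_ne : ∀ v ∈ V9, el ^ 2 * v ≠ 0 := by decide +kernel

theorem mem_W9 (x : QA 9) : x ∈ W9 ↔ x = el ∨ x = -el ∨ x = el - el ^ 3 ∨ x = -el - el ^ 3 := by
  simp only [W9, Finset.mem_insert, Finset.mem_singleton]

theorem mem_V9 {x : QA 9} (h : x ∈ W9) : 4 * x ∈ V9 := Finset.mem_image_of_mem _ h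

theorem four_mul : (4 : QA 9) * 7 = 1 := by decide

attribute [irreducible] B3 B2 UA UB NB W9 V9

/-! ### the first position -/

/-- the function `λ F` -/
def lF (v : QA 9 × QA 9 × QA 9 × QA 9) : QA 9 :=
  el * (-v.2.1 ^ 3 * v.2.2.2) + el ^ 3 * (v.2.2.1 ^ 2 - v.1 * v.2.2.1)

/-- the parameters -/
def PS : Finset (QA 9 × QA 9 × QA 9 × QA 9) :=
  (UA ×ˢ (UB ×ˢ (B2 ×ˢ B3))).filter fun v => lF v ∈ W9

theorem mem_PS (a b c d : QA 9) : (a, b, c, d) ∈ PS ↔
    (a ∈ UA ∧ b ∈ UB ∧ c ∈ B2 ∧ d ∈ B3) ∧ lF (a, b, c, d) ∈ W9 := by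
  rw [PS, Finset.mem_filter, Finset.mem_product, Finset.mem_product, Finset.mem_product]

attribute [irreducible] PS

theorem PS_card : PS.card ≤ 34992 := by
  have h1 : PS.card ≤ ((UA ×ˢ (UB ×ˢ B2)) ×ˢ W9).card := by
    refine Finset.card_le_card_of_injOn (fun v => ((v.1, v.2.1, v.2.2.1), lF v)) ?_ ?_
    · rintro ⟨a, b, c, d⟩ hv
      have hv := (mem_PS a b c d).1 (Finset.mem_coe.1 hv)
      exact Finset.mem_coe.2 (Finset.mem_product.2 ⟨Finset.mem_product.2 ⟨hv.1.1,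
        Finset.mem_product.2 ⟨hv.1.2.1, hv.1.2.2.1⟩⟩, hv.2⟩)
    · rintro ⟨a, b, c, d⟩ hv ⟨a', b', c', d'⟩ hv' h
      have hv := (mem_PS a b c d).1 (Finset.mem_coe.1 hv)
      have hv' := (mem_PS a' b' c' d').1 (Finset.mem_coe.1 hv')
      simp only [Prod.mk.injEq] at h
      obtain ⟨⟨rfl, rfl, rfl⟩, h⟩ := h
      have hb : b * b ^ 5 = 1 := unit_inv b ((mem_UB b).1 hv.1.2.1).2
      have : el * d = el * d' := by
        simp only [lF] at h
        have h2 : el * (b ^ 3 * d) = el * (b ^ 3 * d') := by linear_combination -h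
        linear_combination b ^ 3 * h2 - el * (d - d') * hb
      rw [B3_inj d hv.1.2.2.2 d' hv'.1.2.2.2 this]
  refine h1.trans ?_
  rw [Finset.card_product, Finset.card_product, Finset.card_product, card_UA, card_UB, card_B2]
  have h2 := Nat.mul_le_mul_left (54 * (18 * 9)) W9_card
  omega

/-- the forms -/
def S9 : Finset (QA 9 × QA 9 × QA 9 × QA 9) :=
  PS.image fun v => (v.1, el * v.2.1, el ^ 2 * v.2.2.1, el * v.2.2.2)

theorem S9_card : S9.card ≤ 34992 := Finset.card_image_le.trans PS_card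

theorem mem_S9 {a b c d : QA 9} (h : (a, b, c, d) ∈ PS) :
    (a, el * b, el ^ 2 * c, el * d) ∈ S9 :=
  Finset.mem_image.2 ⟨(a, b, c, d), h, rfl⟩

attribute [irreducible] S9

/-! ### the second type -/

/-- `λ disc` -/
def lD (v : QA 9 × QA 9 × QA 9 × QA 9) : QA 9 :=
  el * (v.2.1 ^ 2 * v.2.2.1 ^ 2 - 4 * v.1 * v.2.2.1 ^ 3 - 4 * v.2.1 ^ 3 * v.2.2.2)

/-- the parameters -/
def PT : Finset (QA 9 × QA 9 × QA 9 × QA 9) :=
  (B3 ×ˢ (B3 ×ˢ (B3 ×ˢ B3))).filter fun v => lD v ∈ V9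

theorem mem_PT (a b c d : QA 9) : (a, b, c, d) ∈ PT ↔
    (a ∈ B3 ∧ b ∈ B3 ∧ c ∈ B3 ∧ d ∈ B3) ∧ lD (a, b, c, d) ∈ V9 := by
  rw [PT, Finset.mem_filter, Finset.mem_product, Finset.mem_product, Finset.mem_product]

attribute [irreducible] PT

theorem PT_unit {a b c d : QA 9} (hv : lD (a, b, c, d) ∈ V9) (hc : el ^ 3 * c = 0) :
    el ^ 3 * b ≠ 0 := by
  intro hb
  refine V9_ne _ hv ?_
  simp only [lD]
  linear_combination (b * c ^ 2) * hb - 4 * a * c ^ 2 * hc - 4 * b ^ 2 * d * hb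

theorem PT_card1 : (PT.filter fun v => el ^ 3 * v.2.2.1 ≠ 0).card ≤
    ((B3 ×ˢ (UB ×ˢ B3)) ×ˢ V9).card := by
  have h4 := four_mul
  refine Finset.card_le_card_of_injOn (fun v => ((v.2.1, v.2.2.1, v.2.2.2), lD v)) ?_ ?_
  · rintro ⟨a, b, c, d⟩ hv
    obtain ⟨hv, hc⟩ := Finset.mem_filter.1 (Finset.mem_coe.1 hv)
    have hv := (mem_PT a b c d).1 hv
    exact Finset.mem_coe.2 (Finset.mem_product.2 ⟨Finset.mem_product.2 ⟨hv.1.2.1,
      Finset.mem_product.2 ⟨(mem_UB c).2 ⟨hv.1.2.2.1, hc⟩, hv.1.2.2.2⟩⟩, hv.2⟩)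
  · rintro ⟨a, b, c, d⟩ hv ⟨a', b', c', d'⟩ hv' h
    obtain ⟨hv, hc⟩ := Finset.mem_filter.1 (Finset.mem_coe.1 hv)
    obtain ⟨hv', -⟩ := Finset.mem_filter.1 (Finset.mem_coe.1 hv')
    have hv := (mem_PT a b c d).1 hv
    have hv' := (mem_PT a' b' c' d').1 hv'
    simp only [Prod.mk.injEq] at h
    obtain ⟨⟨rfl, rfl, rfl⟩, h⟩ := h
    have hc : c * c ^ 5 = 1 := unit_inv c hc
    have : el * a = el * a' := by
      simp only [lD] at h
      have h2 : el * (4 * c ^ 3 * a) = el * (4 * c ^ 3 * a') := by linear_combination -h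
      linear_combination 7 * c ^ 3 * h2 - el * (a - a') * (4 * 7) * hc - el * (a - a') * h4
    rw [B3_inj a hv.1.1 a' hv'.1.1 this]

theorem PT_card2 : (PT.filter fun v => ¬ el ^ 3 * v.2.2.1 ≠ 0).card ≤
    ((B3 ×ˢ (UB ×ˢ NB)) ×ˢ V9).card := by
  have h4 := four_mul
  refine Finset.card_le_card_of_injOn (fun v => ((v.1, v.2.1, v.2.2.1), lD v)) ?_ ?_
  · rintro ⟨a, b, c, d⟩ hv
    obtain ⟨hv, hc⟩ := Finset.mem_filter.1 (Finset.mem_coe.1 hv)
    have hv := (mem_PT a b c d).1 hv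
    have hc := not_not.1 hc
    exact Finset.mem_coe.2 (Finset.mem_product.2 ⟨Finset.mem_product.2 ⟨hv.1.1,
      Finset.mem_product.2 ⟨(mem_UB b).2 ⟨hv.1.2.1, PT_unit hv.2 hc⟩,
        (mem_NB c).2 ⟨hv.1.2.2.1, hc⟩⟩⟩, hv.2⟩)
  · rintro ⟨a, b, c, d⟩ hv ⟨a', b', c', d'⟩ hv' h
    obtain ⟨hv, hc⟩ := Finset.mem_filter.1 (Finset.mem_coe.1 hv)
    obtain ⟨hv', -⟩ := Finset.mem_filter.1 (Finset.mem_coe.1 hv')
    have hv := (mem_PT a b c d).1 hv
    have hv' := (mem_PT a' b' c' d').1 hv'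
    have hc := not_not.1 hc
    simp only [Prod.mk.injEq] at h
    obtain ⟨⟨rfl, rfl, rfl⟩, h⟩ := h
    have hb' : b * b ^ 5 = 1 := unit_inv b (PT_unit hv.2 hc)
    have : el * d = el * d' := by
      simp only [lD] at h
      have h2 : el * (4 * b ^ 3 * d) = el * (4 * b ^ 3 * d') := by linear_combination -h
      linear_combination 7 * b ^ 3 * h2 - el * (d - d') * (4 * 7) * hb' - el * (d - d') * h4
    rw [B3_inj d hv.1.2.2.2 d' hv'.1.2.2.2 this]

theorem PT_card : PT.card ≤ 69984 := by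
  have h1 := PT_card1
  have h2 := PT_card2
  have h3 : PT.card ≤ (PT.filter fun v => el ^ 3 * v.2.2.1 ≠ 0).card +
      (PT.filter fun v => ¬ el ^ 3 * v.2.2.1 ≠ 0).card := by
    refine (Finset.card_le_card fun v hv => ?_).trans (Finset.card_union_le _ _)
    by_cases h : el ^ 3 * v.2.2.1 ≠ 0
    · exact Finset.mem_union_left _ (Finset.mem_filter.2 ⟨hv, h⟩)
    · exact Finset.mem_union_right _ (Finset.mem_filter.2 ⟨hv, h⟩)
  rw [Finset.card_product, Finset.card_product, Finset.card_product, card_B3, card_UB] at h1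
  rw [Finset.card_product, Finset.card_product, Finset.card_product, card_B3, card_UB,
    card_NB] at h2
  have h5 := Nat.mul_le_mul_left (27 * (18 * 27)) V9_card
  have h6 := Nat.mul_le_mul_left (27 * (18 * 9)) V9_card
  omega

/-- the forms -/
def T9 : Finset (QA 9 × QA 9 × QA 9 × QA 9) :=
  PT.image fun v => (el * v.1, el * v.2.1, el * v.2.2.1, el * v.2.2.2)

theorem T9_card : T9.card ≤ 69984 := Finset.card_image_le.trans PT_card

theorem mem_T9 {a b c d : QA 9} (h : (a, b, c, d) ∈ PT) :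
    (el * a, el * b, el * c, el * d) ∈ T9 :=
  Finset.mem_image.2 ⟨(a, b, c, d), h, rfl⟩

attribute [irreducible] T9

/-! ### all the residues -/

/-- the finite positions -/
def P9 : Finset Eis := {0, 1, -1}

theorem P9_card : P9.card = 3 := by decide

/-- the residues of the forms -/
def C9 : Finset (Z4 9) :=
  (S9.image rv ∪ ((P9.biUnion fun t => S9.image (sh (-rd 9 t))) ∪ T9)).image (toZ 9)

theorem C9_card : C9.card ≤ 209952 := by
  have h1 : (S9.image rv).card ≤ 34992 := Finset.card_image_le.trans S9_card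
  have h2 : (P9.biUnion fun t => S9.image (sh (-rd 9 t))).card ≤ 3 * 34992 := by
    refine Finset.card_biUnion_le.trans ?_
    calc ∑ t ∈ P9, (S9.image (sh (-rd 9 t))).card ≤ ∑ _t ∈ P9, 34992 :=
          Finset.sum_le_sum fun t _ => Finset.card_image_le.trans S9_card
      _ = 3 * 34992 := by
        rw [Finset.sum_const, smul_eq_mul, P9_card]
  have h3 := Finset.card_union_le (P9.biUnion fun t => S9.image (sh (-rd 9 t))) T9
  have h4 := T9_card
  have h5 := Finset.card_union_le (S9.image rv)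
    ((P9.biUnion fun t => S9.image (sh (-rd 9 t))) ∪ T9)
  have h6 : C9.card ≤ (S9.image rv ∪ ((P9.biUnion fun t => S9.image (sh (-rd 9 t))) ∪
    T9)).card := Finset.card_image_le
  omega

end JC
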