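import Pool.Agent.JC.Base

/-!
# [JC-V1] Jacobian of `(A, w) ↦ (-3 a A² w, -a A³ (1 + w³))`

Given `v ∈ PQ a` with `A, B`: swap so that `‖B‖ ≤ ‖A‖`, `A ≠ 0`, multiply `(A, B)` by `(ζ, ζ⁻¹)`, `ζ³ = 1`, so that
`|arg A| ≤ π / 3`, put `w = B / A`.
-/

set_option autoImplicit false

namespace JC

open MeasureTheory

/-- the parametrisation -/
def v1_f (a : ℂ) (x : ℂ × ℂ) : ℂ × ℂ := (-3 * a * (x.1 ^ 2 * x.2), -a * (x.1 ^ 3 * (1 + x.2 ^ 3)))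

/-- its complex derivative -/
noncomputable def v1_f' (a : ℂ) (x : ℂ × ℂ) : ℂ × ℂ →L[ℂ] ℂ × ℂ :=
  (Matrix.toLin (Module.Basis.finTwoProd ℂ) (Module.Basis.finTwoProd ℂ)
    !![-6 * a * x.1 * x.2, -3 * a * x.1 ^ 2;
      -3 * a * x.1 ^ 2 * (1 + x.2 ^ 3), -3 * a * x.1 ^ 3 * x.2 ^ 2]).toContinuousLinearMap

theorem v1_hasFDerivAt (a : ℂ) (x : ℂ × ℂ) : HasFDerivAt (v1_f a) (v1_f' a x) x := by
  have h1 : HasFDerivAt (fun x : ℂ × ℂ => x.1) (ContinuousLinearMap.fst ℂ ℂ ℂ) x := hasFDerivAt_fst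
  have h2 : HasFDerivAt (fun x : ℂ × ℂ => x.2) (ContinuousLinearMap.snd ℂ ℂ ℂ) x := hasFDerivAt_snd
  have h3 := ((h1.pow 2).mul h2).const_mul (-3 * a)
  have h4 := ((h1.pow 3).mul ((h2.pow 3).const_add 1)).const_mul (-a)
  have h5 := h3.prodMk h4
  refine h5.congr_fderiv ?_
  unfold v1_f'
  rw [Matrix.toLin_finTwoProd_toContinuousLinearMap]
  refine ContinuousLinearMap.ext fun y => Prod.ext ?_ ?_
  · simp
    ring
  · simp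
    ring

theorem v1_det (a : ℂ) (x : ℂ × ℂ) : ((v1_f' a x).restrictScalars ℝ).det =
    81 * ‖a‖ ^ 4 * ‖x.1‖ ^ 8 * ‖1 - x.2 ^ 3‖ ^ 2 := by
  have h1 : LinearMap.det ((v1_f' a x : ℂ × ℂ →L[ℂ] ℂ × ℂ) : ℂ × ℂ →ₗ[ℂ] ℂ × ℂ) =
      9 * a ^ 2 * x.1 ^ 4 * (x.2 ^ 3 - 1) := by
    have h2 : ((v1_f' a x : ℂ × ℂ →L[ℂ] ℂ × ℂ) : ℂ × ℂ →ₗ[ℂ] ℂ × ℂ) =
        Matrix.toLin (Module.Basis.finTwoProd ℂ) (Module.Basis.finTwoProd ℂ)
          !![-6 * a * x.1 * x.2, -3 * a * x.1 ^ 2;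
          -3 * a * x.1 ^ 2 * (1 + x.2 ^ 3), -3 * a * x.1 ^ 3 * x.2 ^ 2] := rfl
    rw [h2, LinearMap.det_toLin, Matrix.det_fin_two_of]
    ring
  have h3 : ((v1_f' a x).restrictScalars ℝ).det = Algebra.norm ℝ
      (LinearMap.det ((v1_f' a x : ℂ × ℂ →L[ℂ] ℂ × ℂ) : ℂ × ℂ →ₗ[ℂ] ℂ × ℂ)) := by
    rw [← LinearMap.det_restrictScalars]
    rfl
  rw [h3, h1, Algebra.norm_complex_apply, Complex.normSq_eq_norm_sq, norm_mul, norm_mul, norm_mul,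
    norm_pow, norm_pow, norm_sub_rev (x.2 ^ 3) 1]
  have h4 : ‖(9 : ℂ)‖ = 9 := by simp
  rw [h4]
  ring

/-- the domain with the cut off -/
def v1_S (a : ℂ) : Set (ℂ × ℂ) :=
  Om ∩ {x | 27 * ‖a‖ ^ 4 * ‖x.1‖ ^ 6 * ‖1 - x.2 ^ 3‖ ^ 2 ≤ 1}

theorem v1_measC (a : ℂ) :
    MeasurableSet {x : ℂ × ℂ | 27 * ‖a‖ ^ 4 * ‖x.1‖ ^ 6 * ‖1 - x.2 ^ 3‖ ^ 2 ≤ 1} := by
  refine measurableSet_le ?_ measurable_const
  fun_prop

theorem v1_measOm : MeasurableSet Om := by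
  have h1 : MeasurableSet {x : ℂ × ℂ | |Complex.arg x.1| ≤ Real.pi / 3} :=
    measurableSet_le (continuous_abs.measurable.comp (Complex.measurable_arg.comp measurable_fst))
      measurable_const
  have h2 : MeasurableSet {x : ℂ × ℂ | ‖x.2‖ ≤ 1} := measurableSet_le (by fun_prop) measurable_const
  have h3 : MeasurableSet {x : ℂ × ℂ | (1 + ‖x.2‖ ^ 2) ^ 2 ≤ 3 / 2 * ‖x.1‖ ^ 2 * ‖1 - x.2 ^ 3‖ ^ 2} :=
    measurableSet_le (by fun_prop) (by fun_prop)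
  exact h1.inter (h2.inter h3)

/-- a cube root of unity moves the argument into the sector -/
theorem v1_sector (A : ℂ) : ∃ ζ : ℂ, ζ ^ 3 = 1 ∧ |Complex.arg (ζ * A)| ≤ Real.pi / 3 := by
  have hpi := Real.pi_pos
  by_cases hA : A = 0
  · refine ⟨1, one_pow 3, ?_⟩
    rw [hA, mul_zero, Complex.arg_zero, abs_zero]
    positivity
  have key : ∀ t : ℝ, (∃ k : ℤ, 3 * t = 2 * Real.pi * k) → |Complex.arg A + t| ≤ Real.pi / 3 →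
      ∃ ζ : ℂ, ζ ^ 3 = 1 ∧ |Complex.arg (ζ * A)| ≤ Real.pi / 3 := by
    rintro t ⟨k, hk⟩ ht
    refine ⟨Complex.exp (t * Complex.I), ?_, ?_⟩
    · rw [← Complex.exp_nat_mul, Complex.exp_eq_one_iff]
      refine ⟨k, ?_⟩
      have h1 : (3 : ℂ) * t = 2 * Real.pi * k := by exact_mod_cast hk
      push_cast
      linear_combination Complex.I * h1
    · have h1 : Complex.exp (t * Complex.I) * A =
          (‖A‖ : ℂ) * (Complex.cos ((Complex.arg A + t : ℝ)) +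
            Complex.sin ((Complex.arg A + t : ℝ)) * Complex.I) := by
        rw [← Complex.exp_mul_I]
        conv_lhs => rw [← Complex.norm_mul_exp_arg_mul_I A]
        rw [mul_left_comm, ← Complex.exp_add]
        congr 2
        push_cast
        ring
      have h2 := abs_le.1 ht
      rw [h1, Complex.arg_mul_cos_add_sin_mul_I (norm_pos_iff.2 hA)
        ⟨by linarith [h2.1], by linarith [h2.2]⟩]
      exact ht
  have h1 := Complex.neg_pi_lt_arg A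
  have h2 := Complex.arg_le_pi A
  by_cases h3 : |Complex.arg A| ≤ Real.pi / 3
  · exact key 0 ⟨0, by norm_num⟩ (by rw [add_zero]; exact h3)
  · rcases lt_abs.1 (not_le.1 h3) with h4 | h4
    · refine key (-(2 * Real.pi / 3)) ⟨-1, by push_cast; ring⟩ (abs_le.2 ⟨by linarith, by linarith⟩)
    · refine key (2 * Real.pi / 3) ⟨1, by push_cast; ring⟩ (abs_le.2 ⟨by linarith, by linarith⟩)

theorem v1_mem (a A B : ℂ) (hBA : ‖B‖ ≤ ‖A‖)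
    (h1 : (‖A‖ ^ 2 + ‖B‖ ^ 2) ^ 2 ≤ 3 / 2 * ‖A ^ 3 - B ^ 3‖ ^ 2) (h2 : 2 / 3 ≤ ‖A‖ ^ 2 + ‖B‖ ^ 2)
    (h3 : 27 * ‖a‖ ^ 4 * ‖A ^ 3 - B ^ 3‖ ^ 2 ≤ 1) :
    ((-3 * a * (A * B), -a * (A ^ 3 + B ^ 3)) : ℂ × ℂ) ∈ v1_f a '' v1_S a := by
  obtain ⟨ζ, hζ, harg⟩ := v1_sector A
  have hA0 : A ≠ 0 := by
    rintro rfl
    rw [norm_zero] at hBA h2
    have h4 : ‖B‖ = 0 := le_antisymm hBA (norm_nonneg B)
    rw [h4] at h2
    norm_num at h2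
  have hζ0 : ζ ≠ 0 := by
    rintro rfl
    norm_num at hζ
  have hζn : ‖ζ‖ = 1 := by
    have h4 : ‖ζ‖ ^ 3 = 1 := by rw [← norm_pow, hζ, norm_one]
    exact (pow_eq_one_iff_of_nonneg (norm_nonneg ζ) (by norm_num)).1 h4
  set A' : ℂ := ζ * A with hA'
  set B' : ℂ := ζ⁻¹ * B with hB'
  have hA'0 : A' ≠ 0 := mul_ne_zero hζ0 hA0
  have e1 : A' * B' = A * B := by
    rw [hA', hB']
    field_simp
  have e2 : A' ^ 3 = A ^ 3 := by rw [hA', mul_pow, hζ, one_mul]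
  have e3 : B' ^ 3 = B ^ 3 := by rw [hB', mul_pow, inv_pow, hζ, inv_one, one_mul]
  have n1 : ‖A'‖ = ‖A‖ := by rw [hA', norm_mul, hζn, one_mul]
  have n2 : ‖B'‖ = ‖B‖ := by rw [hB', norm_mul, norm_inv, hζn, inv_one, one_mul]
  set w : ℂ := B' / A' with hw
  have hB'w : B' = A' * w := by rw [hw, mul_div_cancel₀ _ hA'0]
  have hApos : 0 < ‖A'‖ := norm_pos_iff.2 hA'0
  have hwn : ‖B'‖ = ‖A'‖ * ‖w‖ := by rw [hB'w, norm_mul]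
  have hdiff : ‖A ^ 3 - B ^ 3‖ = ‖A'‖ ^ 3 * ‖1 - w ^ 3‖ := by
    rw [← e2, ← e3, hB'w, mul_pow, ← norm_pow, ← norm_mul]
    congr 1
    ring
  refine ⟨(A', w), ⟨⟨harg, ?_, ?_⟩, ?_⟩, ?_⟩
  · show ‖w‖ ≤ 1
    rw [← n1, ← n2, hwn] at hBA
    by_contra hcon
    push Not at hcon
    nlinarith
  · show (1 + ‖w‖ ^ 2) ^ 2 ≤ 3 / 2 * ‖A'‖ ^ 2 * ‖1 - w ^ 3‖ ^ 2
    rw [← n1, ← n2, hwn, hdiff] at h1
    have h4 : ‖A'‖ ^ 4 * (1 + ‖w‖ ^ 2) ^ 2 ≤ ‖A'‖ ^ 4 * (3 / 2 * ‖A'‖ ^ 2 * ‖1 - w ^ 3‖ ^ 2) := by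
      nlinarith [h1]
    exact le_of_mul_le_mul_left h4 (pow_pos hApos 4)
  · show 27 * ‖a‖ ^ 4 * ‖A'‖ ^ 6 * ‖1 - w ^ 3‖ ^ 2 ≤ 1
    rw [hdiff] at h3
    nlinarith [h3]
  · show ((-3 * a * (A' ^ 2 * w), -a * (A' ^ 3 * (1 + w ^ 3))) : ℂ × ℂ) = _
    refine Prod.ext ?_ ?_
    · show -3 * a * (A' ^ 2 * w) = -3 * a * (A * B)
      rw [← e1, hB'w]
      ring
    · show -a * (A' ^ 3 * (1 + w ^ 3)) = -a * (A ^ 3 + B ^ 3)
      rw [← e2, ← e3, hB'w]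
      ring

theorem v1_sub (a : ℂ) : PQ a ⊆ v1_f a '' v1_S a := by
  rintro ⟨p, q⟩ ⟨A, B, hp, hq, h1, h2, h3⟩
  have hp' : p = -3 * a * (A * B) := hp
  have hq' : q = -a * (A ^ 3 + B ^ 3) := hq
  rcases le_total ‖B‖ ‖A‖ with h | h
  · rw [hp', hq']
    exact v1_mem a A B h h1 h2 h3
  · rw [hp', hq', mul_comm A B, add_comm (A ^ 3) (B ^ 3)]
    refine v1_mem a B A h ?_ ?_ ?_
    · rw [add_comm (‖B‖ ^ 2), norm_sub_rev]
      exact h1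
    · rw [add_comm]
      exact h2
    · rw [norm_sub_rev]
      exact h3

theorem vol_PQ (a : ℂ) : volume (PQ a) ≤ ∫⁻ x in Om, jac a x := by
  have hH : (volume : Measure (ℂ × ℂ)).IsAddHaarMeasure := by
    rw [Measure.volume_eq_prod]
    exact Measure.prod.instIsAddHaarMeasure volume volume
  have hS : MeasurableSet (v1_S a) := v1_measOm.inter (v1_measC a)
  have h1 : volume (v1_f a '' v1_S a) ≤
      ∫⁻ x in v1_S a, ENNReal.ofReal |((v1_f' a x).restrictScalars ℝ).det| :=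
    addHaar_image_le_lintegral_abs_det_fderiv volume hS fun x _ =>
      ((v1_hasFDerivAt a x).restrictScalars ℝ).hasFDerivWithinAt
  refine (measure_mono (v1_sub a)).trans (h1.trans ?_)
  have h2 : ∀ x, ENNReal.ofReal |((v1_f' a x).restrictScalars ℝ).det| =
      ENNReal.ofReal (81 * ‖a‖ ^ 4 * ‖x.1‖ ^ 8 * ‖1 - x.2 ^ 3‖ ^ 2) := by
    intro x
    rw [v1_det, abs_of_nonneg (by positivity)]
  simp only [h2]
  have h3 : ∫⁻ x in v1_S a, ENNReal.ofReal (81 * ‖a‖ ^ 4 * ‖x.1‖ ^ 8 * ‖1 - x.2 ^ 3‖ ^ 2) =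
      ∫⁻ x in v1_S a, jac a x := by
    refine setLIntegral_congr_fun hS fun x hx => ?_
    have h4 : 27 * ‖a‖ ^ 4 * ‖x.1‖ ^ 6 * ‖1 - x.2 ^ 3‖ ^ 2 ≤ 1 := hx.2
    show _ = jac a x
    unfold jac
    rw [if_pos h4]
  rw [h3]
  exact lintegral_mono_set Set.inter_subset_left

end JC
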